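import Pool.Agent.Lib.MP_cb9986_co.S9.Spec

/-!
Swarm S9: the cover-down step (module Cover), see the docstring of `CoverStmt` in `Spec.lean`.
-/

set_option autoImplicit false
open Finset

namespace Pool.Agent.Lib.MP_cb9986_co.S9

section basic

variable {α : Type} [DecidableEq α]

theorem cover_mixed_resv (U : ZMod 3 → Finset α) (P Q : ZMod 3 → α → ℕ) (G : Finset (Arc α)) :
    Mixed U (resv U P Q G) := by
  intro e he
  unfold resv at he
  rw [Finset.mem_filter] at he
  rcases he.2 with h | h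
  · exact Or.inr ⟨h.1, h.2.1⟩
  · exact Or.inl ⟨h.1, h.2.1⟩

omit [DecidableEq α] in
theorem cover_mixed_mono {U : ZMod 3 → Finset α} {G H : Finset (Arc α)} (h : Mixed U H)
    (hG : G ⊆ H) : Mixed U G := fun e he => h e (hG he)

omit [DecidableEq α] in
theorem cover_inside_mono {U : ZMod 3 → Finset α} {G H : Finset (Arc α)} (h : Inside U H)
    (hG : G ⊆ H) : Inside U G := fun e he => h e (hG he)

theorem cover_inside_restr (U : ZMod 3 → Finset α) (G : Finset (Arc α)) :
    Inside U (restr U G) := by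
  intro e he
  unfold restr at he
  rw [Finset.mem_filter] at he
  exact he.2

omit [DecidableEq α] in
theorem cover_disj_mixed_inside {U : ZMod 3 → Finset α} {R F : Finset (Arc α)} (h : Mixed U R)
    (hF : Inside U F) : Disjoint R F := by
  rw [Finset.disjoint_left]
  intro e he hf
  have h1 := h e he
  have h2 := hF e hf
  tauto

theorem cover_resv_subset (U : ZMod 3 → Finset α) (P Q : ZMod 3 → α → ℕ) (G : Finset (Arc α)) :
    resv U P Q G ⊆ G := Finset.filter_subset _ _

omit [DecidableEq α] in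
theorem cover_dec_mono_disj {A B C D : Finset (Arc α)} (h : Disjoint A B) (hC : C ⊆ A)
    (hD : D ⊆ B) : Disjoint C D := Finset.disjoint_of_subset_left hC
  (Finset.disjoint_of_subset_right hD h)

end basic

/-- the covering stages (2), (3), (4), with natural number parameters -/
theorem cover_stageB (h3 : CoverOutStmt) (h4 : CoverMixedStmt) (h5 : CoverMatchStmt)
    {α : Type} [DecidableEq α] [Fintype α] (V U : ZMod 3 → Finset α) (P Q : ZMod 3 → α → ℕ)
    (G Z L : Finset (Arc α)) (d Λ ℓ c q t : ℕ)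
    (hV : Inside V G) (hZ : Z ⊆ restr U G) (hLG : L ⊆ G)
    (hLR : Disjoint L (restr U G ∪ resv U P Q G))
    (hB : Bal (L ∪ (restr U G ∪ resv U P Q G)))
    (hd : ∀ i x, (outN L i x).card ≤ d ∧ (inN L i x).card ≤ d) (hℓ : L.card ≤ ℓ) (hΛ : 0 < Λ)
    (common : ∀ i, ∀ x ∈ V i, x ∉ U i → ∀ y ∈ V (i + 1), y ∉ U (i + 1) →
      2 * d < (univ.filter fun w =>
        (i + 1, y, w) ∈ resv U P Q G ∧ (i + 2, w, x) ∈ resv U P Q G).card)
    (linkOut : ∀ i, ∀ x ∈ V i, x ∉ U i → ∀ u ∈ U (i + 1),
      c + d ≤ (univ.filter fun v =>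
        (i + 2, v, x) ∈ resv U P Q G ∧ (i + 1, u, v) ∈ restr U G \ Z).card)
    (linkIn : ∀ i, ∀ x ∈ V i, x ∉ U i → ∀ v ∈ U (i + 2),
      c + d ≤ (univ.filter fun u =>
        (i, x, u) ∈ resv U P Q G ∧ (i + 1, u, v) ∈ restr U G \ Z).card)
    (hc : 2 * d + Λ + ℓ / Λ < c)
    (outside : ∀ i, ∀ x ∈ V i, x ∉ U i → (outN (resv U P Q G) i x).card ≤ t ∧
      (inN (resv U P Q G) i x).card ≤ t)
    (colour : ∀ i a b, ((V i).filter fun x => x ∉ U i ∧ P i x = a ∧ Q i x = b).card ≤ q)
    (ht : t + 2 * q + 2 * (2 * d + Λ) ≤ 2 * c) :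
    ∃ H, H ⊆ L ∪ (restr U G ∪ resv U P Q G) ∧ Dec H ∧ L ∪ resv U P Q G ⊆ H ∧ Disjoint H Z ∧
      ∀ i w, (outN (H ∩ restr U G) i w).card ≤ d + Λ + (inN (resv U P Q G) i w).card ∧
        (inN (H ∩ restr U G) i w).card ≤ d + Λ + (outN (resv U P Q G) i w).card := by
  set R := resv U P Q G with hR
  set I := restr U G with hI
  have mR : Mixed U R := cover_mixed_resv U P Q G
  have iI : Inside U I := cover_inside_restr U G
  have dRI : Disjoint R I := cover_disj_mixed_inside mR iI
  have RG : R ⊆ G := cover_resv_subset U P Q G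
  have IG : I ⊆ G := restr_subset U G
  rw [Finset.disjoint_union_right] at hLR
  obtain ⟨dLI, dLR⟩ := hLR
  -- ends of arcs in `L`
  have hLU : ∀ e ∈ L, ¬ (e.2.1 ∈ U e.1 ∧ e.2.2 ∈ U (e.1 + 1)) := by
    intro e he h
    refine (Finset.disjoint_left.1 dLI) he ?_
    rw [hI]
    unfold restr
    rw [Finset.mem_filter]
    exact ⟨hLG he, h⟩
  set Lo := L.filter (fun e : Arc α => e.2.1 ∉ U e.1 ∧ e.2.2 ∉ U (e.1 + 1)) with hLo
  set Lm := L.filter (fun e : Arc α => ¬ (e.2.1 ∉ U e.1 ∧ e.2.2 ∉ U (e.1 + 1))) with hLm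
  have LoL : Lo ⊆ L := Finset.filter_subset _ _
  have LmL : Lm ⊆ L := Finset.filter_subset _ _
  have hLL : L = Lo ∪ Lm := (Finset.filter_union_filter_not_eq _ _).symm
  have dLoLm : Disjoint Lo Lm := Finset.disjoint_filter_filter_not _ _ _
  have mLm : Mixed U Lm := by
    intro e he
    rw [hLm, Finset.mem_filter] at he
    have h1 := hLU e he.1
    have h2 := he.2
    tauto
  -- step (2)
  obtain ⟨H2, dec2, LoH2, H2sub, H2deg⟩ := h3 α U R Lo d
    (fun e he => by rw [hLo, Finset.mem_filter] at he; exact he.2) mR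
    (fun i x => ⟨(Finset.card_le_card (outN_mono LoL i x)).trans (hd i x).1,
      (Finset.card_le_card (inN_mono LoL i x)).trans (hd i x).2⟩)
    (by
      intro i x y hxy
      have hm := hxy
      rw [hLo, Finset.mem_filter] at hm
      have hin := hV _ (hLG hm.1)
      refine (common i x hin.1 hm.2.1 y hin.2 hm.2.2).trans_le (Finset.card_le_card ?_)
      intro w hw
      rw [Finset.mem_filter] at hw ⊢
      refine ⟨?_, hw.2⟩
      have h1 := mR _ hw.2.1
      obtain ⟨z1, z2, z3', z4⟩ := z3 i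
      simp only [z1] at h1
      have := hm.2.2
      simp only at this
      tauto)
  -- step (3)
  set R3 := R \ H2 with hR3
  set F := I \ Z with hF
  have R3R : R3 ⊆ R := Finset.sdiff_subset
  have FI : F ⊆ I := Finset.sdiff_subset
  have iF : Inside U F := cover_inside_mono iI FI
  obtain ⟨H3, dec3, LmH3, H3sub, H3deg, H3F⟩ := h4 α U R3 Lm F d Λ ℓ c
    (cover_mixed_mono mR R3R) mLm (cover_dec_mono_disj dLR LmL R3R) iF
    (fun i x => ⟨(Finset.card_le_card (outN_mono LmL i x)).trans (hd i x).1,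
      (Finset.card_le_card (inN_mono LmL i x)).trans (hd i x).2⟩)
    ((Finset.card_le_card LmL).trans hℓ) hΛ
    (by
      intro i x u hxu hx
      have hin := hV _ (hLG (LmL hxu))
      have hu : u ∈ U (i + 1) := by
        have := mLm _ hxu
        simp only at this
        tauto
      have h1 := linkOut i x hin.1 hx u hu
      have h2 := (H2deg i x hx).2
      have h3 : (univ.filter fun v => (i + 2, v, x) ∈ R ∧ (i + 1, u, v) ∈ F) ⊆
          (univ.filter fun v => (i + 2, v, x) ∈ R3 ∧ (i + 1, u, v) ∈ F) ∪ inN (H2 ∩ R) i x := by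
        intro v hv
        rw [Finset.mem_filter] at hv
        rw [Finset.mem_union, Finset.mem_filter, mem_inN, hR3, Finset.mem_sdiff, Finset.mem_inter]
        tauto
      have h4 := (Finset.card_le_card h3).trans (Finset.card_union_le _ _)
      omega)
    (by
      intro i x v hxv hx
      have hin := hV _ (hLG (LmL hxv))
      obtain ⟨z1, z2, z3', z4⟩ := z3 i
      have hv : v ∈ U (i + 2) := by
        have := mLm _ hxv
        simp only [z3'] at this
        tauto
      simp only [z3'] at hin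
      have h1 := linkIn i x hin.2 hx v hv
      have h2 := (H2deg i x hx).1
      have h3 : (univ.filter fun u => (i, x, u) ∈ R ∧ (i + 1, u, v) ∈ F) ⊆
          (univ.filter fun u => (i, x, u) ∈ R3 ∧ (i + 1, u, v) ∈ F) ∪ outN (H2 ∩ R) i x := by
        intro u hu
        rw [Finset.mem_filter] at hu
        rw [Finset.mem_union, Finset.mem_filter, mem_outN, hR3, Finset.mem_sdiff, Finset.mem_inter]
        tauto
      have h4 := (Finset.card_le_card h3).trans (Finset.card_union_le _ _)
      omega)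
    hc
  -- step (4)
  set R4 := R3 \ H3 with hR4
  set F4 := F \ H3 with hF4
  have R4R : R4 ⊆ R := Finset.sdiff_subset.trans R3R
  have F4F : F4 ⊆ F := Finset.sdiff_subset
  have m4 : Mixed U R4 := cover_mixed_mono mR R4R
  -- structure of the remaining graph
  have H2LR : H2 ⊆ L ∪ (I ∪ R) := by
    intro e he
    have := H2sub he
    rw [Finset.mem_union] at this
    rw [Finset.mem_union, Finset.mem_union]
    rcases this with h | h
    · exact Or.inl (LoL h)
    · exact Or.inr (Or.inr h)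
  have H3LR : H3 ⊆ (L ∪ (I ∪ R)) \ H2 := by
    intro e he
    have h1 := H3sub he
    rw [Finset.mem_union, Finset.mem_union] at h1
    rw [Finset.mem_sdiff, Finset.mem_union, Finset.mem_union]
    rcases h1 with (h | h) | h
    · refine ⟨Or.inl (LmL h), fun h2 => ?_⟩
      have := H2sub h2
      rw [Finset.mem_union] at this
      rcases this with h6 | h6
      · exact (Finset.disjoint_left.1 dLoLm) h6 h
      · exact (Finset.disjoint_left.1 dLR) (LmL h) h6
    · rw [hR3, Finset.mem_sdiff] at h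
      exact ⟨Or.inr (Or.inr h.1), h.2⟩
    · refine ⟨Or.inr (Or.inl (FI h)), fun h2 => ?_⟩
      have := H2sub h2
      rw [Finset.mem_union] at this
      rcases this with h6 | h6
      · exact (Finset.disjoint_left.1 dLI) (LoL h6) (FI h)
      · exact (Finset.disjoint_left.1 dRI) h6 (FI h)
  have bal4 : Bal (((L ∪ (I ∪ R)) \ H2) \ H3) :=
    (hB.sdiff dec2.bal H2LR).sdiff dec3.bal H3LR
  have rest4 : ∀ e ∈ ((L ∪ (I ∪ R)) \ H2) \ H3, e ∈ I ∨ e ∈ R4 := by
    intro e he
    rw [Finset.mem_sdiff, Finset.mem_sdiff, Finset.mem_union, Finset.mem_union] at he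
    obtain ⟨⟨h1, h2⟩, h3'⟩ := he
    rcases h1 with h | h | h
    · rw [hLL, Finset.mem_union] at h
      rcases h with h | h
      · exact absurd (LoH2 h) h2
      · exact absurd (LmH3 h) h3'
    · exact Or.inl h
    · refine Or.inr ?_
      rw [hR4, hR3, Finset.mem_sdiff, Finset.mem_sdiff]
      exact ⟨⟨h, h2⟩, h3'⟩
  have R4rest : R4 ⊆ ((L ∪ (I ∪ R)) \ H2) \ H3 := by
    intro e he
    rw [hR4, hR3, Finset.mem_sdiff, Finset.mem_sdiff] at he
    rw [Finset.mem_sdiff, Finset.mem_sdiff, Finset.mem_union, Finset.mem_union]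
    tauto
  have out4 : ∀ i, ∀ x ∉ U i, outN (((L ∪ (I ∪ R)) \ H2) \ H3) i x = outN R4 i x := by
    intro i x hx
    ext y
    rw [mem_outN, mem_outN]
    constructor
    · intro h
      rcases rest4 _ h with h6 | h6
      · exact absurd (iI _ h6).1 hx
      · exact h6
    · exact fun h => R4rest h
  have in4 : ∀ i, ∀ x ∉ U i, inN (((L ∪ (I ∪ R)) \ H2) \ H3) i x = inN R4 i x := by
    intro i x hx
    obtain ⟨z1, z2, z3', z4⟩ := z3 i
    ext y
    rw [mem_inN, mem_inN]
    constructor
    · intro h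
      rcases rest4 _ h with h6 | h6
      · have := (iI _ h6).2
        simp only [z3'] at this
        exact absurd this hx
      · exact h6
    · exact fun h => R4rest h
  have bal4' : ∀ i, ∀ x ∉ U i, (outN R4 i x).card = (inN R4 i x).card := by
    intro i x hx
    rw [← out4 i x hx, ← in4 i x hx]
    exact bal4 i x
  -- colours
  have colP : ∀ i x u, x ∉ U i → (i, x, u) ∈ R → P i x = P (i + 1) u := by
    intro i x u hx h
    rw [hR] at h
    unfold resv at h
    rw [Finset.mem_filter] at h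
    rcases h.2 with h6 | h6
    · exact h6.2.2
    · exact absurd h6.1 hx
  have colQ : ∀ i x v, x ∉ U i → (i + 2, v, x) ∈ R → Q i x = Q (i + 2) v := by
    intro i x v hx h
    obtain ⟨z1, z2, z3', z4⟩ := z3 i
    rw [hR] at h
    unfold resv at h
    rw [Finset.mem_filter] at h
    simp only [z3'] at h
    rcases h.2 with h6 | h6
    · exact absurd h6.2.1 hx
    · exact h6.2.2.symm
  have memV : ∀ i x u, (i, x, u) ∈ R → x ∈ V i := fun i x u h => (hV _ (RG h)).1
  have memV' : ∀ i x v, (i + 2, v, x) ∈ R → x ∈ V i := by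
    intro i x v h
    obtain ⟨z1, z2, z3', z4⟩ := z3 i
    have := (hV _ (RG h)).2
    simp only [z3'] at this
    exact this
  obtain ⟨H4, dec4, R4H4, H4sub, H4F⟩ := h5 α U R4 F4 (fun i x => Nat.pair (P i x) (Q i x)) q
    m4 (cover_inside_mono iF F4F) bal4'
    (by
      intro i x x' u v hx hx' h1 h2 h3' h4'
      have p1 := colP i x u hx (R4R h1)
      have p2 := colP i x' u hx' (R4R h2)
      have q1 := colQ i x v hx (R4R h3')
      have q2 := colQ i x' v hx' (R4R h4')
      rw [p1, p2, q1, q2])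
    (by
      intro i c'
      refine (Finset.card_le_card ?_).trans (colour i (Nat.unpair c').1 (Nat.unpair c').2)
      intro x hx
      rw [Finset.mem_filter] at hx ⊢
      obtain ⟨_, hxU, hcol, u, hu⟩ := hx
      rw [mem_outN] at hu
      refine ⟨memV i x u (R4R hu), hxU, ?_, ?_⟩
      · rw [← hcol, Nat.unpair_pair]
      · rw [← hcol, Nat.unpair_pair])
    (by
      intro i x hx u hu
      rw [mem_outN] at hu
      have hxV := memV i x u (R4R hu)
      have huU : u ∈ U (i + 1) := by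
        have := m4 _ hu
        simp only at this
        tauto
      have h1 := linkOut i x hxV hx u huU
      have h2 := (H2deg i x hx).2
      have h3' := (H3deg i x hx).2
      have h4' := (H3F (i + 1) u).1
      have h6 := (outside i x hxV hx).1
      have h7 : (outN R4 i x).card ≤ (outN R i x).card := Finset.card_le_card (outN_mono R4R i x)
      have h8 : (univ.filter fun v => (i + 2, v, x) ∈ R ∧ (i + 1, u, v) ∈ F) ⊆
          (((inN R4 i x).filter fun v => (i + 1, u, v) ∈ F4) ∪ inN (H2 ∩ R) i x) ∪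
            (inN (H3 ∩ R3) i x ∪ outN (H3 ∩ F) (i + 1) u) := by
        intro v hv
        rw [Finset.mem_filter] at hv
        simp only [Finset.mem_union, Finset.mem_filter, mem_inN, mem_outN, hR4, hF4,
          Finset.mem_sdiff, Finset.mem_inter, hR3]
        obtain ⟨_, hv1, hv2⟩ := hv
        by_cases a2 : (i + 2, v, x) ∈ H2
        · tauto
        · by_cases a3 : (i + 2, v, x) ∈ H3
          · tauto
          · by_cases a4 : (i + 1, u, v) ∈ H3
            · tauto
            · tauto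
      have h9 := Finset.card_le_card h8
      have h10 := Finset.card_union_le
        (((inN R4 i x).filter fun v => (i + 1, u, v) ∈ F4) ∪ inN (H2 ∩ R) i x)
        (inN (H3 ∩ R3) i x ∪ outN (H3 ∩ F) (i + 1) u)
      have h11 := Finset.card_union_le
        ((inN R4 i x).filter fun v => (i + 1, u, v) ∈ F4) (inN (H2 ∩ R) i x)
      have h12 := Finset.card_union_le (inN (H3 ∩ R3) i x) (outN (H3 ∩ F) (i + 1) u)
      omega)
    (by
      intro i x hx v hv
      obtain ⟨z1, z2, z3', z4⟩ := z3 i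
      rw [mem_inN] at hv
      have hxV := memV' i x v (R4R hv)
      have hvU : v ∈ U (i + 2) := by
        have := m4 _ hv
        simp only [z3'] at this
        tauto
      have h1 := linkIn i x hxV hx v hvU
      have h2 := (H2deg i x hx).1
      have h3' := (H3deg i x hx).1
      have h4' := (H3F (i + 2) v).2
      have h6 := (outside i x hxV hx).2
      have h7 : (inN R4 i x).card ≤ (inN R i x).card := Finset.card_le_card (inN_mono R4R i x)
      have h8 : (univ.filter fun u => (i, x, u) ∈ R ∧ (i + 1, u, v) ∈ F) ⊆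
          (((outN R4 i x).filter fun u => (i + 1, u, v) ∈ F4) ∪ outN (H2 ∩ R) i x) ∪
            (outN (H3 ∩ R3) i x ∪ inN (H3 ∩ F) (i + 2) v) := by
        intro u hu
        rw [Finset.mem_filter] at hu
        simp only [Finset.mem_union, Finset.mem_filter, mem_inN, mem_outN, z4, hR4, hF4,
          Finset.mem_sdiff, Finset.mem_inter, hR3]
        obtain ⟨_, hu1, hu2⟩ := hu
        by_cases a2 : (i, x, u) ∈ H2
        · tauto
        · by_cases a3 : (i, x, u) ∈ H3
          · tauto
          · by_cases a4 : (i + 1, u, v) ∈ H3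
            · tauto
            · tauto
      have h9 := Finset.card_le_card h8
      have h10 := Finset.card_union_le
        (((outN R4 i x).filter fun u => (i + 1, u, v) ∈ F4) ∪ outN (H2 ∩ R) i x)
        (outN (H3 ∩ R3) i x ∪ inN (H3 ∩ F) (i + 2) v)
      have h11 := Finset.card_union_le
        ((outN R4 i x).filter fun u => (i + 1, u, v) ∈ F4) (outN (H2 ∩ R) i x)
      have h12 := Finset.card_union_le (outN (H3 ∩ R3) i x) (inN (H3 ∩ F) (i + 2) v)
      omega)
  -- assembly
  have H4LR : H4 ⊆ ((L ∪ (I ∪ R)) \ H2) \ H3 := by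
    intro e he
    have h1 := H4sub he
    rw [Finset.mem_union] at h1
    rcases h1 with h | h
    · exact R4rest h
    · rw [hF4, Finset.mem_sdiff] at h
      rw [Finset.mem_sdiff, Finset.mem_sdiff, Finset.mem_union, Finset.mem_union]
      refine ⟨⟨Or.inr (Or.inl (FI h.1)), fun h2 => ?_⟩, h.2⟩
      have := H2sub h2
      rw [Finset.mem_union] at this
      rcases this with h6 | h6
      · exact (Finset.disjoint_left.1 dLI) (LoL h6) (FI h.1)
      · exact (Finset.disjoint_left.1 dRI) h6 (FI h.1)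
  have d23 : Disjoint H2 H3 := by
    rw [Finset.disjoint_left]
    intro e h1 h2
    have := H3LR h2
    rw [Finset.mem_sdiff] at this
    exact this.2 h1
  have d234 : Disjoint (H2 ∪ H3) H4 := by
    rw [Finset.disjoint_left]
    intro e h1 h2
    have := H4LR h2
    rw [Finset.mem_sdiff, Finset.mem_sdiff] at this
    rw [Finset.mem_union] at h1
    tauto
  have FZ : Disjoint F Z := Finset.sdiff_disjoint
  refine ⟨(H2 ∪ H3) ∪ H4, ?_, (dec2.union dec3 d23).union dec4 d234, ?_, ?_, ?_⟩
  · refine Finset.union_subset (Finset.union_subset H2LR ?_) ?_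
    · exact H3LR.trans Finset.sdiff_subset
    · exact H4LR.trans (Finset.sdiff_subset.trans Finset.sdiff_subset)
  · intro e he
    rw [Finset.mem_union] at he
    rw [Finset.mem_union, Finset.mem_union]
    rcases he with h | h
    · rw [hLL, Finset.mem_union] at h
      rcases h with h | h
      · exact Or.inl (Or.inl (LoH2 h))
      · exact Or.inl (Or.inr (LmH3 h))
    · by_cases e2 : e ∈ H2
      · exact Or.inl (Or.inl e2)
      · by_cases e3 : e ∈ H3
        · exact Or.inl (Or.inr e3)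
        · refine Or.inr (R4H4 ?_)
          rw [hR4, hR3, Finset.mem_sdiff, Finset.mem_sdiff]
          exact ⟨⟨h, e2⟩, e3⟩
  · rw [Finset.disjoint_left]
    intro e he hz
    have hzI : e ∈ I := hZ hz
    rw [Finset.mem_union, Finset.mem_union] at he
    rcases he with (h | h) | h
    · have := H2sub h
      rw [Finset.mem_union] at this
      rcases this with h6 | h6
      · exact (Finset.disjoint_left.1 dLI) (LoL h6) hzI
      · exact (Finset.disjoint_left.1 dRI) h6 hzI
    · have := H3sub h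
      rw [Finset.mem_union, Finset.mem_union] at this
      rcases this with (h6 | h6) | h6
      · exact (Finset.disjoint_left.1 dLI) (LmL h6) hzI
      · exact (Finset.disjoint_left.1 dRI) (R3R h6) hzI
      · exact (Finset.disjoint_left.1 FZ) h6 hz
    · have := H4sub h
      rw [Finset.mem_union] at this
      rcases this with h6 | h6
      · exact (Finset.disjoint_left.1 dRI) (R4R h6) hzI
      · exact (Finset.disjoint_left.1 FZ) (F4F h6) hz
  · have key : ((H2 ∪ H3) ∪ H4) ∩ I ⊆ (H3 ∩ F) ∪ (H4 ∩ F4) := by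
      intro e he
      rw [Finset.mem_inter, Finset.mem_union, Finset.mem_union] at he
      obtain ⟨he1, heI⟩ := he
      rw [Finset.mem_union, Finset.mem_inter, Finset.mem_inter]
      rcases he1 with (h | h) | h
      · have := H2sub h
        rw [Finset.mem_union] at this
        rcases this with h6 | h6
        · exact absurd heI ((Finset.disjoint_left.1 dLI) (LoL h6))
        · exact absurd heI ((Finset.disjoint_left.1 dRI) h6)
      · have := H3sub h
        rw [Finset.mem_union, Finset.mem_union] at this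
        rcases this with (h6 | h6) | h6
        · exact absurd heI ((Finset.disjoint_left.1 dLI) (LmL h6))
        · exact absurd heI ((Finset.disjoint_left.1 dRI) (R3R h6))
        · exact Or.inl ⟨h, h6⟩
      · have := H4sub h
        rw [Finset.mem_union] at this
        rcases this with h6 | h6
        · exact absurd heI ((Finset.disjoint_left.1 dRI) (R4R h6))
        · exact Or.inr ⟨h, h6⟩
    intro i w
    constructor
    · have e1 := Finset.card_le_card (outN_mono key i w)
      rw [outN_union] at e1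
      have e2 := Finset.card_union_le (outN (H3 ∩ F) i w) (outN (H4 ∩ F4) i w)
      have e3 := (H3F i w).1
      have e4 := (H4F i w).1
      have e5 := Finset.card_le_card (inN_mono R4R i w)
      omega
    · have e1 := Finset.card_le_card (inN_mono key i w)
      rw [inN_union] at e1
      have e2 := Finset.card_union_le (inN (H3 ∩ F) i w) (inN (H4 ∩ F4) i w)
      have e3 := (H3F i w).2
      have e4 := (H4F i w).2
      have e5 := Finset.card_le_card (outN_mono R4R i w)
      omega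

theorem cover_card_le {α : Type} [DecidableEq α] [Fintype α] (V : ZMod 3 → Finset α)
    (L : Finset (Arc α)) (n d : ℕ) (hV : ∀ i, (V i).card = n) (hL : Inside V L)
    (hd : ∀ i x, (outN L i x).card ≤ d) : L.card ≤ 3 * n * d := by
  have h1 : L ⊆ (univ : Finset (ZMod 3)).biUnion (fun i => (V i).biUnion (fun x =>
      (outN L i x).image (fun y => ((i, x, y) : Arc α)))) := by
    rintro ⟨i, x, y⟩ he
    rw [Finset.mem_biUnion]
    refine ⟨i, Finset.mem_univ _, ?_⟩
    rw [Finset.mem_biUnion]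
    refine ⟨x, (hL _ he).1, ?_⟩
    rw [Finset.mem_image]
    exact ⟨y, mem_outN.2 he, rfl⟩
  refine (Finset.card_le_card h1).trans ?_
  refine Finset.card_biUnion_le.trans ?_
  have h2 : ∀ i ∈ (univ : Finset (ZMod 3)), ((V i).biUnion (fun x =>
      (outN L i x).image (fun y => ((i, x, y) : Arc α)))).card ≤ n * d := by
    intro i _
    refine Finset.card_biUnion_le.trans ?_
    rw [← hV i, ← smul_eq_mul]
    refine Finset.sum_le_card_nsmul _ _ _ fun x _ => ?_
    exact Finset.card_image_le.trans (hd i x)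
  refine (Finset.sum_le_card_nsmul _ _ _ h2).trans ?_
  rw [Finset.card_univ, ZMod.card, smul_eq_mul, mul_assoc]

/-- numerical facts -/
theorem cover_num {ε : ℝ} {K m n n' : ℕ} (hε : 0 < ε) (hε5 : ε ≤ 1 / 5)
    (hK : 100 / ε ≤ (K : ℝ)) (hm : 1000 * (K : ℝ) / ε ≤ m) (hn : n ≤ 2 * K * n')
    (hn' : 200 * m ≤ n') (d Λ : ℕ) (hd : d = ⌊2 * (1 / (10 ^ 6 * (K : ℝ) ^ 2 * (m : ℝ) ^ 2)) * n⌋₊)
    (hΛ : Λ = ⌊(n' : ℝ) / m / 100⌋₊) :
    0 < Λ ∧ 2 * (d : ℝ) < n' / (2 * (m : ℝ) ^ 2) ∧
    3 * d + Λ + (3 * n * d) / Λ < ⌈29 / 50 * ((n' : ℝ) / m)⌉₊ ∧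
    ⌊101 / 100 * ((n' : ℝ) / m)⌋₊ + 2 * ⌊2 * (n : ℝ) / (m : ℝ) ^ 2⌋₊ + (6 * d + 2 * Λ) ≤
      2 * ⌈29 / 50 * ((n' : ℝ) / m)⌉₊ ∧
    (d : ℝ) + Λ + 2 * n / m ≤ ε / 2 * n' := by
  have hK500 : (500 : ℝ) ≤ K := by
    have : (500 : ℝ) ≤ 100 / ε := by rw [le_div_iff₀ hε]; linarith
    linarith
  have hKpos : (0 : ℝ) < K := by linarith
  have hmK : 5000 * (K : ℝ) ≤ m := by
    have : 5000 * (K : ℝ) ≤ 1000 * (K : ℝ) / ε := by
      rw [le_div_iff₀ hε]; nlinarith
    linarith
  have hmε : 1000 * (K : ℝ) ≤ ε * m := by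
    rw [div_le_iff₀ hε] at hm; linarith
  have hmpos : (0 : ℝ) < m := by linarith
  have hm1 : (1 : ℝ) ≤ m := by linarith
  have hnR : (n : ℝ) ≤ 2 * K * n' := by exact_mod_cast hn
  have hn'R : 200 * (m : ℝ) ≤ n' := by exact_mod_cast hn'
  have hn'pos : (0 : ℝ) < n' := by linarith
  set x : ℝ := (n' : ℝ) / m with hx
  have hxm : x * m = n' := by rw [hx]; field_simp
  have hx200 : 200 ≤ x := by rw [hx, le_div_iff₀ hmpos]; linarith
  have hxpos : 0 < x := by linarith
  -- bound for d
  set δ : ℝ := 4 * x / (10 ^ 6 * K * m) with hδ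
  have hdδ : (d : ℝ) ≤ δ := by
    have h1 : (d : ℝ) ≤ 2 * (1 / (10 ^ 6 * (K : ℝ) ^ 2 * (m : ℝ) ^ 2)) * n := by
      rw [hd]; exact Nat.floor_le (by positivity)
    refine h1.trans ?_
    calc 2 * (1 / (10 ^ 6 * (K : ℝ) ^ 2 * (m : ℝ) ^ 2)) * n
        ≤ 2 * (1 / (10 ^ 6 * (K : ℝ) ^ 2 * (m : ℝ) ^ 2)) * (2 * K * n') := by gcongr
      _ = δ := by rw [hδ, ← hxm]; field_simp; ring
  have hδ1 : δ ≤ x / 10 ^ 6 := by
    rw [hδ, div_le_div_iff₀ (by positivity) (by positivity)]
    have : (4 : ℝ) ≤ K * m := by nlinarith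
    nlinarith
  have hδ2 : 2 * δ < x / (2 * m) := by
    rw [hδ, ← mul_div_assoc, div_lt_div_iff₀ (by positivity) (by positivity)]
    have : 0 < x * m := by positivity
    nlinarith
  have hd0 : (0 : ℝ) ≤ d := Nat.cast_nonneg _
  -- bounds for Λ
  have hΛ1 : (Λ : ℝ) ≤ x / 100 := by rw [hΛ]; exact Nat.floor_le (by positivity)
  have hΛ2 : x / 200 ≤ Λ := by
    have h1 : x / 100 < (Λ : ℝ) + 1 := by rw [hΛ]; exact Nat.lt_floor_add_one _
    linarith
  have hΛpos : (0 : ℝ) < Λ := by linarith [div_pos hxpos (show (0 : ℝ) < 200 by norm_num)]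
  -- bound for the quotient
  have hquo : (((3 * n * d) / Λ : ℕ) : ℝ) ≤ 48 / 10 ^ 4 * x := by
    refine Nat.cast_div_le.trans ?_
    rw [div_le_iff₀ hΛpos]
    push_cast
    have h1 : 3 * (n : ℝ) * d ≤ 3 * (2 * K * n') * δ := by gcongr
    have h2 : 3 * (2 * K * n') * δ = 24 / 10 ^ 6 * x ^ 2 := by
      rw [hδ, ← hxm]; field_simp; ring
    have h3 : 48 / 10 ^ 4 * x * (x / 200) ≤ 48 / 10 ^ 4 * x * (Λ : ℝ) := by gcongr
    nlinarith
  have hceil : 29 / 50 * x ≤ (⌈29 / 50 * x⌉₊ : ℝ) := Nat.le_ceil _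
  refine ⟨by exact_mod_cast hΛpos, ?_, ?_, ?_, ?_⟩
  · have : (n' : ℝ) / (2 * (m : ℝ) ^ 2) = x / (2 * m) := by rw [hx]; field_simp
    rw [this]; linarith
  · have h1 : ((3 * d + Λ + (3 * n * d) / Λ : ℕ) : ℝ) < (⌈29 / 50 * x⌉₊ : ℝ) := by
      push_cast
      linarith
    exact_mod_cast h1
  · have h1 : (⌊101 / 100 * x⌋₊ : ℝ) ≤ 101 / 100 * x := Nat.floor_le (by positivity)
    have h2 : (⌊2 * (n : ℝ) / (m : ℝ) ^ 2⌋₊ : ℝ) ≤ 2 * (n : ℝ) / (m : ℝ) ^ 2 :=
      Nat.floor_le (by positivity)
    have h3 : 2 * (n : ℝ) / (m : ℝ) ^ 2 ≤ 4 / 5000 * x := by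
      rw [div_le_iff₀ (by positivity)]
      have : 2 * (n : ℝ) ≤ 4 * K * (x * m) := by rw [hxm]; linarith
      have h4 : 4 * (K : ℝ) * (x * m) ≤ 4 / 5000 * m * (x * m) := by
        have : 0 ≤ x * m := by positivity
        nlinarith
      nlinarith
    have h4 : ((⌊101 / 100 * x⌋₊ + 2 * ⌊2 * (n : ℝ) / (m : ℝ) ^ 2⌋₊ + (6 * d + 2 * Λ) : ℕ) : ℝ) ≤
        ((2 * ⌈29 / 50 * x⌉₊ : ℕ) : ℝ) := by
      push_cast
      linarith
    exact_mod_cast h4
  · have h1 : 2 * (n : ℝ) / m ≤ 4 / 1000 * ε * n' := by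
      rw [div_le_iff₀ hmpos]
      have : 2 * (n : ℝ) ≤ 4 * K * n' := by linarith
      nlinarith
    have h2 : x ≤ ε * n' / 100 := by
      rw [hx, div_le_iff₀ hmpos]
      have : (100 : ℝ) ≤ ε * m := by nlinarith
      nlinarith
    have h3 : 0 < ε * n' := by positivity
    linarith

theorem cover (h1 : BalanceStmt) (h2 : NibStmt) (h3 : CoverOutStmt) (h4 : CoverMixedStmt)
    (h5 : CoverMatchStmt) : CoverStmt := by
  intro ε hε hε5
  obtain ⟨K₀, hK₀⟩ := exists_nat_ge (100 / ε)
  refine ⟨K₀, fun K hK => ?_⟩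
  obtain ⟨m₀, hm₀⟩ := exists_nat_ge (1000 * (K : ℝ) / ε)
  refine ⟨m₀, fun m hm => ?_⟩
  have hKR : 100 / ε ≤ (K : ℝ) := hK₀.trans (by exact_mod_cast hK)
  have hmR : 1000 * (K : ℝ) / ε ≤ m := hm₀.trans (by exact_mod_cast hm)
  have hK500 : (500 : ℝ) ≤ K := by
    have : (500 : ℝ) ≤ 100 / ε := by rw [le_div_iff₀ hε]; linarith
    linarith
  have hKpos : (0 : ℝ) < K := by linarith
  have hKε : 100 ≤ ε * K := by rw [div_le_iff₀ hε] at hKR; linarith
  have hmε : 1000 * (K : ℝ) ≤ ε * m := by rw [div_le_iff₀ hε] at hmR; linarith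
  have hmK : 5000 * (K : ℝ) ≤ m := by nlinarith
  have hmpos : (0 : ℝ) < m := by linarith
  set γ : ℝ := 1 / (10 ^ 6 * (K : ℝ) ^ 2 * (m : ℝ) ^ 2) with hγdef
  have hγ : 0 < γ := by positivity
  have hγε : γ ≤ ε / 4 := by
    rw [hγdef, div_le_div_iff₀ (by positivity) (by norm_num)]
    have h1 : (1 : ℝ) ≤ m := by linarith
    have h2 : (1 : ℝ) ≤ (m : ℝ) ^ 2 := by nlinarith
    have h3 : (1 : ℝ) ≤ K := by linarith
    have h4 : 1 ≤ ε * (K : ℝ) ^ 2 := by nlinarith
    have h5 : 1 ≤ ε * (K : ℝ) ^ 2 * (m : ℝ) ^ 2 := by nlinarith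
    nlinarith
  obtain ⟨ξ, hξ, hbal⟩ := h1 γ hγ
  obtain ⟨n₁, hnib⟩ := h2 γ hγ
  refine ⟨ξ, hξ, n₁ + 2 * K * (200 * m) + 1, ?_⟩
  intro α _ _ n n' V U P Q G Z G' hn lev hG'G hbG' hIR hdeg'
  have hn' : 200 * m ≤ n' := by
    by_contra hcon
    push Not at hcon
    have h1 : n ≤ 2 * K * n' := lev.ge
    have h2 : 2 * K * n' ≤ 2 * K * (200 * m) := Nat.mul_le_mul_left _ hcon.le
    omega
  have hnpos : (0 : ℝ) < n := by
    have : 0 < n := by omega
    exact_mod_cast this
  set d : ℕ := ⌊2 * γ * n⌋₊ with hd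
  set Λ : ℕ := ⌊(n' : ℝ) / m / 100⌋₊ with hΛ
  obtain ⟨N1, N2, N3, N4, N5⟩ := cover_num hε hε5 hKR hmR lev.ge hn' d Λ hd hΛ
  set R := resv U P Q G with hR
  set I := restr U G with hI
  set G₁ := G' \ (I ∪ R) with hG₁
  have G1G' : G₁ ⊆ G' := Finset.sdiff_subset
  have G1G : G₁ ⊆ G := G1G'.trans hG'G
  have dG1 : Disjoint G₁ (I ∪ R) := Finset.sdiff_disjoint
  have hKn' : (K : ℝ) * n' ≤ n := by exact_mod_cast lev.le
  have hn'n : (n' : ℝ) ≤ ε / 100 * n := by
    have : (n' : ℝ) * 100 ≤ ε * (K * n') := by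
      have : (0 : ℝ) ≤ n' := Nat.cast_nonneg _
      nlinarith
    nlinarith
  have h2nm : 2 * (n : ℝ) / m ≤ ε / 500 * n := by
    rw [div_le_iff₀ hmpos]
    nlinarith
  have hn'm : 101 / 100 * ((n' : ℝ) / m) ≤ 2 * n / m := by
    rw [← mul_div_assoc]
    refine div_le_div_of_nonneg_right ?_ hmpos.le
    have h1 : ε / 100 * (n : ℝ) ≤ n := by nlinarith
    nlinarith
  -- degrees in `I ∪ R`
  have outI : ∀ i x, ((outN I i x).card : ℝ) ≤ n' := by
    intro i x
    rw [← lev.cardU (i + 1)]
    exact_mod_cast Finset.card_le_card fun y hy =>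
      (cover_inside_restr U G _ (mem_outN.1 hy)).2
  have inI : ∀ i x, ((inN I i x).card : ℝ) ≤ n' := by
    intro i x
    rw [← lev.cardU (i + 2)]
    exact_mod_cast Finset.card_le_card fun y hy =>
      (cover_inside_restr U G _ (mem_inN.1 hy)).1
  have degR : ∀ i, ∀ x ∈ V i, ((outN R i x).card : ℝ) ≤ 2 * n / m ∧
      ((inN R i x).card : ℝ) ≤ 2 * n / m := by
    intro i x hx
    by_cases hxU : x ∈ U i
    · exact lev.load i x hxU
    · have := lev.outside i x hx hxU
      exact ⟨this.1.trans hn'm, this.2.trans hn'm⟩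
  have outIR : ∀ i, ∀ x ∈ V i, ((outN (I ∪ R) i x).card : ℝ) ≤ ε / 50 * n := by
    intro i x hx
    rw [outN_union]
    have h1 : ((outN I i x ∪ outN R i x).card : ℝ) ≤ (outN I i x).card + (outN R i x).card := by
      exact_mod_cast Finset.card_union_le _ _
    have h2 := outI i x
    have h3 := (degR i x hx).1
    nlinarith
  have inIR : ∀ i, ∀ x ∈ V i, ((inN (I ∪ R) i x).card : ℝ) ≤ ε / 50 * n := by
    intro i x hx
    rw [inN_union]
    have h1 : ((inN I i x ∪ inN R i x).card : ℝ) ≤ (inN I i x).card + (inN R i x).card := by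
      exact_mod_cast Finset.card_union_le _ _
    have h2 := inI i x
    have h3 := (degR i x hx).2
    nlinarith
  -- degrees in `G₁`
  have outG1 : ∀ i, ∀ x ∈ V i, (4 / 5 + ε / 4) * (n : ℝ) ≤ (outN G₁ i x).card := by
    intro i x hx
    have e1 : ((outN G₁ i x).card : ℝ) + (outN (I ∪ R) i x).card = (outN G' i x).card := by
      exact_mod_cast out_card_sdiff hIR i x
    have e2 : ((outN (G \ G') i x).card : ℝ) + (outN G' i x).card = (outN G i x).card := by
      exact_mod_cast out_card_sdiff hG'G i x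
    have e3 := (hdeg' i x).1
    have e4 := (lev.deg i x hx).1
    have e5 := outIR i x hx
    nlinarith
  have inG1 : ∀ i, ∀ x ∈ V i, (4 / 5 + ε / 4) * (n : ℝ) ≤ (inN G₁ i x).card := by
    intro i x hx
    have e1 : ((inN G₁ i x).card : ℝ) + (inN (I ∪ R) i x).card = (inN G' i x).card := by
      exact_mod_cast in_card_sdiff hIR i x
    have e2 : ((inN (G \ G') i x).card : ℝ) + (inN G' i x).card = (inN G i x).card := by
      exact_mod_cast in_card_sdiff hG'G i x
    have e3 := (hdeg' i x).2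
    have e4 := (lev.deg i x hx).2
    have e5 := inIR i x hx
    nlinarith
  -- balancing
  obtain ⟨D, DG1, Ddeg, balG2⟩ := hbal α V n G₁ lev.cardV (cover_inside_mono lev.inside G1G)
    (by
      intro i x
      have e1 : ((outN G₁ i x).card : ℝ) + (outN (I ∪ R) i x).card = (outN G' i x).card := by
        exact_mod_cast out_card_sdiff hIR i x
      have e2 : ((inN G₁ i x).card : ℝ) + (inN (I ∪ R) i x).card = (inN G' i x).card := by
        exact_mod_cast in_card_sdiff hIR i x
      have e3 : ((outN G' i x).card : ℝ) = (inN G' i x).card := by exact_mod_cast hbG' i x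
      have e4 : ((outN G₁ i x).card : ℝ) - (inN G₁ i x).card =
          -(((outN (I ∪ R) i x).card : ℝ) - (inN (I ∪ R) i x).card) := by linarith
      rw [e4, abs_neg]
      exact lev.near i x)
    (fun i x hx => ⟨by have := outG1 i x hx; nlinarith, by have := inG1 i x hx; nlinarith⟩)
  have G2G : G₁ \ D ⊆ G := Finset.sdiff_subset.trans G1G
  obtain ⟨H₁, H1G2, dec1, H1deg⟩ := hnib α V n (G₁ \ D) (by omega) lev.cardV
    (cover_inside_mono lev.inside G2G) balG2
    (by
      intro i x hx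
      have e1 : ((outN (G₁ \ D) i x).card : ℝ) + (outN D i x).card = (outN G₁ i x).card := by
        exact_mod_cast out_card_sdiff DG1 i x
      have e2 := (Ddeg i x).1
      have e3 := outG1 i x hx
      nlinarith)
  have H1G1 : H₁ ⊆ G₁ := H1G2.trans Finset.sdiff_subset
  have dH1 : Disjoint H₁ (I ∪ R) := Finset.disjoint_of_subset_left H1G1 dG1
  set L := G₁ \ H₁ with hL
  have LG1 : L ⊆ G₁ := Finset.sdiff_subset
  have Ldeg : DegLe L (2 * γ * n) := by
    refine (H1deg.union Ddeg).mono ?_ (by linarith)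
    intro e he
    rw [hL, Finset.mem_sdiff] at he
    rw [Finset.mem_union, Finset.mem_sdiff, Finset.mem_sdiff]
    tauto
  have Ld : ∀ i x, (outN L i x).card ≤ d ∧ (inN L i x).card ≤ d :=
    fun i x => ⟨Nat.le_floor (Ldeg i x).1, Nat.le_floor (Ldeg i x).2⟩
  have LIR : L ∪ (I ∪ R) = G' \ H₁ := by
    ext e
    rw [hL, hG₁, Finset.mem_union, Finset.mem_sdiff, Finset.mem_sdiff, Finset.mem_sdiff]
    constructor
    · rintro (h | h)
      · exact ⟨h.1.1, h.2⟩
      · exact ⟨hIR h, fun h6 => (Finset.disjoint_left.1 dH1) h6 h⟩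
    · rintro ⟨h6, h7⟩
      by_cases h : e ∈ I ∪ R
      · exact Or.inr h
      · exact Or.inl ⟨⟨h6, h⟩, h7⟩
  have hceil : ∀ k : ℕ, 29 / 50 * ((n' : ℝ) / m) ≤ k → ⌈29 / 50 * ((n' : ℝ) / m)⌉₊ - d + d ≤ k := by
    intro k hk
    have : ⌈29 / 50 * ((n' : ℝ) / m)⌉₊ ≤ k := Nat.ceil_le.2 hk
    omega
  obtain ⟨H', H'sub, dec', H'cov, H'Z, H'deg⟩ := cover_stageB h3 h4 h5 V U P Q G Z L d Λ (3 * n * d)
    (⌈29 / 50 * ((n' : ℝ) / m)⌉₊ - d) ⌊2 * (n : ℝ) / (m : ℝ) ^ 2⌋₊ ⌊101 / 100 * ((n' : ℝ) / m)⌋₊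
    lev.inside lev.prot (LG1.trans G1G) (Finset.disjoint_of_subset_left LG1 dG1)
    (by rw [LIR]; exact hbG'.sdiff dec1.bal (H1G1.trans G1G'))
    Ld (cover_card_le V L n d lev.cardV (cover_inside_mono lev.inside (LG1.trans G1G))
      (fun i x => (Ld i x).1)) N1
    (by
      intro i x hx hxU y hy hyU
      have e1 := lev.common i x hx hxU y hy hyU
      have e2 := N2.trans_le e1
      exact_mod_cast e2)
    (fun i x hx hxU u hu => hceil _ (lev.linkOut i x hx hxU u hu))
    (fun i x hx hxU v hv => hceil _ (lev.linkIn i x hx hxU v hv))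
    (by omega)
    (fun i x hx hxU => ⟨Nat.le_floor (lev.outside i x hx hxU).1,
      Nat.le_floor (lev.outside i x hx hxU).2⟩)
    (fun i a b => Nat.le_floor (lev.colour i a b))
    (by omega)
  rw [LIR] at H'sub
  have d1' : Disjoint H₁ H' := by
    rw [Finset.disjoint_left]
    intro e he he'
    have := H'sub he'
    rw [Finset.mem_sdiff] at this
    exact this.2 he
  refine ⟨H₁ ∪ H', ?_, dec1.union dec' d1', ?_, ?_, ?_⟩
  · exact Finset.union_subset (H1G1.trans G1G') (H'sub.trans Finset.sdiff_subset)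
  · intro e he
    rw [Finset.mem_sdiff, Finset.mem_union] at he
    have h6 : e ∈ L ∪ (I ∪ R) := by
      rw [LIR, Finset.mem_sdiff]; tauto
    rw [Finset.mem_union, Finset.mem_union] at h6
    rcases h6 with h | h | h
    · exact absurd (Or.inr (H'cov (Finset.mem_union_left _ h))) he.2
    · exact h
    · exact absurd (Or.inr (H'cov (Finset.mem_union_right _ h))) he.2
  · rw [Finset.disjoint_union_left]
    refine ⟨?_, H'Z⟩
    refine Finset.disjoint_of_subset_right lev.prot ?_
    exact Finset.disjoint_of_subset_right Finset.subset_union_left dH1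
  · have key : (H₁ ∪ H') ∩ I ⊆ H' ∩ I := by
      intro e he
      rw [Finset.mem_inter, Finset.mem_union] at he
      rw [Finset.mem_inter]
      refine ⟨?_, he.2⟩
      rcases he.1 with h | h
      · exact absurd (Finset.mem_union_left _ he.2) ((Finset.disjoint_left.1 dH1) h)
      · exact h
    have hpos : 0 ≤ ε / 2 * (n' : ℝ) := by positivity
    intro i w
    by_cases hw : w ∈ U i
    · have l1 := lev.load i w hw
      have l2 := H'deg i w
      have c1 : (((outN ((H₁ ∪ H') ∩ I) i w).card : ℕ) : ℝ) ≤ (outN (H' ∩ I) i w).card := by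
        exact_mod_cast Finset.card_le_card (outN_mono key i w)
      have c2 : (((inN ((H₁ ∪ H') ∩ I) i w).card : ℕ) : ℝ) ≤ (inN (H' ∩ I) i w).card := by
        exact_mod_cast Finset.card_le_card (inN_mono key i w)
      have c3 : (((outN (H' ∩ I) i w).card : ℕ) : ℝ) ≤ d + Λ + (inN R i w).card := by
        exact_mod_cast l2.1
      have c4 : (((inN (H' ∩ I) i w).card : ℕ) : ℝ) ≤ d + Λ + (outN R i w).card := by
        exact_mod_cast l2.2
      exact ⟨by linarith [l1.2], by linarith [l1.1]⟩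
    · obtain ⟨z1, z2, z3', z4⟩ := z3 i
      have o1 : outN ((H₁ ∪ H') ∩ I) i w = ∅ := by
        rw [Finset.eq_empty_iff_forall_notMem]
        intro y hy
        rw [mem_outN, Finset.mem_inter] at hy
        exact hw (cover_inside_restr U G _ hy.2).1
      have o2 : inN ((H₁ ∪ H') ∩ I) i w = ∅ := by
        rw [Finset.eq_empty_iff_forall_notMem]
        intro y hy
        rw [mem_inN, Finset.mem_inter] at hy
        have := (cover_inside_restr U G _ hy.2).2
        simp only [z3'] at this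
        exact hw this
      rw [o1, o2]
      simpa using hpos

end Pool.Agent.Lib.MP_cb9986_co.S9
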