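import Pool.Agent.Lib.MP_cb9986_co.S9.Spec

/-!
Swarm S9: covering the rest by disjoint perfect matchings (Hall's theorem).
-/

set_option autoImplicit false
open Finset

namespace Pool.Agent.Lib.MP_cb9986_co.S9

/-- Hall's theorem with minimum degree at least half the size. -/
theorem CoverMatch_hall {α : Type} [DecidableEq α] (A B : Finset α) (t : α → α → Prop)
    [∀ u v, Decidable (t u v)] (hAB : A.card = B.card)
    (h1 : ∀ u ∈ A, A.card ≤ 2 * (B.filter fun v => t u v).card)
    (h2 : ∀ v ∈ B, B.card ≤ 2 * (A.filter fun u => t u v).card) :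
    ∃ M : α → α, (∀ u ∈ A, M u ∈ B ∧ t u (M u)) ∧ Set.InjOn M A := by
  have hall : ∀ s : Finset {u // u ∈ A},
      s.card ≤ (s.biUnion fun u => B.filter fun v => t u.1 v).card := by
    intro s
    rcases s.eq_empty_or_nonempty with rfl | ⟨u, hu⟩
    · simp
    by_cases hs : 2 * s.card ≤ A.card
    · have h3 : (B.filter fun v => t u.1 v).card ≤
          (s.biUnion fun u => B.filter fun v => t u.1 v).card :=
        Finset.card_le_card (Finset.subset_biUnion_of_mem
          (fun u : {u // u ∈ A} => B.filter fun v => t u.1 v) hu)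
      have h4 := h1 u.1 u.2
      omega
    · have hsub : B ⊆ s.biUnion fun u => B.filter fun v => t u.1 v := by
        intro v hv
        have h5 := h2 v hv
        have hs' : (s.image Subtype.val).card = s.card :=
          Finset.card_image_of_injective _ Subtype.val_injective
        have hsA : s.image Subtype.val ⊆ A := by
          intro x hx
          rw [Finset.mem_image] at hx
          obtain ⟨y, _, rfl⟩ := hx
          exact y.2
        have hne : ((s.image Subtype.val) ∩ (A.filter fun u => t u v)).Nonempty := by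
          rw [← Finset.card_pos]
          have h6 := Finset.card_union_add_card_inter (s.image Subtype.val)
            (A.filter fun u => t u v)
          have h7 : ((s.image Subtype.val) ∪ (A.filter fun u => t u v)).card ≤ A.card :=
            Finset.card_le_card (Finset.union_subset hsA (Finset.filter_subset _ _))
          omega
        obtain ⟨x, hx⟩ := hne
        rw [Finset.mem_inter, Finset.mem_image, Finset.mem_filter] at hx
        obtain ⟨⟨y, hy, rfl⟩, _, ht⟩ := hx
        rw [Finset.mem_biUnion]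
        exact ⟨y, hy, Finset.mem_filter.2 ⟨hv, ht⟩⟩
      have h8 := Finset.card_le_card hsub
      have h9 : s.card ≤ A.card := by
        have : s.card ≤ (Finset.univ : Finset {u // u ∈ A}).card := Finset.card_le_univ s
        simpa using this
      omega
  obtain ⟨f, hf, hft⟩ := (Finset.all_card_le_biUnion_card_iff_exists_injective
    (fun u : {u // u ∈ A} => B.filter fun v => t u.1 v)).1 hall
  refine ⟨fun u => if h : u ∈ A then f ⟨u, h⟩ else u, ?_, ?_⟩
  · intro u hu
    simp only [hu, dif_pos]
    exact Finset.mem_filter.1 (hft ⟨u, hu⟩)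
  · intro u hu u' hu' h
    have hu1 : u ∈ A := hu
    have hu2 : u' ∈ A := hu'
    simp only [hu1, hu2, dif_pos] at h
    exact congrArg Subtype.val (hf h)

/-- Matchings for one class, one vertex after the other. -/
theorem CoverMatch_class {α : Type} [DecidableEq α] [Fintype α] (U : ZMod 3 → Finset α)
    (R F : Finset (Arc α)) (col : ZMod 3 → α → ℕ) (q : ℕ)
    (hbal : ∀ i, ∀ x ∉ U i, (outN R i x).card = (inN R i x).card)
    (hcol : ∀ i x x' u v, x ∉ U i → x' ∉ U i → (i, x, u) ∈ R → (i, x', u) ∈ R →
      (i + 2, v, x) ∈ R → (i + 2, v, x') ∈ R → col i x = col i x')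
    (hq : ∀ i c, (univ.filter fun x => x ∉ U i ∧ col i x = c ∧ (outN R i x).Nonempty).card ≤ q)
    (hd1 : ∀ i, ∀ x ∉ U i, ∀ u ∈ outN R i x, (outN R i x).card + 2 * q ≤
      2 * ((inN R i x).filter fun v => (i + 1, u, v) ∈ F).card)
    (hd2 : ∀ i, ∀ x ∉ U i, ∀ v ∈ inN R i x, (inN R i x).card + 2 * q ≤
      2 * ((outN R i x).filter fun u => (i + 1, u, v) ∈ F).card)
    (i : ZMod 3) (S : Finset α) (hS : ∀ x ∈ S, x ∉ U i) :
    ∃ M : α → α → α, (∀ x ∈ S, ∀ u ∈ outN R i x, M x u ∈ inN R i x ∧ (i + 1, u, M x u) ∈ F) ∧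
      (∀ x ∈ S, Set.InjOn (M x) (outN R i x)) ∧
      ∀ x ∈ S, ∀ x' ∈ S, x ≠ x' → ∀ u ∈ outN R i x, u ∈ outN R i x' → M x u ≠ M x' u := by
  induction S using Finset.induction_on with
  | empty => exact ⟨fun _ u => u, by simp, by simp, by simp⟩
  | insert x S hxS ih =>
    obtain ⟨M, hM1, hM2, hM3⟩ := ih (fun y hy => hS y (Finset.mem_insert_of_mem hy))
    have hx : x ∉ U i := hS x (Finset.mem_insert_self _ _)
    classical
    -- vertices which may interfere
    set X : Finset α := S.filter fun x' => col i x' = col i x ∧ (outN R i x').Nonempty with hX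
    have hXq : X.card ≤ q := by
      refine le_trans (Finset.card_le_card ?_) (hq i (col i x))
      intro x' hx'
      rw [hX, Finset.mem_filter] at hx'
      rw [Finset.mem_filter]
      exact ⟨Finset.mem_univ _, hS x' (Finset.mem_insert_of_mem hx'.1), hx'.2.1, hx'.2.2⟩
    let t : α → α → Prop := fun u v => (i + 1, u, v) ∈ F ∧
      ∀ x' ∈ S, u ∈ outN R i x' → M x' u ≠ v
    have key : ∀ u ∈ outN R i x, ∀ v ∈ inN R i x, ∀ x' ∈ S, u ∈ outN R i x' → M x' u = v →
        x' ∈ X := by
      intro u hu v hv x' hx' hu' hMv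
      rw [hX, Finset.mem_filter]
      refine ⟨hx', ?_, ⟨u, hu'⟩⟩
      have h1 := (hM1 x' hx' u hu').1
      rw [hMv] at h1
      exact hcol i x' x u v (hS x' (Finset.mem_insert_of_mem hx')) hx (mem_outN.1 hu')
        (mem_outN.1 hu) (mem_inN.1 h1) (mem_inN.1 hv)
    have h1 : ∀ u ∈ outN R i x, (outN R i x).card ≤ 2 * ((inN R i x).filter fun v => t u v).card := by
      intro u hu
      have h2 := hd1 i x hx u hu
      have h3 : (inN R i x).filter (fun v => (i + 1, u, v) ∈ F) ⊆
          (inN R i x).filter (fun v => t u v) ∪ X.image (fun x' => M x' u) := by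
        intro v hv
        rw [Finset.mem_filter] at hv
        rw [Finset.mem_union, Finset.mem_filter, Finset.mem_image]
        by_cases h4 : ∀ x' ∈ S, u ∈ outN R i x' → M x' u ≠ v
        · exact Or.inl ⟨hv.1, hv.2, h4⟩
        · push Not at h4
          obtain ⟨x', hx', hu', hMv⟩ := h4
          exact Or.inr ⟨x', key u hu v hv.1 x' hx' hu' hMv, hMv⟩
      have h5 := (Finset.card_le_card h3).trans (Finset.card_union_le _ _)
      have h6 : (X.image (fun x' => M x' u)).card ≤ X.card := Finset.card_image_le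
      omega
    have h2 : ∀ v ∈ inN R i x, (inN R i x).card ≤ 2 * ((outN R i x).filter fun u => t u v).card := by
      intro v hv
      have h2 := hd2 i x hx v hv
      -- the forbidden vertices, each is determined by an element of `X`
      set Y : Finset α := (outN R i x).filter
        (fun u => ∃ x' ∈ S, u ∈ outN R i x' ∧ M x' u = v) with hY
      have hYc : Y.card ≤ X.card := by
        have hch : ∀ u ∈ Y, ∃ x' ∈ S, u ∈ outN R i x' ∧ M x' u = v := by
          intro u hu
          rw [hY, Finset.mem_filter] at hu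
          exact hu.2
        choose! g hg1 hg2 hg3 using hch
        refine Finset.card_le_card_of_injOn g ?_ ?_
        · intro u hu
          have hu1 : u ∈ Y := hu
          have hu2 : u ∈ outN R i x := (Finset.mem_filter.1 (hY ▸ hu1)).1
          exact key u hu2 v hv (g u) (hg1 u hu1) (hg2 u hu1) (hg3 u hu1)
        · intro u hu u' hu' h
          have hu1 : u ∈ Y := hu
          have hu1' : u' ∈ Y := hu'
          have e1 := hg3 u hu1
          have e2 := hg3 u' hu1'
          have m1 := hg2 u hu1
          have m2 := hg2 u' hu1'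
          rw [← h] at e2 m2
          exact hM2 (g u) (hg1 u hu1) m1 m2 (e1.trans e2.symm)
      have h3 : (outN R i x).filter (fun u => (i + 1, u, v) ∈ F) ⊆
          (outN R i x).filter (fun u => t u v) ∪ Y := by
        intro u hu
        rw [Finset.mem_filter] at hu
        rw [Finset.mem_union, Finset.mem_filter, hY, Finset.mem_filter]
        by_cases h4 : ∀ x' ∈ S, u ∈ outN R i x' → M x' u ≠ v
        · exact Or.inl ⟨hu.1, hu.2, h4⟩
        · push Not at h4
          exact Or.inr ⟨hu.1, h4⟩
      have h5 := (Finset.card_le_card h3).trans (Finset.card_union_le _ _)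
      omega
    obtain ⟨m, hm1, hm2⟩ := CoverMatch_hall (outN R i x) (inN R i x) t (hbal i x hx) h1 h2
    refine ⟨fun y => if y = x then m else M y, ?_, ?_, ?_⟩
    · intro y hy u hu
      rcases Finset.mem_insert.1 hy with rfl | hy
      · simp only [if_true]
        exact ⟨(hm1 u hu).1, (hm1 u hu).2.1⟩
      · have hne : y ≠ x := fun h => hxS (h ▸ hy)
        simp only [hne, if_false]
        exact hM1 y hy u hu
    · intro y hy
      rcases Finset.mem_insert.1 hy with rfl | hy
      · simp only [if_true]
        exact hm2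
      · have hne : y ≠ x := fun h => hxS (h ▸ hy)
        simp only [hne, if_false]
        exact hM2 y hy
    · intro y hy y' hy' hyy u hu hu'
      rcases Finset.mem_insert.1 hy with k1 | k1
      · subst k1
        rcases Finset.mem_insert.1 hy' with k2 | k2
        · exact absurd k2.symm hyy
        · have hne : y' ≠ y := fun h => hyy h.symm
          simp only [if_true, hne, if_false]
          exact ((hm1 u hu).2.2 y' k2 hu').symm
      · have hne : y ≠ x := fun h => hxS (h ▸ k1)
        rcases Finset.mem_insert.1 hy' with k2 | k2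
        · subst k2
          simp only [if_true, hne, if_false]
          exact (hm1 u hu').2.2 y k1 hu
        · have hne' : y' ≠ x := fun h => hxS (h ▸ k2)
          simp only [hne, hne', if_false]
          exact hM3 y k1 y' k2 hyy u hu hu'

theorem coverMatch : CoverMatchStmt := by
  intro α _ _ U R F col q hR hF hbal hcol hq hd1 hd2
  classical
  have hex := fun i => CoverMatch_class U R F col q hbal hcol hq hd1 hd2 i
    (univ.filter fun x => x ∉ U i) (fun x hx => (Finset.mem_filter.1 hx).2)
  choose M hM1 hM2 hM3 using hex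
  have hM1' : ∀ i x, x ∉ U i → ∀ u, (i, x, u) ∈ R →
      (i + 2, M i x u, x) ∈ R ∧ (i + 1, u, M i x u) ∈ F := by
    intro i x hx u hu
    have h := hM1 i x (Finset.mem_filter.2 ⟨Finset.mem_univ _, hx⟩) u (mem_outN.2 hu)
    exact ⟨mem_inN.1 h.1, h.2⟩
  have hM2' : ∀ i x, x ∉ U i → ∀ u u', (i, x, u) ∈ R → (i, x, u') ∈ R → M i x u = M i x u' →
      u = u' := by
    intro i x hx u u' hu hu' h
    exact hM2 i x (Finset.mem_filter.2 ⟨Finset.mem_univ _, hx⟩) (mem_outN.2 hu) (mem_outN.2 hu') h
  have hM3' : ∀ i x x', x ∉ U i → x' ∉ U i → ∀ u, (i, x, u) ∈ R → (i, x', u) ∈ R →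
      M i x u = M i x' u → x = x' := by
    intro i x x' hx hx' u hu hu' h
    by_contra hne
    exact hM3 i x (Finset.mem_filter.2 ⟨Finset.mem_univ _, hx⟩) x'
      (Finset.mem_filter.2 ⟨Finset.mem_univ _, hx'⟩) hne u (mem_outN.2 hu) (mem_outN.2 hu') h
  -- surjectivity
  have hsurj : ∀ i x, x ∉ U i → ∀ v, (i + 2, v, x) ∈ R → ∃ u, (i, x, u) ∈ R ∧ M i x u = v := by
    intro i x hx v hv
    have hx' : x ∈ univ.filter (fun x => x ∉ U i) := Finset.mem_filter.2 ⟨Finset.mem_univ _, hx⟩
    have h1 : (outN R i x).image (M i x) = inN R i x := by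
      apply Finset.eq_of_subset_of_card_le
      · intro y hy
        rw [Finset.mem_image] at hy
        obtain ⟨u, hu, rfl⟩ := hy
        exact (hM1 i x hx' u hu).1
      · rw [Finset.card_image_of_injOn (hM2 i x hx')]
        exact (hbal i x hx).ge
    have h2 : v ∈ (outN R i x).image (M i x) := by
      rw [h1]
      exact mem_inN.2 hv
    rw [Finset.mem_image] at h2
    obtain ⟨u, hu, h⟩ := h2
    exact ⟨u, mem_outN.1 hu, h⟩
  -- ends of the arcs of `R` at vertices outside `U`
  have hRend : ∀ i x u, x ∉ U i → (i, x, u) ∈ R → u ∈ U (i + 1) := by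
    intro i x u hx h
    rcases hR _ h with h1 | h1
    · exact absurd h1.1 hx
    · exact h1.2
  have hRst : ∀ i x v, x ∉ U i → (i + 2, v, x) ∈ R → v ∈ U (i + 2) := by
    intro i x v hx h
    rcases hR _ h with h1 | h1
    · exact h1.1
    · have h2 := h1.2
      simp only [(z3 i).2.2.1] at h2
      exact absurd h2 hx
  have hRF : ∀ e, e ∈ R → e ∉ F := by
    intro e he hf
    have h1 := hF e hf
    rcases hR e he with h2 | h2
    · exact h2.2 h1.2
    · exact h2.1 h1.1
  set D : Finset (Arc α) := R.filter fun e => e.2.1 ∉ U e.1 with hD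
  let Tr : Arc α → Finset (Arc α) := fun e => tri e.1 e.2.1 e.2.2 (M e.1 e.2.1 e.2.2)
  have hDm : ∀ i x u, (i, x, u) ∈ D ↔ (i, x, u) ∈ R ∧ x ∉ U i := by
    intro i x u
    rw [hD, Finset.mem_filter]
  refine ⟨D.biUnion Tr, ?_, ?_, ?_, ?_⟩
  · apply dec_biUnion D Tr (fun e _ => dec_tri _ _ _ _)
    rintro ⟨i, x, u⟩ he ⟨i', x', u'⟩ he' hne
    rw [hDm] at he he'
    obtain ⟨hr, hx⟩ := he
    obtain ⟨hr', hx'⟩ := he'
    obtain ⟨ha, hb⟩ := hM1' i x hx u hr
    obtain ⟨ha', hb'⟩ := hM1' i' x' hx' u' hr'
    rw [Finset.disjoint_left]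
    intro f hf hf'
    simp only [Tr, mem_tri] at hf hf'
    apply hne
    rcases hf with rfl | rfl | rfl
    · rcases hf' with h | h | h
      · exact h
      · exact absurd (h ▸ hb') (hRF _ hr)
      · -- an arc leaving `x` outside `U` and an arc leaving a vertex of `U`
        simp only [Prod.mk.injEq] at h
        obtain ⟨h1, h2, h3⟩ := h
        have := hRst i' x' _ hx' ha'
        rw [← h1, ← h2] at this
        exact absurd this hx
    · rcases hf' with h | h | h
      · exact absurd (h ▸ hb) (hRF _ hr')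
      · simp only [Prod.mk.injEq] at h
        obtain ⟨h1, h2, h3⟩ := h
        have h1' : i = i' := add_right_cancel h1
        subst h1'
        subst h2
        have := hM3' i x x' hx hx' u hr hr' h3
        subst this
        rfl
      · exact absurd (h ▸ hb) (hRF _ ha')
    · rcases hf' with h | h | h
      · simp only [Prod.mk.injEq] at h
        obtain ⟨h1, h2, h3⟩ := h
        have := hRst i x _ hx ha
        rw [h1, h2] at this
        exact absurd this hx'
      · exact absurd (h ▸ hb') (hRF _ ha)
      · simp only [Prod.mk.injEq] at h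
        obtain ⟨h1, h2, h3⟩ := h
        have h1' : i = i' := add_right_cancel h1
        subst h1'
        subst h3
        have := hM2' i x hx u u' hr hr' h2
        subst this
        rfl
  · rintro ⟨j, y, z⟩ he
    rw [Finset.mem_biUnion]
    rcases hR _ he with h1 | h1
    · -- arc from `U` to outside
      have e1 : j + 1 + 2 = j := (z3 j).2.1
      have h2 : z ∉ U (j + 1) := h1.2
      have h3 : (j + 1 + 2, y, z) ∈ R := by
        rw [e1]
        exact he
      obtain ⟨u, hu, hMu⟩ := hsurj (j + 1) z h2 y h3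
      refine ⟨(j + 1, z, u), (hDm _ _ _).2 ⟨hu, h2⟩, ?_⟩
      simp only [Tr, mem_tri]
      right; right
      rw [hMu, e1]
    · refine ⟨(j, y, z), (hDm _ _ _).2 ⟨he, h1.1⟩, ?_⟩
      simp only [Tr, mem_tri]
      left
      trivial
  · intro f hf
    rw [Finset.mem_biUnion] at hf
    obtain ⟨⟨i, x, u⟩, he, hf⟩ := hf
    rw [hDm] at he
    obtain ⟨ha, hb⟩ := hM1' i x he.2 u he.1
    simp only [Tr, mem_tri] at hf
    rw [Finset.mem_union]
    rcases hf with rfl | rfl | rfl
    · exact Or.inl he.1
    · exact Or.inr hb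
    · exact Or.inl ha
  · -- arcs of `F` in the union
    have hHF : ∀ j y z, (j, y, z) ∈ D.biUnion Tr ∩ F →
        ∃ i x, j = i + 1 ∧ x ∉ U i ∧ (i, x, y) ∈ R ∧ M i x y = z := by
      intro j y z h
      rw [Finset.mem_inter, Finset.mem_biUnion] at h
      obtain ⟨⟨⟨i, x, u⟩, he, hf⟩, hF'⟩ := h
      rw [hDm] at he
      obtain ⟨ha, hb⟩ := hM1' i x he.2 u he.1
      simp only [Tr, mem_tri] at hf
      rcases hf with h | h | h
      · exact absurd (h ▸ hF') (hRF _ he.1)
      · simp only [Prod.mk.injEq] at h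
        obtain ⟨h1, h2, h3⟩ := h
        subst h2
        exact ⟨i, x, h1, he.2, he.1, h3.symm⟩
      · exact absurd (h ▸ hF') (hRF _ ha)
    intro i w
    constructor
    · have hch : ∀ y ∈ outN (D.biUnion Tr ∩ F) i w, ∃ x, x ∈ inN R i w ∧ x ∉ U (i + 2) ∧
          M (i + 2) x w = y := by
        intro y hy
        obtain ⟨j, x, h1, h2, h3, h4⟩ := hHF i w y (mem_outN.1 hy)
        have h5 : j = i + 2 := by
          rw [h1]
          exact (z3 j).2.1.symm
        subst h5
        exact ⟨x, mem_inN.2 h3, h2, h4⟩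
      choose! g hg1 hg2 hg3 using hch
      refine Finset.card_le_card_of_injOn g (fun y hy => hg1 y hy) ?_
      intro y hy y' hy' h
      rw [← hg3 y hy, ← hg3 y' hy']
      rw [h]
    · have hch : ∀ y ∈ inN (D.biUnion Tr ∩ F) i w, ∃ x, x ∈ outN R i w ∧ x ∉ U (i + 1) ∧
          (i + 1, x, y) ∈ R ∧ M (i + 1) x y = w := by
        intro y hy
        obtain ⟨j, x, h1, h2, h3, h4⟩ := hHF (i + 2) y w (mem_inN.1 hy)
        have h5 : j = i + 1 := by
          have h6 : i + 2 + 2 = j + 1 + 2 := by rw [h1]
          rw [(z3 i).2.2.2, (z3 j).2.1] at h6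
          exact h6.symm
        subst h5
        have h7 := (hM1' (i + 1) x h2 y h3).1
        rw [(z3 i).2.1, h4] at h7
        exact ⟨x, mem_outN.2 h7, h2, h3, h4⟩
      choose! g hg1 hg2 hg3 hg4 using hch
      refine Finset.card_le_card_of_injOn g (fun y hy => hg1 y hy) ?_
      intro y hy y' hy' h
      have e1 := hg4 y hy
      have e2 := hg4 y' hy'
      have r1 := hg3 y hy
      have r2 := hg3 y' hy'
      rw [← h] at e2 r2
      exact hM2' (i + 1) (g y) (hg2 y hy) y y' r1 r2 (e1.trans e2.symm)

end Pool.Agent.Lib.MP_cb9986_co.S9
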