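import Pool.Agent.Lib.MP_cb9986_co.S9.Spec

/-!
Swarm S9, module CoverMixed: greedy covering of the arcs between `U` and its complement, with loads.
-/

set_option autoImplicit false
open Finset

namespace Pool.Agent.Lib.MP_cb9986_co.S9

section CM

variable {α : Type} [DecidableEq α] (U : ZMod 3 → Finset α)

/-- the arc of the triangle on `e` and `w` which should lie in `R` -/
def cmR (e : Arc α) (w : α) : Arc α :=
  if e.2.1 ∈ U e.1 then (e.1 + 1, e.2.2, w) else (e.1 + 2, w, e.2.1)

/-- the arc of the triangle on `e` and `w` which should lie in `F` -/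
def cmF (e : Arc α) (w : α) : Arc α :=
  if e.2.1 ∈ U e.1 then (e.1 + 2, w, e.2.1) else (e.1 + 1, e.2.2, w)

/-- how often `w` (class `k`) was chosen by tasks of type `b` -/
def cmLoad (S : Finset (Arc α)) (f : Arc α → α) (b : Bool) (k : ZMod 3) (w : α) : Finset (Arc α) :=
  S.filter fun e => decide (e.2.1 ∈ U e.1) = b ∧ e.1 + 2 = k ∧ f e = w

/-- the invariant of the greedy procedure -/
structure CMInv (R F : Finset (Arc α)) (Λ : ℕ) (S : Finset (Arc α)) (f : Arc α → α) : Prop where
  hR : ∀ e ∈ S, cmR U e (f e) ∈ R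
  hF : ∀ e ∈ S, cmF U e (f e) ∈ F
  iR : ∀ e ∈ S, ∀ e' ∈ S, cmR U e (f e) = cmR U e' (f e') → e = e'
  iF : ∀ e ∈ S, ∀ e' ∈ S, cmF U e (f e) = cmF U e' (f e') → e = e'
  ld : ∀ b k w, (cmLoad U S f b k w).card ≤ Λ

theorem cm_tri (e : Arc α) (w : α) (a : Arc α) :
    a ∈ tri e.1 e.2.1 e.2.2 w ↔ a = e ∨ a = cmR U e w ∨ a = cmF U e w := by
  obtain ⟨j, x, y⟩ := e
  unfold cmR cmF
  simp only [mem_tri]
  split_ifs <;> tauto

/-- at most `ℓ / Λ` vertices are overloaded -/
theorem cm_over [Fintype α] (S : Finset (Arc α)) (f : Arc α → α) (b : Bool) (k : ZMod 3) (Λ ℓ : ℕ)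
    (hΛ : 0 < Λ) (hS : S.card ≤ ℓ) :
    (univ.filter fun w => Λ ≤ (cmLoad U S f b k w).card).card ≤ ℓ / Λ := by
  rw [Nat.le_div_iff_mul_le hΛ]
  set B := univ.filter fun w => Λ ≤ (cmLoad U S f b k w).card with hB
  calc B.card * Λ = ∑ _w ∈ B, Λ := by rw [Finset.sum_const, smul_eq_mul]
    _ ≤ ∑ w ∈ B, (cmLoad U S f b k w).card := by
        refine Finset.sum_le_sum fun w hw => ?_
        rw [hB, Finset.mem_filter] at hw
        exact hw.2
    _ = (B.biUnion fun w => cmLoad U S f b k w).card := by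
        rw [Finset.card_biUnion]
        intro w _ w' _ hne
        rw [Function.onFun, Finset.disjoint_left]
        intro e he he'
        simp only [cmLoad, Finset.mem_filter] at he he'
        exact hne (he.2.2.2.symm.trans he'.2.2.2)
    _ ≤ S.card := by
        refine Finset.card_le_card fun e he => ?_
        rw [Finset.mem_biUnion] at he
        obtain ⟨w, -, he⟩ := he
        exact (Finset.mem_filter.mp he).1
    _ ≤ ℓ := hS

theorem cm_z1 {i j : ZMod 3} : i + 1 = j + 1 → i = j := by revert i j; decide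
theorem cm_z2 {i j : ZMod 3} : i + 2 = j + 2 → i = j := by revert i j; decide
theorem cm_z12 {i j : ZMod 3} : i + 1 = j + 2 → i = j + 1 := by revert i j; decide
theorem cm_z21 {i j : ZMod 3} : i + 2 = j + 1 → i = j + 2 := by revert i j; decide
theorem cm_z12' {i j : ZMod 3} : i + 1 = j + 2 → i + 2 = j := by revert i j; decide
theorem cm_z21' {i j : ZMod 3} : i + 2 = j + 1 → j + 2 = i := by revert i j; decide
theorem cm_z1' {i j : ZMod 3} : i + 1 = j → i = j + 2 := by revert i j; decide
theorem cm_z2' {i j : ZMod 3} : i + 2 = j → i = j + 1 := by revert i j; decide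

variable {U}

/-- The step for a task of type A. -/
theorem cm_stepA [Fintype α] {R L F : Finset (Arc α)} {d Λ ℓ c : ℕ} (hLm : Mixed U L)
    (hF : Inside U F)
    (hd : ∀ i x, (outN L i x).card ≤ d ∧ (inN L i x).card ≤ d) (hℓ : L.card ≤ ℓ) (hΛ : 0 < Λ)
    (hc : 2 * d + Λ + ℓ / Λ < c) {S : Finset (Arc α)} {f : Arc α → α} (hSL : S ⊆ L)
    (hI : CMInv U R F Λ S f) (j : ZMod 3) (a b : α) (ha : a ∉ U j)
    (hcard : c ≤ (univ.filter fun v => (j + 2, v, a) ∈ R ∧ (j + 1, b, v) ∈ F).card) :
    ∃ w, cmR U (j, a, b) w ∈ R ∧ cmF U (j, a, b) w ∈ F ∧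
      (∀ e' ∈ S, cmR U (j, a, b) w = cmR U e' (f e') → False) ∧
      (∀ e' ∈ S, cmF U (j, a, b) w = cmF U e' (f e') → False) ∧
      (cmLoad U S f (decide (a ∈ U j)) (j + 2) w).card < Λ := by
  obtain ⟨z1, z2, z3, z4⟩ := z3 j
  have hdec : decide (a ∈ U j) = false := by simp [ha]
  set C := univ.filter fun v => (j + 2, v, a) ∈ R ∧ (j + 1, b, v) ∈ F with hC
  set B1 := (outN L j a).image fun y => f (j, a, y) with hB1
  set B2 := (inN L (j + 1) b).image fun y => f (j, y, b) with hB2
  set B3 := (cmLoad U S f true (j + 1) b).image fun e => e.2.1 with hB3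
  set B4 := univ.filter fun w => Λ ≤ (cmLoad U S f false (j + 2) w).card with hB4
  have c1 : B1.card ≤ d := Finset.card_image_le.trans (hd _ _).1
  have c2 : B2.card ≤ d := Finset.card_image_le.trans (hd _ _).2
  have c3 : B3.card ≤ Λ := Finset.card_image_le.trans (hI.ld _ _ _)
  have c4 : B4.card ≤ ℓ / Λ := cm_over U S f false (j + 2) Λ ℓ hΛ ((Finset.card_le_card hSL).trans hℓ)
  have c5 : (B1 ∪ B2 ∪ B3 ∪ B4).card ≤ 2 * d + Λ + ℓ / Λ := by
    have e1 := Finset.card_union_le (B1 ∪ B2 ∪ B3) B4
    have e2 := Finset.card_union_le (B1 ∪ B2) B3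
    have e3 := Finset.card_union_le B1 B2
    omega
  obtain ⟨w, hwC, hwB⟩ : ∃ w ∈ C, w ∉ B1 ∪ B2 ∪ B3 ∪ B4 := by
    by_contra hcon
    push Not at hcon
    have := Finset.card_le_card (show C ⊆ B1 ∪ B2 ∪ B3 ∪ B4 from hcon)
    omega
  simp only [Finset.mem_union, not_or] at hwB
  obtain ⟨⟨⟨n1, n2⟩, n3⟩, n4⟩ := hwB
  rw [hC, Finset.mem_filter] at hwC
  obtain ⟨-, hwR, hwF⟩ := hwC
  have hwU : w ∈ U (j + 2) := by
    have := (hF _ hwF).2
    simpa [z1] using this
  refine ⟨w, by simpa [cmR, ha] using hwR, by simpa [cmF, ha] using hwF, ?_, ?_, ?_⟩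
  · rintro ⟨j', a', b'⟩ he' h
    have hL' := hSL he'
    by_cases ht : a' ∈ U j'
    · simp only [cmR, if_neg ha, if_pos ht, Prod.mk.injEq] at h
      obtain ⟨h1, h2, h3⟩ := h
      have hm := hLm _ hL'
      simp only [ht, not_true_eq_false, false_and, or_false, true_and] at hm
      rw [← h1, ← h2] at hm
      exact hm hwU
    · simp only [cmR, if_neg ha, if_neg ht, Prod.mk.injEq] at h
      obtain ⟨h1, h2, h3⟩ := h
      have hj := cm_z2 h1
      subst hj
      subst h3
      refine n1 ?_
      rw [hB1, Finset.mem_image]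
      exact ⟨b', by rw [mem_outN]; exact hL', h2.symm⟩
  · rintro ⟨j', a', b'⟩ he' h
    have hL' := hSL he'
    by_cases ht : a' ∈ U j'
    · simp only [cmF, if_neg ha, if_pos ht, Prod.mk.injEq] at h
      obtain ⟨h1, h2, h3⟩ := h
      refine n3 ?_
      rw [hB3, Finset.mem_image]
      refine ⟨(j', a', b'), ?_, h3.symm⟩
      rw [cmLoad, Finset.mem_filter]
      refine ⟨he', ?_, h1.symm, h2.symm⟩
      simp [ht]
    · simp only [cmF, if_neg ha, if_neg ht, Prod.mk.injEq] at h
      obtain ⟨h1, h2, h3⟩ := h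
      have hj := cm_z1 h1
      subst hj
      subst h2
      refine n2 ?_
      rw [hB2, Finset.mem_image]
      exact ⟨a', by rw [mem_inN, z2]; exact hL', h3.symm⟩
  · rw [hdec]
    rw [hB4, Finset.mem_filter] at n4
    simp only [Finset.mem_univ, true_and, not_le] at n4
    exact n4

/-- The step for a task of type B. -/
theorem cm_stepB [Fintype α] {R L F : Finset (Arc α)} {d Λ ℓ c : ℕ} (hLm : Mixed U L)
    (hF : Inside U F)
    (hd : ∀ i x, (outN L i x).card ≤ d ∧ (inN L i x).card ≤ d) (hℓ : L.card ≤ ℓ) (hΛ : 0 < Λ)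
    (hc : 2 * d + Λ + ℓ / Λ < c) {S : Finset (Arc α)} {f : Arc α → α} (hSL : S ⊆ L)
    (hI : CMInv U R F Λ S f) (j : ZMod 3) (a b : α) (ha : a ∈ U j)
    (hcard : c ≤ (univ.filter fun v => (j + 1, b, v) ∈ R ∧ (j + 2, v, a) ∈ F).card) :
    ∃ w, cmR U (j, a, b) w ∈ R ∧ cmF U (j, a, b) w ∈ F ∧
      (∀ e' ∈ S, cmR U (j, a, b) w = cmR U e' (f e') → False) ∧
      (∀ e' ∈ S, cmF U (j, a, b) w = cmF U e' (f e') → False) ∧
      (cmLoad U S f (decide (a ∈ U j)) (j + 2) w).card < Λ := by
  obtain ⟨z1, z2, z3, z4⟩ := z3 j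
  have hdec : decide (a ∈ U j) = true := by simp [ha]
  set C := univ.filter fun v => (j + 1, b, v) ∈ R ∧ (j + 2, v, a) ∈ F with hC
  set B1 := (inN L (j + 1) b).image fun y => f (j, y, b) with hB1
  set B2 := (outN L j a).image fun y => f (j, a, y) with hB2
  set B3 := (cmLoad U S f false j a).image fun e => e.2.2 with hB3
  set B4 := univ.filter fun w => Λ ≤ (cmLoad U S f true (j + 2) w).card with hB4
  have c1 : B1.card ≤ d := Finset.card_image_le.trans (hd _ _).2
  have c2 : B2.card ≤ d := Finset.card_image_le.trans (hd _ _).1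
  have c3 : B3.card ≤ Λ := Finset.card_image_le.trans (hI.ld _ _ _)
  have c4 : B4.card ≤ ℓ / Λ := cm_over U S f true (j + 2) Λ ℓ hΛ ((Finset.card_le_card hSL).trans hℓ)
  have c5 : (B1 ∪ B2 ∪ B3 ∪ B4).card ≤ 2 * d + Λ + ℓ / Λ := by
    have e1 := Finset.card_union_le (B1 ∪ B2 ∪ B3) B4
    have e2 := Finset.card_union_le (B1 ∪ B2) B3
    have e3 := Finset.card_union_le B1 B2
    omega
  obtain ⟨w, hwC, hwB⟩ : ∃ w ∈ C, w ∉ B1 ∪ B2 ∪ B3 ∪ B4 := by
    by_contra hcon
    push Not at hcon
    have := Finset.card_le_card (show C ⊆ B1 ∪ B2 ∪ B3 ∪ B4 from hcon)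
    omega
  simp only [Finset.mem_union, not_or] at hwB
  obtain ⟨⟨⟨n1, n2⟩, n3⟩, n4⟩ := hwB
  rw [hC, Finset.mem_filter] at hwC
  obtain ⟨-, hwR, hwF⟩ := hwC
  have hwU : w ∈ U (j + 2) := (hF _ hwF).1
  refine ⟨w, by simpa [cmR, ha] using hwR, by simpa [cmF, ha] using hwF, ?_, ?_, ?_⟩
  · rintro ⟨j', a', b'⟩ he' h
    have hL' := hSL he'
    by_cases ht : a' ∈ U j'
    · simp only [cmR, if_pos ha, if_pos ht, Prod.mk.injEq] at h
      obtain ⟨h1, h2, h3⟩ := h
      have hj := cm_z1 h1
      subst hj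
      subst h2
      refine n1 ?_
      rw [hB1, Finset.mem_image]
      exact ⟨a', by rw [mem_inN, z2]; exact hL', h3.symm⟩
    · simp only [cmR, if_pos ha, if_neg ht, Prod.mk.injEq] at h
      obtain ⟨h1, h2, h3⟩ := h
      -- `a' = w` lies in `U`
      have hj : j + 2 = j' := cm_z12' h1
      rw [← hj, ← h3] at ht
      exact ht hwU
  · rintro ⟨j', a', b'⟩ he' h
    have hL' := hSL he'
    by_cases ht : a' ∈ U j'
    · simp only [cmF, if_pos ha, if_pos ht, Prod.mk.injEq] at h
      obtain ⟨h1, h2, h3⟩ := h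
      have hj := cm_z2 h1
      subst hj
      subst h3
      refine n2 ?_
      rw [hB2, Finset.mem_image]
      exact ⟨b', by rw [mem_outN]; exact hL', h2.symm⟩
    · simp only [cmF, if_pos ha, if_neg ht, Prod.mk.injEq] at h
      obtain ⟨h1, h2, h3⟩ := h
      refine n3 ?_
      rw [hB3, Finset.mem_image]
      refine ⟨(j', a', b'), ?_, h2.symm⟩
      rw [cmLoad, Finset.mem_filter]
      refine ⟨he', ?_, ?_, h3.symm⟩
      · simp [ht]
      · exact cm_z21' h1
  · rw [hdec]
    rw [hB4, Finset.mem_filter] at n4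
    simp only [Finset.mem_univ, true_and, not_le] at n4
    exact n4

/-- The greedy procedure succeeds. -/
theorem cm_greedy [Fintype α] {R L F : Finset (Arc α)} {d Λ ℓ c : ℕ} (hLm : Mixed U L)
    (hF : Inside U F)
    (hd : ∀ i x, (outN L i x).card ≤ d ∧ (inN L i x).card ≤ d) (hℓ : L.card ≤ ℓ) (hΛ : 0 < Λ)
    (hA : ∀ i x u, (i, x, u) ∈ L → x ∉ U i →
      c ≤ (univ.filter fun v => (i + 2, v, x) ∈ R ∧ (i + 1, u, v) ∈ F).card)
    (hB : ∀ i x v, (i + 2, v, x) ∈ L → x ∉ U i →
      c ≤ (univ.filter fun u => (i, x, u) ∈ R ∧ (i + 1, u, v) ∈ F).card)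
    (hc : 2 * d + Λ + ℓ / Λ < c) (S : Finset (Arc α)) (hSL : S ⊆ L) :
    ∃ f : Arc α → α, CMInv U R F Λ S f := by
  induction S using Finset.induction_on with
  | empty =>
    by_cases hne : Nonempty α
    · obtain ⟨a⟩ := hne
      exact ⟨fun _ => a, by simp, by simp, by simp, by simp, by simp [cmLoad]⟩
    · exact ⟨fun e => e.2.1, by simp, by simp, by simp, by simp, by simp [cmLoad]⟩
  | insert e S he ih =>
    have heL : e ∈ L := hSL (Finset.mem_insert_self _ _)
    have hSL' : S ⊆ L := fun x hx => hSL (Finset.mem_insert_of_mem hx)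
    obtain ⟨f, hI⟩ := ih hSL'
    obtain ⟨w, w1, w2, w3, w4, w5⟩ : ∃ w, cmR U e w ∈ R ∧ cmF U e w ∈ F ∧
      (∀ e' ∈ S, cmR U e w = cmR U e' (f e') → False) ∧
      (∀ e' ∈ S, cmF U e w = cmF U e' (f e') → False) ∧
      (cmLoad U S f (decide (e.2.1 ∈ U e.1)) (e.1 + 2) w).card < Λ := by
      obtain ⟨j, a, b⟩ := e
      obtain ⟨z1, z2, z3, z4⟩ := z3 j
      by_cases ha : a ∈ U j
      · refine cm_stepB hLm hF hd hℓ hΛ hc hSL' hI j a b ha ?_
        have hm := hLm _ heL
        simp only [ha, not_true_eq_false, false_and, or_false, true_and] at hm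
        have := hB (j + 1) b a (by rw [z2]; exact heL) hm
        rw [z1] at this
        exact this
      · exact cm_stepA hLm hF hd hℓ hΛ hc hSL' hI j a b ha (hA j a b heL ha)
    have hfe : ∀ e' ∈ S, Function.update f e w e' = f e' := by
      intro e' he'
      rw [Function.update_of_ne]
      rintro rfl
      exact he he'
    refine ⟨Function.update f e w, ?_, ?_, ?_, ?_, ?_⟩
    · intro e' he'
      rcases Finset.mem_insert.mp he' with rfl | he'
      · rw [Function.update_self]; exact w1
      · rw [hfe e' he']; exact hI.hR e' he'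
    · intro e' he'
      rcases Finset.mem_insert.mp he' with rfl | he'
      · rw [Function.update_self]; exact w2
      · rw [hfe e' he']; exact hI.hF e' he'
    · intro e₁ h₁ e₂ h₂ h
      rcases Finset.mem_insert.mp h₁ with rfl | k₁
      · rcases Finset.mem_insert.mp h₂ with rfl | k₂
        · rfl
        · rw [Function.update_self, hfe e₂ k₂] at h
          exact (w3 e₂ k₂ h).elim
      · rcases Finset.mem_insert.mp h₂ with rfl | k₂
        · rw [Function.update_self, hfe e₁ k₁] at h
          exact (w3 e₁ k₁ h.symm).elim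
        · rw [hfe e₁ k₁, hfe e₂ k₂] at h
          exact hI.iR e₁ k₁ e₂ k₂ h
    · intro e₁ h₁ e₂ h₂ h
      rcases Finset.mem_insert.mp h₁ with rfl | k₁
      · rcases Finset.mem_insert.mp h₂ with rfl | k₂
        · rfl
        · rw [Function.update_self, hfe e₂ k₂] at h
          exact (w4 e₂ k₂ h).elim
      · rcases Finset.mem_insert.mp h₂ with rfl | k₂
        · rw [Function.update_self, hfe e₁ k₁] at h
          exact (w4 e₁ k₁ h.symm).elim
        · rw [hfe e₁ k₁, hfe e₂ k₂] at h
          exact hI.iF e₁ k₁ e₂ k₂ h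
    · intro b k v
      by_cases hcase : decide (e.2.1 ∈ U e.1) = b ∧ e.1 + 2 = k ∧ w = v
      · obtain ⟨rfl, rfl, rfl⟩ := hcase
        have hsub : cmLoad U (insert e S) (Function.update f e w) (decide (e.2.1 ∈ U e.1)) (e.1 + 2) w ⊆
            insert e (cmLoad U S f (decide (e.2.1 ∈ U e.1)) (e.1 + 2) w) := by
          intro e' he'
          rw [cmLoad, Finset.mem_filter] at he'
          obtain ⟨h1, h2, h3, h4⟩ := he'
          rw [Finset.mem_insert]
          rcases Finset.mem_insert.mp h1 with rfl | h1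
          · exact Or.inl rfl
          · right
            rw [hfe e' h1] at h4
            rw [cmLoad, Finset.mem_filter]
            exact ⟨h1, h2, h3, h4⟩
        have h6 := Finset.card_le_card hsub
        have h7 := Finset.card_insert_le e (cmLoad U S f (decide (e.2.1 ∈ U e.1)) (e.1 + 2) w)
        omega
      · have hsub : cmLoad U (insert e S) (Function.update f e w) b k v ⊆ cmLoad U S f b k v := by
          intro e' he'
          rw [cmLoad, Finset.mem_filter] at he'
          obtain ⟨h1, h2, h3, h4⟩ := he'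
          rcases Finset.mem_insert.mp h1 with rfl | h1
          · rw [Function.update_self] at h4
            exact (hcase ⟨h2, h3, h4⟩).elim
          · rw [hfe e' h1] at h4
            rw [cmLoad, Finset.mem_filter]
            exact ⟨h1, h2, h3, h4⟩
        exact (Finset.card_le_card hsub).trans (hI.ld b k v)

end CM

theorem coverMixed : CoverMixedStmt := by
  intro α _ _ U R L F d Λ ℓ c hRm hLm hLR hF hd hℓ hΛ hA hB hc
  obtain ⟨f, hI⟩ := cm_greedy (R := R) hLm hF hd hℓ hΛ hA hB hc L (Finset.Subset.refl L)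
  have dLF : ∀ e ∈ L, e ∉ F := by
    intro e he hf
    have h1 := hF e hf
    rcases hLm e he with h | h
    · exact h.2 h1.2
    · exact h.1 h1.1
  have dRF : ∀ e ∈ R, e ∉ F := by
    intro e he hf
    have h1 := hF e hf
    rcases hRm e he with h | h
    · exact h.2 h1.2
    · exact h.1 h1.1
  have dLR : ∀ e ∈ L, e ∉ R := fun e he hr => (Finset.disjoint_left.mp hLR he) hr
  set H := L.biUnion fun e => tri e.1 e.2.1 e.2.2 (f e) with hH
  have memH : ∀ a, a ∈ H ↔ ∃ e ∈ L, a = e ∨ a = cmR U e (f e) ∨ a = cmF U e (f e) := by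
    intro a
    rw [hH, Finset.mem_biUnion]
    constructor
    · rintro ⟨e, he, h⟩
      exact ⟨e, he, (cm_tri U e (f e) a).mp h⟩
    · rintro ⟨e, he, h⟩
      exact ⟨e, he, (cm_tri U e (f e) a).mpr h⟩
  have memHR : ∀ a, a ∈ H ∩ R → ∃ e ∈ L, a = cmR U e (f e) := by
    intro a ha
    rw [Finset.mem_inter, memH] at ha
    obtain ⟨⟨e, he, rfl | h | h⟩, hr⟩ := ha
    · exact (dLR _ he hr).elim
    · exact ⟨e, he, h⟩
    · rw [h] at hr
      exact (dRF _ hr (hI.hF e he)).elim
  have memHF : ∀ a, a ∈ H ∩ F → ∃ e ∈ L, a = cmF U e (f e) := by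
    intro a ha
    rw [Finset.mem_inter, memH] at ha
    obtain ⟨⟨e, he, rfl | h | h⟩, hr⟩ := ha
    · exact (dLF _ he hr).elim
    · rw [h] at hr
      exact (dRF _ (hI.hR e he) hr).elim
    · exact ⟨e, he, h⟩
  have hwU : ∀ e ∈ L, f e ∈ U (e.1 + 2) := by
    intro e he
    have h1 := hI.hF e he
    have h2 := hF _ h1
    unfold cmF at h2
    obtain ⟨z1, z2, z3, z4⟩ := z3 e.1
    split_ifs at h2 with h
    · exact h2.1
    · have := h2.2
      simpa [z1] using this
  refine ⟨H, ?_, ?_, ?_, ?_, ?_⟩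
  · -- disjointness
    refine dec_biUnion L _ (fun e _ => dec_tri _ _ _ _) ?_
    intro e he e' he' hne
    rw [Finset.disjoint_left]
    intro a ha ha'
    rw [cm_tri U] at ha ha'
    rcases ha with ha | ha | ha <;> rcases ha' with ha' | ha' | ha'
    · exact hne (ha.symm.trans ha')
    · rw [ha] at ha'
      exact dLR _ he (ha' ▸ hI.hR e' he')
    · rw [ha] at ha'
      exact dLF _ he (ha' ▸ hI.hF e' he')
    · rw [ha'] at ha
      exact dLR _ he' (ha ▸ hI.hR e he)
    · exact hne (hI.iR e he e' he' (ha.symm.trans ha'))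
    · have h1 := hI.hR e he
      have h2 := hI.hF e' he'
      rw [← ha] at h1
      rw [← ha'] at h2
      exact dRF _ h1 h2
    · rw [ha'] at ha
      exact dLF _ he' (ha ▸ hI.hF e he)
    · have h1 := hI.hF e he
      have h2 := hI.hR e' he'
      rw [← ha] at h1
      rw [← ha'] at h2
      exact dRF _ h2 h1
    · exact hne (hI.iF e he e' he' (ha.symm.trans ha'))
  · intro e he
    rw [memH]
    exact ⟨e, he, Or.inl rfl⟩
  · intro a ha
    rw [memH] at ha
    obtain ⟨e, he, rfl | rfl | rfl⟩ := ha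
    · simp [he]
    · have := hI.hR e he
      simp [this]
    · have := hI.hF e he
      simp [this]
  · intro i x hx
    refine ⟨?_, ?_⟩
    · have hsub : outN (H ∩ R) i x ⊆ (inN L i x).image fun y => f (i + 2, y, x) := by
        intro y hy
        rw [mem_outN] at hy
        obtain ⟨⟨j, a, b⟩, he, h⟩ := memHR _ hy
        have hw := hwU _ he
        by_cases ht : a ∈ U j
        · simp only [cmR, if_pos ht, Prod.mk.injEq] at h
          obtain ⟨h1, h2, h3⟩ := h
          have hj : j = i + 2 := cm_z1' h1.symm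
          subst hj
          subst h2
          rw [Finset.mem_image]
          exact ⟨a, by rw [mem_inN]; exact he, h3.symm⟩
        · simp only [cmR, if_neg ht, Prod.mk.injEq] at h
          obtain ⟨h1, h2, h3⟩ := h
          simp only at hw
          rw [← h2, ← h1] at hw
          exact (hx hw).elim
      exact (Finset.card_le_card hsub).trans (Finset.card_image_le.trans (hd i x).2)
    · have hsub : inN (H ∩ R) i x ⊆ (outN L i x).image fun y => f (i, x, y) := by
        intro y hy
        rw [mem_inN] at hy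
        obtain ⟨⟨j, a, b⟩, he, h⟩ := memHR _ hy
        have hw := hwU _ he
        by_cases ht : a ∈ U j
        · simp only [cmR, if_pos ht, Prod.mk.injEq] at h
          obtain ⟨h1, h2, h3⟩ := h
          simp only at hw
          have hj : j + 2 = i := cm_z21' h1
          rw [← h3, hj] at hw
          exact (hx hw).elim
        · simp only [cmR, if_neg ht, Prod.mk.injEq] at h
          obtain ⟨h1, h2, h3⟩ := h
          have hj : i = j := cm_z2 h1
          subst hj
          subst h3
          rw [Finset.mem_image]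
          exact ⟨b, by rw [mem_outN]; exact he, h2.symm⟩
      exact (Finset.card_le_card hsub).trans (Finset.card_image_le.trans (hd i x).1)
  · intro i x
    refine ⟨?_, ?_⟩
    · have hsub : outN (H ∩ F) i x ⊆ ((inN L i x).image fun y => f (i + 2, y, x)) ∪
          ((cmLoad U L f true i x).image fun e => e.2.1) := by
        intro y hy
        rw [mem_outN] at hy
        obtain ⟨⟨j, a, b⟩, he, h⟩ := memHF _ hy
        rw [Finset.mem_union, Finset.mem_image, Finset.mem_image]
        by_cases ht : a ∈ U j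
        · right
          simp only [cmF, if_pos ht, Prod.mk.injEq] at h
          obtain ⟨h1, h2, h3⟩ := h
          refine ⟨(j, a, b), ?_, h3.symm⟩
          rw [cmLoad, Finset.mem_filter]
          exact ⟨he, by simp [ht], h1.symm, h2.symm⟩
        · left
          simp only [cmF, if_neg ht, Prod.mk.injEq] at h
          obtain ⟨h1, h2, h3⟩ := h
          have hj : j = i + 2 := cm_z1' h1.symm
          subst hj
          subst h2
          exact ⟨a, by rw [mem_inN]; exact he, h3.symm⟩
      refine (Finset.card_le_card hsub).trans ((Finset.card_union_le _ _).trans ?_)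
      exact add_le_add (Finset.card_image_le.trans (hd i x).2) (Finset.card_image_le.trans (hI.ld _ _ _))
    · have hsub : inN (H ∩ F) i x ⊆ ((outN L i x).image fun y => f (i, x, y)) ∪
          ((cmLoad U L f false i x).image fun e => e.2.2) := by
        intro y hy
        rw [mem_inN] at hy
        obtain ⟨⟨j, a, b⟩, he, h⟩ := memHF _ hy
        rw [Finset.mem_union, Finset.mem_image, Finset.mem_image]
        by_cases ht : a ∈ U j
        · left
          simp only [cmF, if_pos ht, Prod.mk.injEq] at h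
          obtain ⟨h1, h2, h3⟩ := h
          have hj : i = j := cm_z2 h1
          subst hj
          subst h3
          exact ⟨b, by rw [mem_outN]; exact he, h2.symm⟩
        · right
          simp only [cmF, if_neg ht, Prod.mk.injEq] at h
          obtain ⟨h1, h2, h3⟩ := h
          refine ⟨(j, a, b), ?_, h2.symm⟩
          rw [cmLoad, Finset.mem_filter]
          refine ⟨he, by simp [ht], ?_, h3.symm⟩
          exact cm_z21' h1
      refine (Finset.card_le_card hsub).trans ((Finset.card_union_le _ _).trans ?_)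
      exact add_le_add (Finset.card_image_le.trans (hd i x).1) (Finset.card_image_le.trans (hI.ld _ _ _))

end Pool.Agent.Lib.MP_cb9986_co.S9
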