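import Pool.Agent.Lib.MP_cb9986_co.S9.Spec

/-!
Covering the arcs outside `U` by a greedy choice.
-/

set_option autoImplicit false
open Finset

namespace Pool.Agent.Lib.MP_cb9986_co.S9

theorem CoverOut_greedy {α : Type} [DecidableEq α] [Fintype α] (U : ZMod 3 → Finset α)
    (R L : Finset (Arc α)) (d : ℕ)
    (h3 : ∀ i x, (outN L i x).card ≤ d ∧ (inN L i x).card ≤ d)
    (h4 : ∀ i x y, (i, x, y) ∈ L →
      2 * d < ((U (i + 2)).filter fun w => (i + 1, y, w) ∈ R ∧ (i + 2, w, x) ∈ R).card)
    (L' : Finset (Arc α)) (hL' : L' ⊆ L) :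
    ∃ w : Arc α → α, (∀ e ∈ L', w e ∈ U (e.1 + 2) ∧ (e.1 + 1, e.2.2, w e) ∈ R ∧
      (e.1 + 2, w e, e.2.1) ∈ R) ∧
      ∀ e ∈ L', ∀ e' ∈ L', e ≠ e' → e.1 = e'.1 → (e.2.1 = e'.2.1 ∨ e.2.2 = e'.2.2) →
        w e ≠ w e' := by
  induction L' using Finset.induction_on with
  | empty =>
    rcases L.eq_empty_or_nonempty with h | ⟨e, he⟩
    · by_cases hne : Nonempty α
      · exact ⟨fun _ => Classical.choice hne, by simp, by simp⟩
      · refine ⟨fun e => e.2.1, by simp, by simp⟩
    · exact ⟨fun _ => e.2.1, by simp, by simp⟩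
  | insert e L' he ih =>
    obtain ⟨w, hw1, hw2⟩ := ih (fun f hf => hL' (Finset.mem_insert_of_mem hf))
    have heL : e ∈ L := hL' (Finset.mem_insert_self e L')
    have hsub : ∀ f ∈ L', f ∈ L := fun f hf => hL' (Finset.mem_insert_of_mem hf)
    obtain ⟨i, x, y⟩ := e
    obtain ⟨z1, z2, z3', z4⟩ := z3 i
    have h5 := h4 i x y heL
    obtain ⟨F, hF⟩ : ∃ F : Finset α, F = (outN L i x).image (fun b => w (i, x, b)) ∪
      (inN L (i + 1) y).image (fun a => w (i, a, y)) := ⟨_, rfl⟩
    have hFc : F.card ≤ 2 * d := by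
      rw [hF]
      refine (Finset.card_union_le _ _).trans ?_
      have a1 : ((outN L i x).image (fun b => w (i, x, b))).card ≤ d :=
        Finset.card_image_le.trans (h3 i x).1
      have a2 : ((inN L (i + 1) y).image (fun a => w (i, a, y))).card ≤ d :=
        Finset.card_image_le.trans (h3 (i + 1) y).2
      omega
    obtain ⟨c, hc, hcF⟩ := Finset.exists_mem_notMem_of_card_lt_card (hFc.trans_lt h5)
    rw [Finset.mem_filter] at hc
    have hne : ∀ f ∈ L', f ≠ (i, x, y) := fun f hf h => he (h ▸ hf)
    refine ⟨Function.update w (i, x, y) c, ?_, ?_⟩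
    · intro f hf
      rw [Finset.mem_insert] at hf
      rcases hf with rfl | hf
      · rw [Function.update_self]
        exact ⟨hc.1, hc.2.1, hc.2.2⟩
      · rw [Function.update_of_ne (hne f hf)]
        exact hw1 f hf
    · have key : ∀ f ∈ L', i = f.1 → (x = f.2.1 ∨ y = f.2.2) → c ≠ w f := by
        rintro ⟨j, a, b⟩ hf hi hxy hcf
        simp only [] at hi hxy
        subst hi
        apply hcF
        rw [hF, Finset.mem_union, Finset.mem_image, Finset.mem_image]
        rcases hxy with rfl | rfl
        · left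
          refine ⟨b, ?_, hcf.symm⟩
          rw [mem_outN]
          exact hsub _ hf
        · right
          refine ⟨a, ?_, hcf.symm⟩
          rw [mem_inN, z2]
          exact hsub _ hf
      intro f hf f' hf' hff h1 h2
      rw [Finset.mem_insert] at hf hf'
      rcases hf with rfl | hf
      · rcases hf' with rfl | hf'
        · exact absurd rfl hff
        · rw [Function.update_self, Function.update_of_ne (hne f' hf')]
          exact key f' hf' h1 h2
      · rcases hf' with rfl | hf'
        · rw [Function.update_self, Function.update_of_ne (hne f hf)]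
          exact (key f hf h1.symm (h2.imp Eq.symm Eq.symm)).symm
        · rw [Function.update_of_ne (hne f hf), Function.update_of_ne (hne f' hf')]
          exact hw2 f hf f' hf' hff h1 h2

theorem CoverOut : CoverOutStmt := by
  intro α _ _ U R L d h1 h2 h3 h4
  obtain ⟨w, hw1, hw2⟩ := CoverOut_greedy U R L d h3 h4 L (Finset.Subset.refl L)
  obtain ⟨T, hT⟩ : ∃ T : Arc α → Finset (Arc α), T = fun e => tri e.1 e.2.1 e.2.2 (w e) :=
    ⟨_, rfl⟩
  have hLR : ∀ e ∈ L, e ∉ R := by
    intro e he heR
    have a1 := h1 e he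
    rcases h2 e heR with h | h
    · exact a1.1 h.1
    · exact a1.2 h.2
  have hmem : ∀ (e f : Arc α), f ∈ T e ↔ f = (e.1, e.2.1, e.2.2) ∨ f = (e.1 + 1, e.2.2, w e) ∨
      f = (e.1 + 2, w e, e.2.1) := by
    intro e f
    rw [hT]
    exact mem_tri
  refine ⟨L.biUnion T, ?_, ?_, ?_, ?_⟩
  · apply dec_biUnion
    · intro e _
      rw [hT]
      exact dec_tri _ _ _ _
    · rintro ⟨i, x, y⟩ he ⟨j, a, b⟩ hf hne
      obtain ⟨p1, p2⟩ := h1 _ he
      obtain ⟨q1, q2⟩ := h1 _ hf
      obtain ⟨r1, r2, r3⟩ := hw1 _ he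
      obtain ⟨s1, s2, s3⟩ := hw1 _ hf
      simp only [] at p1 p2 q1 q2 r1 r2 r3 s1 s2 s3
      obtain ⟨z1, z2, z3', z4⟩ := z3 i
      obtain ⟨y1, y2, y3, y4⟩ := z3 j
      rw [Finset.disjoint_left]
      intro g hg hg'
      rw [hmem] at hg hg'
      simp only [] at hg hg'
      rcases hg with rfl | rfl | rfl
      · rcases hg' with h | h | h
        · exact hne h
        · rw [Prod.mk.injEq, Prod.mk.injEq] at h
          obtain ⟨h5, h6, h7⟩ := h
          subst h5 h7
          rw [y1] at p2
          exact p2 s1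
        · rw [Prod.mk.injEq, Prod.mk.injEq] at h
          obtain ⟨h5, h6, h7⟩ := h
          subst h5 h6
          exact p1 s1
      · rcases hg' with h | h | h
        · rw [Prod.mk.injEq, Prod.mk.injEq] at h
          obtain ⟨h5, h6, h7⟩ := h
          rw [← h5, z1, ← h7] at q2
          exact q2 r1
        · rw [Prod.mk.injEq, Prod.mk.injEq] at h
          obtain ⟨h5, h6, h7⟩ := h
          exact hw2 _ he _ hf hne (add_right_cancel h5) (Or.inr h6) h7
        · rw [Prod.mk.injEq, Prod.mk.injEq] at h
          obtain ⟨h5, h6, h7⟩ := h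
          rw [← h5, ← h6] at s1
          exact p2 s1
      · rcases hg' with h | h | h
        · rw [Prod.mk.injEq, Prod.mk.injEq] at h
          obtain ⟨h5, h6, h7⟩ := h
          rw [← h5, ← h6] at q1
          exact q1 r1
        · rw [Prod.mk.injEq, Prod.mk.injEq] at h
          obtain ⟨h5, h6, h7⟩ := h
          rw [h5, h6] at r1
          exact q2 r1
        · rw [Prod.mk.injEq, Prod.mk.injEq] at h
          obtain ⟨h5, h6, h7⟩ := h
          exact hw2 _ he _ hf hne (add_right_cancel h5) (Or.inl h7) h6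
  · intro e he
    rw [Finset.mem_biUnion]
    exact ⟨e, he, (hmem e e).2 (Or.inl rfl)⟩
  · intro f hf
    rw [Finset.mem_biUnion] at hf
    obtain ⟨e, he, hf⟩ := hf
    rw [hmem] at hf
    rw [Finset.mem_union]
    obtain ⟨r1, r2, r3⟩ := hw1 _ he
    rcases hf with rfl | rfl | rfl
    · exact Or.inl he
    · exact Or.inr r2
    · exact Or.inr r3
  · intro i x hx
    constructor
    · have hsub : outN (L.biUnion T ∩ R) i x ⊆ (inN L i x).image (fun a => w (i + 2, a, x)) := by
        intro z hz
        rw [mem_outN, Finset.mem_inter, Finset.mem_biUnion] at hz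
        obtain ⟨⟨e, he, hz⟩, hzR⟩ := hz
        rw [hmem] at hz
        obtain ⟨j, a, b⟩ := e
        obtain ⟨y1, y2, y3, y4⟩ := z3 j
        simp only [] at hz
        rcases hz with h | h | h
        · rw [h] at hzR
          exact absurd hzR (hLR _ he)
        · rw [Prod.mk.injEq, Prod.mk.injEq] at h
          obtain ⟨h5, h6, h7⟩ := h
          rw [Finset.mem_image]
          refine ⟨a, ?_, ?_⟩
          · rw [mem_inN, h5, h6, y2]
            exact he
          · rw [h7, h5, h6, y2]
        · rw [Prod.mk.injEq, Prod.mk.injEq] at h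
          obtain ⟨h5, h6, h7⟩ := h
          have r1 := (hw1 _ he).1
          simp only [] at r1
          rw [← h5, ← h6] at r1
          exact absurd r1 hx
      exact (Finset.card_le_card hsub).trans (Finset.card_image_le.trans (h3 i x).2)
    · have hsub : inN (L.biUnion T ∩ R) i x ⊆ (outN L i x).image (fun b => w (i, x, b)) := by
        intro z hz
        rw [mem_inN, Finset.mem_inter, Finset.mem_biUnion] at hz
        obtain ⟨⟨e, he, hz⟩, hzR⟩ := hz
        rw [hmem] at hz
        obtain ⟨j, a, b⟩ := e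
        obtain ⟨y1, y2, y3, y4⟩ := z3 j
        simp only [] at hz
        rcases hz with h | h | h
        · rw [h] at hzR
          exact absurd hzR (hLR _ he)
        · rw [Prod.mk.injEq, Prod.mk.injEq] at h
          obtain ⟨h5, h6, h7⟩ := h
          have r1 := (hw1 _ he).1
          simp only [] at r1
          have h9 : ∀ i j : ZMod 3, i + 2 = j + 1 → i = j + 2 := by decide
          have h8 : i = j + 2 := h9 i j h5
          rw [← h8, ← h7] at r1
          exact absurd r1 hx
        · rw [Prod.mk.injEq, Prod.mk.injEq] at h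
          obtain ⟨h5, h6, h7⟩ := h
          have h8 : i = j := add_right_cancel h5
          rw [Finset.mem_image]
          refine ⟨b, ?_, ?_⟩
          · rw [mem_outN, h8, h7]
            exact he
          · rw [h6, h8, h7]
      exact (Finset.card_le_card hsub).trans (Finset.card_image_le.trans (h3 i x).1)

end Pool.Agent.Lib.MP_cb9986_co.S9
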