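import Pool.Agent.Lib.MP_cb9986_co.S9.Spec

/-!
Swarm S9: equitable colourings (derandomised Chernoff bound).
-/

set_option autoImplicit false
open Finset

namespace Pool.Agent.Lib.MP_cb9986_co.S9

/-- One block: the exponential moment of a uniformly shifted element. -/
theorem equitable_block (B : ℕ) [NeZero B] (a : Fin B → ℝ) (h01 : ∀ j, 0 ≤ a j ∧ a j ≤ 1)
    (c : Fin B) (lam : ℝ) (hl : |lam| ≤ 1) :
    ∑ s : Fin B, Real.exp (lam * (a (c - s) - (∑ j, a j) / B)) ≤ B * Real.exp (lam ^ 2) := by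
  have hB : (0 : ℝ) < B := by exact_mod_cast Nat.pos_of_ne_zero (NeZero.ne B)
  set p : ℝ := (∑ j, a j) / B with hp
  have hp0 : 0 ≤ p := div_nonneg (Finset.sum_nonneg fun j _ => (h01 j).1) hB.le
  have hp1 : p ≤ 1 := by
    rw [hp, div_le_one hB]
    calc ∑ j, a j ≤ ∑ _j : Fin B, (1 : ℝ) := Finset.sum_le_sum fun j _ => (h01 j).2
      _ = B := by simp
  have hsum : ∑ s : Fin B, a (c - s) = ∑ j, a j := Equiv.sum_comp (Equiv.subLeft c) a
  have hpt : ∀ s : Fin B, Real.exp (lam * (a (c - s) - p)) ≤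
      1 + lam ^ 2 + lam * (a (c - s) - p) := by
    intro s
    have hf : |a (c - s) - p| ≤ 1 := by
      rw [abs_le]
      have := h01 (c - s)
      constructor <;> linarith
    have h1 : |lam * (a (c - s) - p)| ≤ 1 := by
      rw [abs_mul]
      exact mul_le_one₀ hl (abs_nonneg _) hf
    have h2 := Real.abs_exp_sub_one_sub_id_le h1
    have h3 : (lam * (a (c - s) - p)) ^ 2 ≤ lam ^ 2 := by
      rw [mul_pow]
      have h4 : (a (c - s) - p) ^ 2 ≤ 1 := by
        rw [← sq_abs]
        exact pow_le_one₀ (abs_nonneg _) hf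
      nlinarith [sq_nonneg lam]
    have h5 := (abs_le.mp h2).2
    linarith
  calc ∑ s : Fin B, Real.exp (lam * (a (c - s) - p))
      ≤ ∑ s : Fin B, (1 + lam ^ 2 + lam * (a (c - s) - p)) := Finset.sum_le_sum fun s _ => hpt s
    _ = B * (1 + lam ^ 2) := by
        rw [Finset.sum_add_distrib, ← Finset.mul_sum, Finset.sum_sub_distrib, hsum]
        simp only [Finset.sum_const, Finset.card_univ, Fintype.card_fin, nsmul_eq_mul]
        have : (∑ j, a j) = B * p := by rw [hp]; field_simp
        rw [this]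
        ring
    _ ≤ B * Real.exp (lam ^ 2) := by
        apply mul_le_mul_of_nonneg_left _ hB.le
        have := Real.add_one_le_exp (lam ^ 2)
        linarith

/-- All blocks. -/
theorem equitable_prod (q B : ℕ) [NeZero B] (a : Fin q → Fin B → ℝ)
    (h01 : ∀ b j, 0 ≤ a b j ∧ a b j ≤ 1) (c : Fin B) (lam : ℝ) (hl : |lam| ≤ 1) :
    ∑ σ : Fin q → Fin B, Real.exp (lam * ∑ b, (a b (c - σ b) - (∑ j, a b j) / B)) ≤
      (B : ℝ) ^ q * Real.exp (lam ^ 2 * q) := by
  have h1 : ∑ σ : Fin q → Fin B, Real.exp (lam * ∑ b, (a b (c - σ b) - (∑ j, a b j) / B)) =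
      ∏ b : Fin q, ∑ s : Fin B, Real.exp (lam * (a b (c - s) - (∑ j, a b j) / B)) := by
    rw [Finset.prod_univ_sum, Fintype.piFinset_univ]
    refine Finset.sum_congr rfl fun σ _ => ?_
    rw [Finset.mul_sum, Real.exp_sum]
  rw [h1]
  calc ∏ b : Fin q, ∑ s : Fin B, Real.exp (lam * (a b (c - s) - (∑ j, a b j) / B))
      ≤ ∏ _b : Fin q, ((B : ℝ) * Real.exp (lam ^ 2)) :=
        Finset.prod_le_prod (fun b _ => Finset.sum_nonneg fun s _ => (Real.exp_pos _).le)
          (fun b _ => equitable_block B (a b) (h01 b) c lam hl)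
    _ = (B : ℝ) ^ q * Real.exp (lam ^ 2 * q) := by
        rw [Finset.prod_const, Finset.card_univ, Fintype.card_fin, mul_pow, ← Real.exp_nat_mul]
        congr 2
        ring

/-- A shift vector which is good for all test functions. -/
theorem equitable_shift (q B : ℕ) [NeZero B] {ι : Type} (T : Finset ι)
    (a : ι → Fin q → Fin B → ℝ) (h01 : ∀ S b j, 0 ≤ a S b j ∧ a S b j ≤ 1) (η : ℝ) (hη : 0 < η)
    (hη1 : η ≤ 1) (hlt : 2 * (B : ℝ) * T.card * Real.exp (-(η ^ 2 * (q : ℝ)) / 4) < 1) :
    ∃ σ : Fin q → Fin B, ∀ S ∈ T, ∀ c : Fin B,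
      |∑ b, (a S b (c - σ b) - (∑ j, a S b j) / B)| ≤ η * q := by
  have hB : (0 : ℝ) < B := by exact_mod_cast Nat.pos_of_ne_zero (NeZero.ne B)
  set lam : ℝ := η / 2 with hlam
  have hl : |lam| ≤ 1 := by rw [hlam, abs_of_pos (by positivity)]; linarith
  have hl' : |-lam| ≤ 1 := by rw [abs_neg]; exact hl
  set X : ι → Fin B → (Fin q → Fin B) → ℝ :=
    fun S c σ => ∑ b, (a S b (c - σ b) - (∑ j, a S b j) / B) with hX
  set Φ : (Fin q → Fin B) → ℝ :=
    fun σ => ∑ S ∈ T, ∑ c : Fin B, (Real.exp (lam * X S c σ) + Real.exp (-lam * X S c σ)) with hΦ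
  set M : ℝ := 2 * (B : ℝ) * T.card * Real.exp (lam ^ 2 * q) with hM
  have htot : ∑ σ : Fin q → Fin B, Φ σ ≤ ∑ _σ : Fin q → Fin B, M := by
    have h1 : ∑ σ : Fin q → Fin B, Φ σ = ∑ S ∈ T, ∑ c : Fin B,
        (∑ σ : Fin q → Fin B, Real.exp (lam * X S c σ) +
          ∑ σ : Fin q → Fin B, Real.exp (-lam * X S c σ)) := by
      rw [hΦ, Finset.sum_comm]
      refine Finset.sum_congr rfl fun S _ => ?_
      rw [Finset.sum_comm]
      refine Finset.sum_congr rfl fun c _ => ?_
      rw [Finset.sum_add_distrib]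
    rw [h1]
    have h2 : ∀ S ∈ T, ∀ c ∈ (Finset.univ : Finset (Fin B)),
        (∑ σ : Fin q → Fin B, Real.exp (lam * X S c σ) +
          ∑ σ : Fin q → Fin B, Real.exp (-lam * X S c σ)) ≤
          2 * ((B : ℝ) ^ q * Real.exp (lam ^ 2 * q)) := by
      intro S _ c _
      have e1 := equitable_prod q B (a S) (h01 S) c lam hl
      have e2 := equitable_prod q B (a S) (h01 S) c (-lam) hl'
      rw [neg_sq] at e2
      have e1' : ∑ σ : Fin q → Fin B, Real.exp (lam * X S c σ) ≤
          (B : ℝ) ^ q * Real.exp (lam ^ 2 * q) := e1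
      have e2' : ∑ σ : Fin q → Fin B, Real.exp (-lam * X S c σ) ≤
          (B : ℝ) ^ q * Real.exp (lam ^ 2 * q) := e2
      linarith
    refine (Finset.sum_le_sum fun S hS => Finset.sum_le_sum fun c hc => h2 S hS c hc).trans ?_
    simp only [Finset.sum_const, Finset.card_univ, Fintype.card_fin, Fintype.card_pi,
      Finset.prod_const, nsmul_eq_mul, Nat.cast_pow]
    rw [hM]
    apply le_of_eq
    ring
  obtain ⟨σ, -, hσ⟩ := Finset.exists_le_of_sum_le (s := (Finset.univ : Finset (Fin q → Fin B)))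
    ⟨fun _ => 0, Finset.mem_univ _⟩ htot
  refine ⟨σ, fun S hS c => ?_⟩
  by_contra hc
  push Not at hc
  have hbig : Real.exp (lam * |X S c σ|) ≤ Φ σ := by
    have h1 : Real.exp (lam * |X S c σ|) ≤
        Real.exp (lam * X S c σ) + Real.exp (-lam * X S c σ) := by
      rcases abs_cases (X S c σ) with ⟨h, _⟩ | ⟨h, _⟩
      · rw [h]; linarith [Real.exp_pos (-lam * X S c σ)]
      · rw [h, show lam * -X S c σ = -lam * X S c σ by ring]
        linarith [Real.exp_pos (lam * X S c σ)]
    refine h1.trans ?_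
    rw [hΦ]
    have h2 : Real.exp (lam * X S c σ) + Real.exp (-lam * X S c σ) ≤
        ∑ c : Fin B, (Real.exp (lam * X S c σ) + Real.exp (-lam * X S c σ)) :=
      Finset.single_le_sum
        (f := fun c : Fin B => Real.exp (lam * X S c σ) + Real.exp (-lam * X S c σ))
        (fun c _ => add_nonneg (Real.exp_pos _).le (Real.exp_pos _).le) (Finset.mem_univ c)
    refine h2.trans ?_
    exact Finset.single_le_sum
      (f := fun S : ι => ∑ c : Fin B, (Real.exp (lam * X S c σ) + Real.exp (-lam * X S c σ)))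
      (fun S _ => Finset.sum_nonneg fun c _ => add_nonneg (Real.exp_pos _).le (Real.exp_pos _).le) hS
  have h3 : Real.exp (lam * (η * q)) < Real.exp (lam * |X S c σ|) := by
    apply Real.exp_lt_exp.mpr
    apply mul_lt_mul_of_pos_left hc
    positivity
  have h4 : Real.exp (lam * (η * q)) < M := h3.trans_le (hbig.trans hσ)
  have h5 : M < Real.exp (lam * (η * q)) := by
    have e1 : Real.exp (lam ^ 2 * q) = Real.exp (-(η ^ 2 * (q : ℝ)) / 4) * Real.exp (lam * (η * q)) := by
      rw [← Real.exp_add]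
      congr 1
      rw [hlam]
      ring
    rw [hM, e1]
    have e2 := Real.exp_pos (lam * (η * q))
    calc 2 * (B : ℝ) * T.card * (Real.exp (-(η ^ 2 * (q : ℝ)) / 4) * Real.exp (lam * (η * q)))
        = (2 * (B : ℝ) * T.card * Real.exp (-(η ^ 2 * (q : ℝ)) / 4)) *
          Real.exp (lam * (η * q)) := by ring
      _ < 1 * Real.exp (lam * (η * q)) := mul_lt_mul_of_pos_right hlt e2
      _ = _ := one_mul _
  exact absurd h4 (not_lt.mpr h5.le)

theorem equitable : EquitableStmt := by
  intro α _ _ B V n T η hB hV hη hη1 hlt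
  haveI : NeZero B := ⟨hB.ne'⟩
  set q := n / B with hq
  set r := n % B with hr
  have hrB : r < B := Nat.mod_lt _ hB
  have hnq : n = q * B + r := by rw [hq, hr, mul_comm]; exact (Nat.div_add_mod n B).symm
  have hcard : Fintype.card {v // v ∈ V} = Fintype.card ((Fin q × Fin B) ⊕ Fin r) := by
    rw [Fintype.card_coe, hV, Fintype.card_sum, Fintype.card_prod, Fintype.card_fin,
      Fintype.card_fin, Fintype.card_fin]
    exact hnq
  set E : {v // v ∈ V} ≃ (Fin q × Fin B) ⊕ Fin r := Fintype.equivOfCardEq hcard with hE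
  -- indicators
  set a : Finset α → Fin q → Fin B → ℝ :=
    fun S b j => if ((E.symm (Sum.inl (b, j))).val ∈ S) then 1 else 0 with ha
  set z : Finset α → Fin r → ℝ :=
    fun S i => if ((E.symm (Sum.inr i)).val ∈ S) then 1 else 0 with hz
  have ha01 : ∀ S b j, 0 ≤ a S b j ∧ a S b j ≤ 1 := by
    intro S b j
    rw [ha]
    show 0 ≤ (if _ then (1 : ℝ) else 0) ∧ (if _ then (1 : ℝ) else 0) ≤ 1
    split_ifs <;> norm_num
  obtain ⟨σ, hσ⟩ := equitable_shift q B T a ha01 η hη hη1 hlt
  set last : Fin B := ⟨B - 1, by omega⟩ with hlast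
  set col : (Fin q × Fin B) ⊕ Fin r → Fin B :=
    Sum.elim (fun bj => bj.2 + σ bj.1) (fun _ => last) with hcol
  set ψ : α → Fin B := fun v => if h : v ∈ V then col (E ⟨v, h⟩) else last with hψ
  -- counting formulas
  have hsum : ∀ (S : Finset α), S ⊆ V → ∀ g : (Fin q × Fin B) ⊕ Fin r → ℝ,
      ∑ v ∈ S, (if h : v ∈ V then g (E ⟨v, h⟩) else 0) =
        ∑ b, ∑ j, a S b j * g (Sum.inl (b, j)) + ∑ i, z S i * g (Sum.inr i) := by
    intro S hS g
    have h1 : ∑ v ∈ S, (if h : v ∈ V then g (E ⟨v, h⟩) else 0) =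
        ∑ w : {v // v ∈ V}, (if w.val ∈ S then g (E w) else 0) := by
      rw [Finset.univ_eq_attach]
      have h2 : ∀ w ∈ V.attach, (if w.val ∈ S then g (E w) else 0) =
          (fun v => if v ∈ S then (if h : v ∈ V then g (E ⟨v, h⟩) else 0) else 0) w.val := by
        intro w _
        show _ = (if w.val ∈ S then (if h : w.val ∈ V then g (E ⟨w.val, h⟩) else 0) else 0)
        rw [dif_pos w.property]
      rw [Finset.sum_congr rfl h2, Finset.sum_attach V
        (fun v => if v ∈ S then (if h : v ∈ V then g (E ⟨v, h⟩) else 0) else 0), ← Finset.sum_filter]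
      congr 1
      ext v
      simp only [Finset.mem_filter]
      exact ⟨fun h => ⟨hS h, h⟩, fun h => h.2⟩
    rw [h1]
    have h3 : ∑ w : {v // v ∈ V}, (if w.val ∈ S then g (E w) else 0) =
        ∑ y : (Fin q × Fin B) ⊕ Fin r, (if (E.symm y).val ∈ S then g y else 0) := by
      rw [← Equiv.sum_comp E (fun y => if (E.symm y).val ∈ S then g y else 0)]
      refine Finset.sum_congr rfl fun w _ => ?_
      rw [Equiv.symm_apply_apply]
    rw [h3, Fintype.sum_sum_type, Fintype.sum_prod_type]
    congr 1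
    · refine Finset.sum_congr rfl fun b _ => Finset.sum_congr rfl fun j _ => ?_
      rw [ha]
      show _ = (if _ then (1 : ℝ) else 0) * _
      split_ifs <;> simp
    · refine Finset.sum_congr rfl fun i _ => ?_
      rw [hz]
      show _ = (if _ then (1 : ℝ) else 0) * _
      split_ifs <;> simp
  have hcardS : ∀ S : Finset α, S ⊆ V → (S.card : ℝ) = ∑ b, ∑ j, a S b j + ∑ i, z S i := by
    intro S hS
    have h := hsum S hS (fun _ => 1)
    simp only [mul_one] at h
    rw [← h, Finset.card_eq_sum_ones]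
    push_cast
    refine Finset.sum_congr rfl fun v hv => ?_
    rw [dif_pos (hS hv)]
  have hcardc : ∀ S : Finset α, S ⊆ V → ∀ c : Fin B,
      ((S.filter fun v => ψ v = c).card : ℝ) =
        ∑ b, a S b (c - σ b) + (if last = c then ∑ i, z S i else 0) := by
    intro S hS c
    have h := hsum S hS (fun y => if col y = c then 1 else 0)
    have h1 : ((S.filter fun v => ψ v = c).card : ℝ) =
        ∑ v ∈ S, (if h : v ∈ V then (if col (E ⟨v, h⟩) = c then (1 : ℝ) else 0) else 0) := by
      rw [Finset.card_filter]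
      push_cast
      refine Finset.sum_congr rfl fun v hv => ?_
      rw [dif_pos (hS hv)]
      have : ψ v = col (E ⟨v, hS hv⟩) := by
        rw [hψ]
        exact dif_pos (hS hv)
      rw [this]
    rw [h1, h]
    congr 1
    · refine Finset.sum_congr rfl fun b _ => ?_
      have h2 : ∀ j : Fin B, a S b j * (if col (Sum.inl (b, j)) = c then (1 : ℝ) else 0) =
          if j = c - σ b then a S b j else 0 := by
        intro j
        have h3 : col (Sum.inl (b, j)) = c ↔ j = c - σ b := by
          show j + σ b = c ↔ _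
          rw [eq_sub_iff_add_eq]
        by_cases h4 : j = c - σ b
        · rw [if_pos (h3.mpr h4), if_pos h4, mul_one]
        · rw [if_neg (fun hc => h4 (h3.mp hc)), if_neg h4, mul_zero]
      rw [Finset.sum_congr rfl fun j _ => h2 j]
      simp
    · have h3 : ∀ i : Fin r, col (Sum.inr i) = last := fun _ => rfl
      simp only [h3]
      split_ifs
      · simp
      · simp
  refine ⟨ψ, ?_, ?_⟩
  · intro c hc
    have hcl : last ≠ c := by
      intro h
      rw [← h, hlast] at hc
      simp only at hc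
      omega
    have h1 := hcardc V (subset_refl V) c
    rw [if_neg hcl, add_zero] at h1
    have h2 : ∀ b j, a V b j = 1 := by
      intro b j
      rw [ha]
      exact if_pos (E.symm (Sum.inl (b, j))).property
    simp only [h2, Finset.sum_const, Finset.card_univ, Fintype.card_fin, nsmul_eq_mul,
      mul_one] at h1
    exact_mod_cast h1
  · intro S hS hSV c
    have h1 := hσ S hS c
    have hBr : (0 : ℝ) < B := by exact_mod_cast hB
    have hZ0 : 0 ≤ ∑ i, z S i := Finset.sum_nonneg fun i _ => by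
      rw [hz]
      show 0 ≤ (if _ then (1 : ℝ) else 0)
      split_ifs <;> norm_num
    have hZ1 : ∑ i, z S i ≤ B := by
      calc ∑ i, z S i ≤ ∑ _i : Fin r, (1 : ℝ) := Finset.sum_le_sum fun i _ => by
            rw [hz]
            show (if _ then (1 : ℝ) else 0) ≤ 1
            split_ifs <;> norm_num
        _ = r := by simp
        _ ≤ B := by exact_mod_cast hrB.le
    rw [hcardc S hSV c, hcardS S hSV]
    have hX : ∑ b, (a S b (c - σ b) - (∑ j, a S b j) / B) =
        ∑ b, a S b (c - σ b) - (∑ b, ∑ j, a S b j) / B := by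
      rw [Finset.sum_sub_distrib, Finset.sum_div]
    rw [hX] at h1
    set Z := ∑ i, z S i with hZ
    have hB1 : (1 : ℝ) ≤ B := by exact_mod_cast hB
    have hZB : Z / B ≤ Z := div_le_self hZ0 hB1
    have hZB0 : 0 ≤ Z / B := div_nonneg hZ0 hBr.le
    have hqn : η * q ≤ η * n := by
      have : (q : ℝ) ≤ n := by exact_mod_cast Nat.div_le_self n B
      exact mul_le_mul_of_nonneg_left this hη.le
    rw [add_div]
    rw [abs_le] at h1 ⊢
    split_ifs
    · constructor <;> linarith
    · constructor <;> linarith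

end Pool.Agent.Lib.MP_cb9986_co.S9
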