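import Pool.Agent.Lib.MP_cb9986_co.S9.Defs

/-!
Swarm S9, statements of the modules. Goal (`MainStmt`): for every `ε > 0` every sufficiently large
locally balanced tripartite graph of partite minimum degree at least `(4/5 + ε) n` has a triangle
decomposition; hence (`PlsStmt`) partial Latin squares with at most `(1/5 - ε) n` entries per
line are completable for large `n`. Method: iterative absorption. The fractional theorem
(threshold `4/5`) is already proved, see `Gen.lean`.

Conventions: class `i` of a vertex is in `ZMod 3`, an arc `(i, x, y)` joins `x` (class `i`) to `y`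
(class `i + 1`). `z3` and `z3_ne` in `Defs.lean` give the arithmetic of classes. For a vertex
`(i, x)`: `outN G i x` are its neighbours in class `i + 1`, `inN G i x` those in class `i + 2`.
-/

set_option autoImplicit false
open Finset

namespace Pool.Agent.Lib.MP_cb9986_co.S9

/-- **Equitable colourings.** `V` (of size `n`) has a colouring with `B` colours in which all
classes but the last one have exactly `n / B` elements and which splits every test set `S ∈ T`
evenly.

Proof. Put `q = n / B`, choose disjoint blocks `b = 0, ..., q - 1` of `B` elements of `V` each,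
`V` minus the blocks has fewer than `B` elements, they (and everything outside `V`) get the last
colour. In block `b` use a shift `σ b ∈ ZMod B`: the element number `j` of block `b` gets the
colour `j + σ b`. Average over all `σ : Fin q → ZMod B` of
`Φ σ = ∑ S c, (exp (λ X) + exp (-λ X))`, `X = ∑ b, (Y b - p b)`, `Y b = 1` if the element of
colour `c` in block `b` lies in `S`, `p b = |S ∩ block b| / B`, `λ = η / 2`. The average of a
product over `b` is the product of the averages (`Finset.prod_univ_sum`), and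
`E exp (± λ (Y b - p b)) ≤ exp (λ ^ 2)` since `exp u ≤ 1 + u + u ^ 2` for `|u| ≤ 1` and the mean
of `Y b - p b` is zero. So some `σ` has `Φ σ ≤ 2 B |T| exp (λ ^ 2 q)`, hence
`|X| ≤ η q` for all `S, c` (else `exp (λ η q) = exp (η ^ 2 q / 2)` would be too large). The at most
`B` leftover elements account for the term `B`. -/
def EquitableStmt : Prop :=
  ∀ (α : Type) [DecidableEq α] [Fintype α] (B : ℕ) (V : Finset α) (n : ℕ)
    (T : Finset (Finset α)) (η : ℝ), 0 < B → V.card = n → 0 < η → η ≤ 1 →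
    2 * (B : ℝ) * T.card * Real.exp (-(η ^ 2 * ((n / B : ℕ) : ℝ)) / 4) < 1 →
    ∃ ψ : α → Fin B, (∀ c : Fin B, (c : ℕ) + 1 < B → (V.filter fun v => ψ v = c).card = n / B) ∧
      ∀ S ∈ T, S ⊆ V → ∀ c : Fin B,
        |((S.filter fun v => ψ v = c).card : ℝ) - S.card / B| ≤ η * n + B

/-- **Balancing.** A dense nearly balanced graph becomes balanced after the deletion of a graph
`D` of small degree.

Proof. We may assume `γ ≤ 1 / 100`; `ξ = γ / 10000`. View the arcs as directed. Let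
`b (i, x) = out - in` (an integer), so `∑ b = 0` (every arc counts once at its tail and once at
its head). `T = ∑ b⁺ ≤ 3 n ξ n`. Delete directed paths one by one, each from a vertex with
`b > 0` to a vertex with `b < 0` (current values), `T` paths in all; a path of length `3, 4` or `5`
according to the classes of its ends (class increases by one along each arc). Each path lowers
`∑ |b|` by two and does not change `b` at its inner vertices. Inner vertices are chosen among
those which have been inner vertices of fewer than `γ n / 4` paths so far; at most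
`4 T / (γ n / 4) ≤ 16 * 3 ξ n / γ ≤ n / 100` vertices are forbidden. At most
`2 * (γ n / 4 + 1) + ξ n ≤ n / 50` arcs per vertex have been deleted, so each vertex still has at
least `(3/4 - 1/50 - 1/100) n > n / 2` allowed out- and in-neighbours in `V`, and the last two
inner vertices (`a`, `b` with `b` in the out-neighbourhood of `a` and in the in-neighbourhood of
the end) exist because two sets of more than `n / 2` elements of a set of size `n` meet. (If
`ξ n < 1` all `b` are zero and `D = ∅`; so `γ n ≥ 10000` may be assumed.) Finally each vertex has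
lost at most `2 * (γ n / 4 + 1) + ξ n ≤ γ n` arcs. -/
def BalanceStmt : Prop :=
  ∀ γ : ℝ, 0 < γ → ∃ ξ : ℝ, 0 < ξ ∧ ∀ (α : Type) [DecidableEq α] [Fintype α]
    (V : ZMod 3 → Finset α) (n : ℕ) (G : Finset (Arc α)), (∀ i, (V i).card = n) → Inside V G →
    (∀ i x, |((outN G i x).card : ℝ) - (inN G i x).card| ≤ ξ * n) →
    (∀ i, ∀ x ∈ V i, (3 / 4 : ℝ) * n ≤ (outN G i x).card ∧ (3 / 4 : ℝ) * n ≤ (inN G i x).card) →
    ∃ D, D ⊆ G ∧ DegLe D (γ * n) ∧ Bal (G \ D)

/-- **Approximate decompositions** on `Fin n` (helper68: from the fractional theorem by a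
derandomised random greedy algorithm). -/
def NibFinStmt : Prop :=
  ∀ γ : ℝ, 0 < γ → ∃ n₁ : ℕ, ∀ n : ℕ, n₁ ≤ n → ∀ G : Finset (Arc (Fin n)), Bal G →
    (∀ i x, (4 / 5 : ℝ) * n ≤ (outN G i x).card) →
    ∃ H, H ⊆ G ∧ Dec H ∧ DegLe (G \ H) (γ * n)

/-- **Approximate decompositions.** From `NibFinStmt` by transport: choose equivalences
`{x // x ∈ V i} ≃ Fin n` for the three classes. -/
def NibStmt : Prop :=
  ∀ γ : ℝ, 0 < γ → ∃ n₁ : ℕ, ∀ (α : Type) [DecidableEq α] [Fintype α]
    (V : ZMod 3 → Finset α) (n : ℕ) (G : Finset (Arc α)), n₁ ≤ n → (∀ i, (V i).card = n) →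
    Inside V G → Bal G → (∀ i, ∀ x ∈ V i, (4 / 5 : ℝ) * n ≤ (outN G i x).card) →
    ∃ H, H ⊆ G ∧ Dec H ∧ DegLe (G \ H) (γ * n)

/-- Exactly one end of each arc lies in `U`. -/
def Mixed {α : Type} (U : ZMod 3 → Finset α) (G : Finset (Arc α)) : Prop :=
  ∀ e ∈ G, (e.2.1 ∈ U e.1 ∧ e.2.2 ∉ U (e.1 + 1)) ∨ (e.2.1 ∉ U e.1 ∧ e.2.2 ∈ U (e.1 + 1))

/-- **Covering arcs outside `U`.** Greedy: treat the arcs `(i, x, y) ∈ L` one by one and choose
`w ∈ U (i + 2)` with `(i + 1, y, w), (i + 2, w, x) ∈ R` such that `w` was not used at an earlier arc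
`(i, x', y)` with the same `y` (fewer than `d`) nor at an earlier arc `(i, x, y')` with the same
`x` (fewer than `d`). The triangles `tri i x y w` are then pairwise disjoint: an arc of `R` from
`y ∉ U` to `w ∈ U` determines `i`, `y`, `w`, an arc of `R` from `w ∈ U` to `x ∉ U` determines
`i`, `x`, `w`. -/
def CoverOutStmt : Prop :=
  ∀ (α : Type) [DecidableEq α] [Fintype α] (U : ZMod 3 → Finset α) (R L : Finset (Arc α)) (d : ℕ),
    (∀ e ∈ L, e.2.1 ∉ U e.1 ∧ e.2.2 ∉ U (e.1 + 1)) → Mixed U R →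
    (∀ i x, (outN L i x).card ≤ d ∧ (inN L i x).card ≤ d) →
    (∀ i x y, (i, x, y) ∈ L →
      2 * d < ((U (i + 2)).filter fun w => (i + 1, y, w) ∈ R ∧ (i + 2, w, x) ∈ R).card) →
    ∃ H, Dec H ∧ L ⊆ H ∧ H ⊆ L ∪ R ∧
      ∀ i, ∀ x ∉ U i, (outN (H ∩ R) i x).card ≤ d ∧ (inN (H ∩ R) i x).card ≤ d

/-- **Covering arcs between `U` and its complement.** Greedy with loads. `F` are arcs inside `U`.
Task of type A: `(i, x, u) ∈ L`, `x ∉ U i`, `u ∈ U (i + 1)`: choose `v ∈ U (i + 2)` and use the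
triangle `tri i x u v` with `(i + 2, v, x) ∈ R`, `(i + 1, u, v) ∈ F`. Task of type B:
`(i + 2, v, x) ∈ L`, `v ∈ U (i + 2)`, `x ∉ U i`: choose `u ∈ U (i + 1)` and use `tri i x u v` with
`(i, x, u) ∈ R`, `(i + 1, u, v) ∈ F`. Process all arcs of `L` in any order. For a vertex count how
often it has been chosen by tasks of type A and by tasks of type B; never choose a vertex that
was chosen `Λ` times by tasks of the same type (at most `ℓ / Λ` such vertices). In a task of type
A the forbidden `v` are: those with `(i + 2, v, x)` already used (earlier tasks of type A at `x`,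
fewer than `d`), those with `(i + 1, u, v)` already used (earlier tasks of type A at `u`, fewer
than `d`, and tasks of type B which chose `u`, at most `Λ`), overloaded ones (at most `ℓ / Λ`); in
all fewer than `2 d + Λ + ℓ / Λ < c`. Type B is symmetric. An arc `(i + 1, u, v) ∈ F` out of `u`
is used only by tasks of type A at `u` (at most `d`) and tasks of type B which chose `u` (at most
`Λ`), and symmetrically for arcs of `F` into `v`. -/
def CoverMixedStmt : Prop :=
  ∀ (α : Type) [DecidableEq α] [Fintype α] (U : ZMod 3 → Finset α) (R L F : Finset (Arc α))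
    (d Λ ℓ c : ℕ), Mixed U R → Mixed U L → Disjoint L R → Inside U F →
    (∀ i x, (outN L i x).card ≤ d ∧ (inN L i x).card ≤ d) → L.card ≤ ℓ → 0 < Λ →
    (∀ i x u, (i, x, u) ∈ L → x ∉ U i →
      c ≤ (univ.filter fun v => (i + 2, v, x) ∈ R ∧ (i + 1, u, v) ∈ F).card) →
    (∀ i x v, (i + 2, v, x) ∈ L → x ∉ U i →
      c ≤ (univ.filter fun u => (i, x, u) ∈ R ∧ (i + 1, u, v) ∈ F).card) →
    2 * d + Λ + ℓ / Λ < c →
    ∃ H, Dec H ∧ L ⊆ H ∧ H ⊆ L ∪ R ∪ F ∧
      (∀ i, ∀ x ∉ U i, (outN (H ∩ R) i x).card ≤ d ∧ (inN (H ∩ R) i x).card ≤ d) ∧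
      (∀ i x, (outN (H ∩ F) i x).card ≤ d + Λ ∧ (inN (H ∩ F) i x).card ≤ d + Λ)

/-- **Covering the rest by perfect matchings.** For each `x ∉ U i` we need a perfect matching
`M x` in the graph `F` between `outN R i x` and `inN R i x` (subsets of `U (i + 1)`, `U (i + 2)` of
equal size); the triangles `tri i x u v`, `(u, v) ∈ M x`, then cover all arcs of `R` at `x`. Treat
the vertices `(i, x)`, `x ∉ U i`, one by one. The arcs `(i + 1, u, v) ∈ F` with `u ∈ outN R i x`,
`v ∈ inN R i x` used earlier were used by `x'` of the same class and colour (`hcol`), each `x'`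
uses at most one such arc at `u` (at `v`), so fewer than `q` at each vertex. What is left has
minimum degree at least half the size on both sides, so Hall's condition holds
(`Finset.all_card_le_biUnion_card_iff_exists_injective`): if `2 |S| ≤ size` it is clear, otherwise
every `v` has a neighbour in `S`. An arc of `F` out of `u` is used at most once for each
`x ∈ inN R (i + 1) u`. -/
def CoverMatchStmt : Prop :=
  ∀ (α : Type) [DecidableEq α] [Fintype α] (U : ZMod 3 → Finset α) (R F : Finset (Arc α))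
    (col : ZMod 3 → α → ℕ) (q : ℕ), Mixed U R → Inside U F →
    (∀ i, ∀ x ∉ U i, (outN R i x).card = (inN R i x).card) →
    (∀ i x x' u v, x ∉ U i → x' ∉ U i → (i, x, u) ∈ R → (i, x', u) ∈ R → (i + 2, v, x) ∈ R →
      (i + 2, v, x') ∈ R → col i x = col i x') →
    (∀ i c, (univ.filter fun x => x ∉ U i ∧ col i x = c ∧ (outN R i x).Nonempty).card ≤ q) →
    (∀ i, ∀ x ∉ U i, ∀ u ∈ outN R i x, (outN R i x).card + 2 * q ≤
      2 * ((inN R i x).filter fun v => (i + 1, u, v) ∈ F).card) →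
    (∀ i, ∀ x ∉ U i, ∀ v ∈ inN R i x, (inN R i x).card + 2 * q ≤
      2 * ((outN R i x).filter fun u => (i + 1, u, v) ∈ F).card) →
    ∃ H, Dec H ∧ R ⊆ H ∧ H ⊆ R ∪ F ∧
      ∀ i w, (outN (H ∩ F) i w).card ≤ (inN R i w).card ∧
        (inN (H ∩ F) i w).card ≤ (outN R i w).card

/-- The reservoir: arcs of `G` between `U` and its complement, the end outside agreeing with the
end inside in the colour `P` (arcs into `U`) or `Q` (arcs out of `U`). -/
def resv {α : Type} [DecidableEq α] (U : ZMod 3 → Finset α) (P Q : ZMod 3 → α → ℕ)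
    (G : Finset (Arc α)) : Finset (Arc α) :=
  G.filter fun e => (e.2.1 ∉ U e.1 ∧ e.2.2 ∈ U (e.1 + 1) ∧ P e.1 e.2.1 = P (e.1 + 1) e.2.2) ∨
    (e.2.1 ∈ U e.1 ∧ e.2.2 ∉ U (e.1 + 1) ∧ Q e.1 e.2.1 = Q (e.1 + 1) e.2.2)

/-- Structural hypotheses of the cover-down step. `V ⊇ U` current and next vertex sets, `n`, `n'`
their sizes, `G` the original graph on `V`, `Z` a protected set of arcs inside `U`. -/
structure Level {α : Type} [DecidableEq α] [Fintype α] (ε ξ : ℝ) (K m n n' : ℕ)
    (V U : ZMod 3 → Finset α) (P Q : ZMod 3 → α → ℕ) (G Z : Finset (Arc α)) : Prop where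
  cardV : ∀ i, (V i).card = n
  cardU : ∀ i, (U i).card = n'
  sub : ∀ i, U i ⊆ V i
  le : K * n' ≤ n
  ge : n ≤ 2 * K * n'
  inside : Inside V G
  deg : ∀ i, ∀ x ∈ V i, (4 / 5 + ε) * n ≤ (outN G i x).card ∧ (4 / 5 + ε) * n ≤ (inN G i x).card
  prot : Z ⊆ restr U G
  /-- `G[U]` together with the reservoir is nearly balanced -/
  near : ∀ i x, |((outN (restr U G ∪ resv U P Q G) i x).card : ℝ) -
    (inN (restr U G ∪ resv U P Q G) i x).card| ≤ ξ * n
  /-- common neighbours through the reservoir -/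
  common : ∀ i, ∀ x ∈ V i, x ∉ U i → ∀ y ∈ V (i + 1), y ∉ U (i + 1) →
    (n' : ℝ) / (2 * m ^ 2) ≤ ((univ.filter fun w =>
      (i + 1, y, w) ∈ resv U P Q G ∧ (i + 2, w, x) ∈ resv U P Q G).card : ℝ)
  linkOut : ∀ i, ∀ x ∈ V i, x ∉ U i → ∀ u ∈ U (i + 1),
    29 / 50 * ((n' : ℝ) / m) ≤ ((univ.filter fun v =>
      (i + 2, v, x) ∈ resv U P Q G ∧ (i + 1, u, v) ∈ restr U G \ Z).card : ℝ)
  linkIn : ∀ i, ∀ x ∈ V i, x ∉ U i → ∀ v ∈ U (i + 2),
    29 / 50 * ((n' : ℝ) / m) ≤ ((univ.filter fun u =>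
      (i, x, u) ∈ resv U P Q G ∧ (i + 1, u, v) ∈ restr U G \ Z).card : ℝ)
  outside : ∀ i, ∀ x ∈ V i, x ∉ U i → ((outN (resv U P Q G) i x).card : ℝ) ≤ 101 / 100 * (n' / m) ∧
    ((inN (resv U P Q G) i x).card : ℝ) ≤ 101 / 100 * (n' / m)
  colour : ∀ i a b, (((V i).filter fun x => x ∉ U i ∧ P i x = a ∧ Q i x = b).card : ℝ) ≤
    2 * n / m ^ 2
  load : ∀ i, ∀ u ∈ U i, ((outN (resv U P Q G) i u).card : ℝ) ≤ 2 * n / m ∧
    ((inN (resv U P Q G) i u).card : ℝ) ≤ 2 * n / m

/-- **Cover-down step.** From `BalanceStmt`, `NibStmt`, `CoverOutStmt`, `CoverMixedStmt`,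
`CoverMatchStmt`.

Proof. Write `R = resv U P Q G`, `F = restr U G \ Z`. `K₀ ≥ 100 / ε`, `m₀ ≥ 1000 K / ε`,
`γ = 1 / (10 ^ 6 K ^ 2 m ^ 2)`, `ξ` from `BalanceStmt` for `γ`, `n₀` large.
(1) `G₁ = G' \ (restr U G ∪ R)` is nearly balanced (`Level.near` and `Bal G'`) with degrees at
least `(4/5 + ε - ε/2 - 1/K - 2/m) n`; `BalanceStmt` gives `D ⊆ G₁`, `DegLe D (γ n)`, `G₁ \ D`
balanced with degrees at least `4 n / 5`; `NibStmt` gives `H₁ ⊆ G₁ \ D`, `Dec H₁`, rest
`L₁ = G₁ \ D \ H₁`, `DegLe L₁ (γ n)`. Put `L = L₁ ∪ D`, degrees at most `d = ⌊2 γ n⌋`; no arc of `L`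
lies inside `U` or in `R`.
(2) `CoverOutStmt` with `R` for the arcs of `L` with both ends outside `U`
(`n' / (2 m ^ 2) > 2 d`): `H₂`.
(3) `CoverMixedStmt` for the arcs of `L` with one end in `U`, with `R \ H₂`, `F`,
`Λ = ⌊n' / (100 m)⌋`, `ℓ = 3 n d`, `c = ⌈29/50 n'/m⌉ - d`: `H₃`.
(4) `CoverMatchStmt` with `R \ H₂ \ H₃`, `F \ H₃`, colour of `x` coding `(P i x, Q i x)`,
`q = ⌊2 n / m ^ 2⌋`: for an arc `(i + 1, u, v)` between `outN R i x` and `inN R i x` we have
`P i x = P (i + 1) u` and `Q i x = Q (i + 2) v`. At `x` at most `2 d` arcs of `R` have been used on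
each side, and at `u` at most `d + Λ` arcs of `F`, so the degree condition follows from
`29/50 - 1/100 - 101/200 > 0`, `2 q ≤ 8 K n' / m ^ 2`. The sizes of `outN`, `inN` at `x` agree since
`G' \ H₁ \ H₂ \ H₃` is balanced and has no other arcs at `x`. This gives `H₄`.
`H = H₁ ∪ H₂ ∪ H₃ ∪ H₄`; inside `U` it has degrees at most `d + Λ + 2 n / m ≤ ε n' / 2`. -/
def CoverStmt : Prop :=
  ∀ ε : ℝ, 0 < ε → ε ≤ 1 / 5 → ∃ K₀ : ℕ, ∀ K : ℕ, K₀ ≤ K → ∃ m₀ : ℕ, ∀ m : ℕ, m₀ ≤ m →
    ∃ ξ : ℝ, 0 < ξ ∧ ∃ n₀ : ℕ, ∀ (α : Type) [DecidableEq α] [Fintype α] (n n' : ℕ)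
      (V U : ZMod 3 → Finset α) (P Q : ZMod 3 → α → ℕ) (G Z G' : Finset (Arc α)), n₀ ≤ n →
      Level ε ξ K m n n' V U P Q G Z → G' ⊆ G → Bal G' → restr U G ∪ resv U P Q G ⊆ G' →
      DegLe (G \ G') (ε / 2 * n) →
      ∃ H, H ⊆ G' ∧ Dec H ∧ G' \ H ⊆ restr U G ∧ Disjoint H Z ∧
        DegLe (H ∩ restr U G) (ε / 2 * n')

/-- **Splitting a level.** From `EquitableStmt` with `B = K m ^ 2` colours, `η = δ / (4 K m ^ 2)`:
the colour `c < B` is read as `(c / m ^ 2, c / m % m, c % m) = (k, P, Q)` and `U i` consists of the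
`v ∈ V i` with `k = 0` (so the last colour is outside `U`); use `P = Q = m - 1` for the vertices
outside `V i`. The sets in (5) - (10) are unions of at most `K m ^ 2` colour classes; more
precisely of `m ^ 2`, `m`, `m`, `1`, `(K - 1) m`, `(K - 1) m` classes, so the error is at most
`(m ^ 2 + K m) (η n + B) ≤ δ n`. -/
def SplitStmt : Prop :=
  ∀ (K m : ℕ) (δ : ℝ), 2 ≤ K → 1 ≤ m → 0 < δ → δ ≤ 1 → ∀ (α : Type) [DecidableEq α] [Fintype α]
    (V : ZMod 3 → Finset α) (n : ℕ) (T : Finset (Finset α)), (∀ i, (V i).card = n) →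
    4 * (K : ℝ) ^ 2 * m ^ 4 ≤ δ * n →
    2 * ((K * m ^ 2 : ℕ) : ℝ) * T.card *
      Real.exp (-((δ / (4 * K * m ^ 2)) ^ 2 * ((n / (K * m ^ 2) : ℕ) : ℝ)) / 4) < 1 →
    ∃ (U : ZMod 3 → Finset α) (P Q : ZMod 3 → α → ℕ),
      (∀ i, U i ⊆ V i) ∧ (∀ i, (U i).card = m ^ 2 * (n / (K * m ^ 2))) ∧
      (∀ i x, P i x < m ∧ Q i x < m) ∧
      (∀ i a, ((U i).filter fun x => P i x = a).card ≤ m * (n / (K * m ^ 2)) ∧
        ((U i).filter fun x => Q i x = a).card ≤ m * (n / (K * m ^ 2))) ∧
      (∀ i a b, (((V i).filter fun x => x ∉ U i ∧ P i x = a ∧ Q i x = b).card : ℝ) ≤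
        n / m ^ 2 + K * m ^ 2) ∧
      (∀ i a, (((V i).filter fun x => P i x = a).card : ℝ) ≤ n / m + K * m ^ 2 ∧
        (((V i).filter fun x => Q i x = a).card : ℝ) ≤ n / m + K * m ^ 2) ∧
      ∀ i, ∀ S ∈ T, S ⊆ V i →
        |((S.filter fun x => x ∈ U i).card : ℝ) - S.card / K| ≤ δ * n ∧
        ∀ a < m, ∀ b < m,
          |((S.filter fun x => x ∈ U i ∧ P i x = a).card : ℝ) - S.card / (K * m)| ≤ δ * n ∧
          |((S.filter fun x => x ∈ U i ∧ Q i x = b).card : ℝ) - S.card / (K * m)| ≤ δ * n ∧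
          |((S.filter fun x => x ∈ U i ∧ P i x = a ∧ Q i x = b).card : ℝ) -
            S.card / (K * m ^ 2)| ≤ δ * n ∧
          |((S.filter fun x => x ∉ U i ∧ P i x = a).card : ℝ) -
            S.card * (K - 1) / (K * m)| ≤ δ * n ∧
          |((S.filter fun x => x ∉ U i ∧ Q i x = b).card : ℝ) -
            S.card * (K - 1) / (K * m)| ≤ δ * n

/-- **Vortex.** From `SplitStmt` and `CoverStmt` (helper68). -/
def VortexStmt : Prop :=
  ∀ ε : ℝ, 0 < ε → ε ≤ 1 / 5 → ∃ M n₀ : ℕ, ∀ (α : Type) [DecidableEq α] [Fintype α] (n : ℕ)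
    (V : ZMod 3 → Finset α) (G : Finset (Arc α)), n₀ ≤ n → (∀ i, (V i).card = n) →
    Inside V G → Bal G → (∀ i, ∀ x ∈ V i, (4 / 5 + ε) * n ≤ (outN G i x).card) →
    ∃ U : ZMod 3 → Finset α, (∀ i, (U i).card ≤ M) ∧ ∃ Z, Z ⊆ G ∧ DegLe Z (ε / 10 * n) ∧
      ∀ G', G' ⊆ G → Bal G' → Z ⊆ G' → DegLe (G \ G') (ε / 8 * n) →
        ∃ H, H ⊆ G' ∧ Dec H ∧ G' \ H ⊆ restr U G

/-- **One absorber.** For a balanced `H` there is a gadget `A` all of whose arcs have a fresh end
(outside `W`), with `A` and `A ∪ H` both decomposable. `G` is the set of available arcs.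

Proof. Balanced: the numbers of arcs of `H` of the kinds `0, 1, 2` (kind = first coordinate) are
all equal to some `N`. Hub `c` in class 2. For every arc `e = (0, x, y) ∈ H` a fresh `z e` in class 2,
for `e = (1, y, z) ∈ H` a fresh `x e` in class 0, for `e = (2, z, x) ∈ H` a fresh `y e` in class 1.
At a vertex `x` of class 0 pair the arcs `e = (0, x, y)` with the arcs `e' = (2, z, x)` by a
bijection (they are equally many), similarly at the vertices of classes 1 and 2. So every fresh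
vertex is paired with one fresh vertex of each other class; write `v₁ v₂` for paired vertices of
classes 0, 1 etc. Triangles
R1: `x y (z e)`, `(x e) y z`, `x (y e) z` for `e ∈ H` (cover `H` and the spokes);
A1: `x (z e) (y e')` for `e, e'` paired at `x`, similarly at `y`, `z` (cover the spokes and the
arcs between paired fresh vertices);
R2: `v₁ v₂ c` for paired `v₁` (class 0), `v₂` (class 1); `a v₂ v₃` for paired `v₂` (class 1),
`v₃` (class 2) with a new vertex `a = a v₃` of class 0; `b v₃ v₁` for paired `v₃, v₁` with a new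
vertex `b = b v₃` of class 1; `a b c` for every `v₃`;
A2: `v₂ a c`, `v₃ a b`, `v₁ b c`.
`A` is the union of the triangles in A1 and A2, they are pairwise disjoint; the triangles in R1 and
R2 are pairwise disjoint with union `A ∪ H`. Choose the new vertices in the order: hub, `z e`,
`y e`, `x e`, `a`, `b`; every new vertex must be adjacent (in `G`) to at most five earlier
vertices: `z e` to `x, y`; `y e` to `x, z`, its partner of class 2, the hub; `x e` to `y, z`, its
two partners, the hub; `a` to `v₂, v₃, c`; `b` to `v₃, v₁, c, a`. `ext` says that this is possible: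
any five constraints (some may be trivial) can be met outside a set of at most `f` vertices. -/
def AbsorbOneStmt : Prop :=
  ∀ (α : Type) [DecidableEq α] [Fintype α] (G H : Finset (Arc α)) (W : Finset α) (f N : ℕ),
    Bal H → H.card ≤ N → (∀ e ∈ H, e.2.1 ∈ W ∧ e.2.2 ∈ W) → W.card + 6 * N + 7 ≤ f →
    (∀ (i : ZMod 3) (S S' X : Finset α), S.card + S'.card ≤ 5 → X.card ≤ f →
      ∃ w, w ∉ X ∧ (∀ x ∈ S, (i + 2, x, w) ∈ G) ∧ (∀ x ∈ S', (i, w, x) ∈ G)) →
    ∃ A, A ⊆ G ∧ Dec A ∧ Dec (A ∪ H) ∧ Disjoint A H ∧ (∀ e ∈ A, e.2.1 ∉ W ∨ e.2.2 ∉ W) ∧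
      A.card ≤ 18 * N

/-- **Absorber for all leftovers.** From `AbsorbOneStmt`: treat the balanced `H ⊆ restr U G` one by
one; all of them have at most `N = 3 M ^ 2` arcs, there are at most `2 ^ N` of them. Available arcs:
`G \ Z \ restr U G` minus the arcs of earlier absorbers; let `W` contain the vertices of `U` and all
vertices used before, so the new absorber is disjoint from the earlier ones. Any five vertices have
at least `n - 5 (1/5 - ε) n - 5 ε n / 10 ≥ 4 ε n` common neighbours in the graph `G \ Z`, minus a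
constant. Only arcs with a fresh end are used, so `restr U G` is avoided. -/
def AbsorbStmt : Prop :=
  ∀ (M : ℕ) (ε : ℝ), 0 < ε → ε ≤ 1 / 5 → ∃ C n₀ : ℕ, ∀ (α : Type) [DecidableEq α] [Fintype α]
    (n : ℕ) (G Z : Finset (Arc α)) (U : ZMod 3 → Finset α), Fintype.card α = n → n₀ ≤ n →
    (∀ i, (U i).card ≤ M) →
    (∀ i x, (4 / 5 + ε) * n ≤ (outN G i x).card ∧ (4 / 5 + ε) * n ≤ (inN G i x).card) →
    DegLe Z (ε / 10 * n) →
    ∃ A, A ⊆ G ∧ Disjoint A Z ∧ Disjoint A (restr U G) ∧ DegLe A C ∧ Dec A ∧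
      ∀ H, H ⊆ restr U G → Bal H → Dec (H ∪ A)

/-- **Main theorem**, from `VortexStmt` and `AbsorbStmt`. -/
def MainStmt : Prop :=
  ∀ ε : ℝ, 0 < ε → ∃ n₀ : ℕ, ∀ n : ℕ, n₀ ≤ n → ∀ G : Finset (Arc (Fin n)), Bal G →
    (∀ i x, (4 / 5 + ε) * n ≤ (outN G i x).card) → Dec G

/-- **Partial Latin squares**, from `MainStmt`. Arcs: `(0, r, c)` empty cells, `(1, c, s)` symbols
missing in a column, `(2, s, r)` symbols missing in a row. -/
def PlsStmt : Prop :=
  ∀ ε : ℝ, 0 < ε → ∃ n₀ : ℕ, ∀ n : ℕ, n₀ ≤ n → ∀ L : Fin n → Fin n → Option (Fin n),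
    (∀ r c c' s, L r c = some s → L r c' = some s → c = c') →
    (∀ r r' c s, L r c = some s → L r' c = some s → r = r') →
    (∀ r, ((univ.filter fun c => (L r c).isSome).card : ℝ) ≤ (1 / 5 - ε) * n) →
    (∀ c, ((univ.filter fun r => (L r c).isSome).card : ℝ) ≤ (1 / 5 - ε) * n) →
    (∀ s, ((univ.filter fun p : Fin n × Fin n => L p.1 p.2 = some s).card : ℝ) ≤
      (1 / 5 - ε) * n) →
    ∃ M : Fin n → Fin n → Fin n, (∀ r, Function.Injective (M r)) ∧
      (∀ c, Function.Injective fun r => M r c) ∧ ∀ r c s, L r c = some s → M r c = s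

end Pool.Agent.Lib.MP_cb9986_co.S9
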