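import Pool.Agent.Lib.MP_cb9986_co.Gen

/-!
The fractional decomposition of `tri5` is spread: every triangle has weight at most `15 / n`.
-/

set_option autoImplicit false
open Finset

namespace Pool.Agent.Lib.MP_cb9986_co

variable {n : ℕ}

theorem lam_le_half {u : W n} (hu : ∀ x y, 0 ≤ u x y) (x : Fin n) : lam u x ≤ 1 / 2 := by
  unfold lam pp
  have : 0 ≤ ∑ z, u x z := Finset.sum_nonneg fun z _ => hu x z
  linarith

theorem u_max {g0 g1 g2 u0 u1 u2 : W n} {k e : ℝ} (H : Hyp k g0 g1 g2) (he : 0 ≤ e)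
    (hk : 4 * k < n) (S : Sol e g0 g1 g2 u0 u1 u2)
    (p0 : ∀ x y, 0 ≤ u0 x y) (p1 : ∀ x y, 0 ≤ u1 x y)
    {x y : Fin n} (m1 : ∀ a b, u1 a b ≤ u0 x y) (m2 : ∀ a b, u2 a b ≤ u0 x y) :
    (n - 4 * k) * u0 x y ≤ 1 := by
  rcases H.z0 x y with h | hl
  · rw [S.s0 x y h]; norm_num
  have h1 := edge H S hl
  have hF : FF g1 g2 u1 u2 x y ≤ 2 * k * u0 x y := by
    have e1 : ∑ z, (1 - g2 z x) * u1 y z ≤ k * u0 x y := by
      calc ∑ z, (1 - g2 z x) * u1 y z ≤ ∑ z, (1 - g2 z x) * u0 x y :=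
            Finset.sum_le_sum fun z _ =>
              mul_le_mul_of_nonneg_left (m1 y z) (by linarith [zo_le (H.z2 z x)])
        _ = (∑ z, (1 - g2 z x)) * u0 x y := by rw [Finset.sum_mul]
        _ ≤ k * u0 x y := mul_le_mul_of_nonneg_right ((codeg H).2 x) (p0 x y)
    have e2 : ∑ z, (1 - g1 y z) * u2 z x ≤ k * u0 x y := by
      calc ∑ z, (1 - g1 y z) * u2 z x ≤ ∑ z, (1 - g1 y z) * u0 x y :=
            Finset.sum_le_sum fun z _ =>
              mul_le_mul_of_nonneg_left (m2 z x) (by linarith [zo_le (H.z1 y z)])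
        _ = (∑ z, (1 - g1 y z)) * u0 x y := by rw [Finset.sum_mul]
        _ ≤ k * u0 x y := mul_le_mul_of_nonneg_right ((codeg H.rot).1 y) (p0 x y)
    unfold FF
    linarith
  have hN := NN_ge H x y
  have l0 := lam_le_half p0 x
  have l1 := lam_le_half p1 y
  have h2 : (NN g1 g2 x y + e - 2 * k) * u0 x y ≤ 1 := by linarith
  have h3 : (n - 4 * k) * u0 x y ≤ (NN g1 g2 x y + e - 2 * k) * u0 x y :=
    mul_le_mul_of_nonneg_right (by linarith) (p0 x y)
  linarith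

theorem u_spread {g0 g1 g2 u0 u1 u2 : W n} {k e : ℝ} (H : Hyp k g0 g1 g2) (he : 0 ≤ e)
    (hk : 4 * k < n) (hn : 0 < n) (S : Sol e g0 g1 g2 u0 u1 u2)
    (l0 : ∀ x y, 0 ≤ u0 x y) (l1 : ∀ x y, 0 ≤ u1 x y) (l2 : ∀ x y, 0 ≤ u2 x y) :
    (∀ x y, (n - 4 * k) * u0 x y ≤ 1) ∧ (∀ x y, (n - 4 * k) * u1 x y ≤ 1) ∧
      (∀ x y, (n - 4 * k) * u2 x y ≤ 1) := by
  have hne : Nonempty (Fin n × Fin n) := ⟨(⟨0, hn⟩, ⟨0, hn⟩)⟩
  obtain ⟨p0, h0⟩ := Finite.exists_max (fun p : Fin n × Fin n => u0 p.1 p.2)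
  obtain ⟨p1, h1⟩ := Finite.exists_max (fun p : Fin n × Fin n => u1 p.1 p.2)
  obtain ⟨p2, h2⟩ := Finite.exists_max (fun p : Fin n × Fin n => u2 p.1 p.2)
  have q0 : ∀ a b, u0 a b ≤ u0 p0.1 p0.2 := fun a b => h0 (a, b)
  have q1 : ∀ a b, u1 a b ≤ u1 p1.1 p1.2 := fun a b => h1 (a, b)
  have q2 : ∀ a b, u2 a b ≤ u2 p2.1 p2.2 := fun a b => h2 (a, b)
  have hc : 0 < (n : ℝ) - 4 * k := by linarith
  have mono : ∀ {s t : ℝ}, s ≤ t → (n - 4 * k) * t ≤ 1 → (n - 4 * k) * s ≤ 1 := by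
    intro s t hst ht
    exact (mul_le_mul_of_nonneg_left hst hc.le).trans ht
  have key : (n - 4 * k) * u0 p0.1 p0.2 ≤ 1 ∧ (n - 4 * k) * u1 p1.1 p1.2 ≤ 1 ∧
      (n - 4 * k) * u2 p2.1 p2.2 ≤ 1 := by
    rcases le_total (u1 p1.1 p1.2) (u0 p0.1 p0.2) with h01 | h01
    · rcases le_total (u2 p2.1 p2.2) (u0 p0.1 p0.2) with h02 | h02
      · have := u_max H he hk S l0 l1 (fun a b => (q1 a b).trans h01)
          (fun a b => (q2 a b).trans h02)
        exact ⟨this, mono h01 this, mono h02 this⟩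
      · have := u_max H.rot.rot he hk S.rot.rot l2 l0 (fun a b => (q0 a b).trans h02)
          (fun a b => (q1 a b).trans (h01.trans h02))
        exact ⟨mono h02 this, mono (h01.trans h02) this, this⟩
    · rcases le_total (u2 p2.1 p2.2) (u1 p1.1 p1.2) with h12 | h12
      · have := u_max H.rot he hk S.rot l1 l2 (fun a b => (q2 a b).trans h12)
          (fun a b => (q0 a b).trans h01)
        exact ⟨mono h01 this, this, mono h12 this⟩
      · have := u_max H.rot.rot he hk S.rot.rot l2 l0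
          (fun a b => (q0 a b).trans (h01.trans h12)) (fun a b => (q1 a b).trans h12)
        exact ⟨mono (h01.trans h12) this, mono h12 this, this⟩
  exact ⟨fun x y => mono (q0 x y) key.1, fun x y => mono (q1 x y) key.2.1,
    fun x y => mono (q2 x y) key.2.2⟩

/-- Spread fractional triangle decompositions. -/
theorem tri5s {g0 g1 g2 : W n} {k : ℝ} (H : Hyp k g0 g1 g2) (hk0 : 0 ≤ k)
    (h5 : 5 * k ≤ n) (hn : 0 < n) (hD : 2 * DD k g0 ≤ k ^ 2) :
    ∃ w : Fin n → Fin n → Fin n → ℝ, IsDecomp g0 g1 g2 w ∧ ∀ x y z, w x y z ≤ 15 / n := by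
  obtain ⟨u, S, hmn⟩ := exists_limit H hk0 h5 hn hD
  have hp := mn_pos H hk0 h5 hn le_rfl hD S hmn
  have l0 : ∀ x, 0 < lam u.1 x := fun x => (hp x).trans_le (min_le_left _ _)
  have l1 : ∀ x, 0 < lam u.2.1 x := fun x =>
    (hp x).trans_le ((min_le_right _ _).trans (min_le_left _ _))
  have l2 : ∀ x, 0 < lam u.2.2 x := fun x =>
    (hp x).trans_le ((min_le_right _ _).trans (min_le_right _ _))
  have hnR : (0 : ℝ) < n := by exact_mod_cast hn
  obtain ⟨h0, h1, h2⟩ := u_nonneg H le_rfl (by linarith) hn S (fun x => (l0 x).le)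
    (fun x => (l1 x).le) (fun x => (l2 x).le)
  obtain ⟨s0, s1, s2⟩ := u_spread H le_rfl (by linarith) hn S h0 h1 h2
  have hb : ∀ t : ℝ, 0 ≤ t → (n - 4 * k) * t ≤ 1 → t ≤ 5 / n := by
    intro t ht0 ht
    rw [le_div_iff₀ hnR]
    have : (n : ℝ) / 5 * t ≤ (n - 4 * k) * t := mul_le_mul_of_nonneg_right (by linarith) ht0
    linarith
  refine ⟨fun x y z => g0 x y * g1 y z * g2 z x * (u.1 x y + u.2.1 y z + u.2.2 z x),
    ⟨?_, ?_, ?_, ?_, ?_⟩, ?_⟩
  · intro x y z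
    have e0 := zo_nonneg (H.z0 x y)
    have e1 := zo_nonneg (H.z1 y z)
    have e2 := zo_nonneg (H.z2 z x)
    have f0 := h0 x y
    have f1 := h1 y z
    have f2 := h2 z x
    positivity
  · rintro x y z (h | h | h) <;> simp [h]
  · intro x y hx
    have h := S.e0 x y hx
    rw [zero_mul, add_zero] at h
    rw [← h, XX]
    refine Finset.sum_congr rfl fun z _ => ?_
    simp only [hx]; ring
  · intro y z hx
    have h := S.e1 y z hx
    rw [zero_mul, add_zero] at h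
    rw [← h, XX]
    refine Finset.sum_congr rfl fun x _ => ?_
    simp only [hx]; ring
  · intro z x hx
    have h := S.e2 z x hx
    rw [zero_mul, add_zero] at h
    rw [← h, XX]
    refine Finset.sum_congr rfl fun y _ => ?_
    simp only [hx]; ring
  · intro x y z
    have f0 := h0 x y
    have f1 := h1 y z
    have f2 := h2 z x
    have b0 := hb _ f0 (s0 x y)
    have b1 := hb _ f1 (s1 y z)
    have b2 := hb _ f2 (s2 z x)
    have e : (15 : ℝ) / n = 5 / n + 5 / n + 5 / n := by ring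
    have hle : g0 x y * g1 y z * g2 z x ≤ 1 := by
      rcases H.z0 x y with h | h <;> rcases H.z1 y z with h' | h' <;>
        rcases H.z2 z x with h'' | h'' <;> rw [h, h', h''] <;> norm_num
    calc g0 x y * g1 y z * g2 z x * (u.1 x y + u.2.1 y z + u.2.2 z x) ≤
          1 * (u.1 x y + u.2.1 y z + u.2.2 z x) :=
          mul_le_mul_of_nonneg_right hle (by linarith)
      _ ≤ 15 / n := by rw [e]; linarith

end Pool.Agent.Lib.MP_cb9986_co
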