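import Pool.Agent.Lib.MP_cb9986_co.S9.NibCore
import Pool.Agent.Lib.MP_cb9986_co.S9.Spread
import Pool.Agent.Lib.MP_cb9986_co.S9.Spec

/-!
Approximate decompositions on `Fin n`.
-/

set_option autoImplicit false
set_option linter.unusedSectionVars false
open Finset

namespace Pool.Agent.Lib.MP_cb9986_co.S9

section general

variable {α : Type} [DecidableEq α] [Fintype α]

theorem sum_chi_in (S : Finset (Arc α)) (i : ZMod 3) (x : α) :
    ∑ y, chi S (i + 2) y x = (inN S i x).card := by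
  unfold chi inN
  rw [Finset.sum_boole]

/-- For balanced graphs all three kinds have the same number of arcs. -/
theorem cnt_bal {G : Finset (Arc α)} (hG : Bal G) (i : ZMod 3) :
    ∑ x, ∑ u, chi G i x u = ∑ x, ∑ u, chi G 0 x u := by
  have h : ∀ i, ∑ x, ∑ u, chi G (i + 2) x u = ∑ x, ∑ u, chi G i x u := by
    intro i
    rw [Finset.sum_comm]
    refine Finset.sum_congr rfl fun x _ => ?_
    rw [sum_chi_in, sum_chi, hG i x]
  have hi : i = 0 ∨ i = 1 ∨ i = 2 := by revert i; decide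
  rcases hi with rfl | rfl | rfl
  · rfl
  · rw [← h 1]; rfl
  · rw [← h 0]; rfl

/-- The random greedy algorithm, conclusion. -/
theorem nib_core {γ : ℝ} (hγ : 0 < γ) (hγ1 : γ ≤ 1 / 10) : ∃ n₁ : ℕ, ∀ n : ℕ, n₁ ≤ n →
    ∀ (G : Finset (Arc (Fin n))) (ω : ZMod 3 → Fin n → Fin n → Fin n → ℝ), Bal G →
    Wt ω (15 / n) → (∀ i x u, (i, x, u) ∈ G → dd ω G i x u = 1) →
    (∀ i x, (7 / 10 : ℝ) * n ≤ (outN G i x).card) →
    ∃ H, H ⊆ G ∧ Dec H ∧ DegLe (G \ H) (3 * γ * n) := by
  obtain ⟨C, hC⟩ : ∃ C : ℝ, C = 12 * Real.exp 4000 * 720 / (γ ^ 13) ^ 6 := ⟨_, rfl⟩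
  have hγ13 : 0 < γ ^ 13 := by positivity
  refine ⟨⌈C + 100 / γ ^ 13 + 100000⌉₊ + 1, fun n hn G ω hG hω hdd hdeg => ?_⟩
  have hnR : C + 100 / γ ^ 13 + 100000 < n := by
    have h1 := Nat.le_ceil (C + 100 / γ ^ 13 + 100000)
    have h2 : ((⌈C + 100 / γ ^ 13 + 100000⌉₊ + 1 : ℕ) : ℝ) ≤ n := by exact_mod_cast hn
    push_cast at h2
    linarith
  have hC0 : 0 < C := by rw [hC]; positivity
  have h100 : 0 < 100 / γ ^ 13 := by positivity
  have hn0 : (0 : ℝ) < n := by linarith
  have hnC : C < n := by linarith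
  have hn100 : 100 < n * γ ^ 13 := by
    have : 100 / γ ^ 13 < n := by linarith
    rwa [div_lt_iff₀ hγ13] at this
  have hn5 : (100000 : ℝ) < n := by linarith
  have hγ13γ : γ ^ 13 ≤ γ := by
    calc γ ^ 13 ≤ γ ^ 1 := pow_le_pow_of_le_one hγ.le (by linarith) (by norm_num)
      _ = γ := pow_one γ
  obtain ⟨N, hN⟩ : ∃ N, N = ∑ x, ∑ u, chi G 0 x u := ⟨_, rfl⟩
  have hcnt : ∀ i, ∑ x, ∑ u, chi G i x u = N := fun i => by rw [cnt_bal hG i, hN]
  have hNl : 7 / 10 * (n : ℝ) * n ≤ N := by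
    rw [hN]
    simp_rw [sum_chi]
    calc 7 / 10 * (n : ℝ) * n = ∑ x : Fin n, 7 / 10 * (n : ℝ) := by
          rw [Finset.sum_const, Finset.card_univ, Fintype.card_fin, nsmul_eq_mul]; ring
      _ ≤ _ := Finset.sum_le_sum fun x _ => hdeg 0 x
  have hNu : N ≤ n * n := by
    rw [hN]
    simp_rw [sum_chi]
    calc ∑ x, ((outN G 0 x).card : ℝ) ≤ ∑ x : Fin n, (n : ℝ) := Finset.sum_le_sum fun x _ => by
          have := Finset.card_le_univ (outN G 0 x)
          rw [Fintype.card_fin] at this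
          exact_mod_cast this
      _ = n * n := by rw [Finset.sum_const, Finset.card_univ, Fintype.card_fin, nsmul_eq_mul]
  have hNn : 70000 * n ≤ N := by nlinarith
  have hN0 : 0 < N := by nlinarith
  obtain ⟨L, hL⟩ : ∃ L, L = Real.sqrt n := ⟨_, rfl⟩
  have hL2 : L ^ 2 = n := by rw [hL]; exact Real.sq_sqrt hn0.le
  have hL0 : 0 < L := by rw [hL]; exact Real.sqrt_pos.2 hn0
  have hL31 : 31 ≤ L := by
    by_contra hc
    push Not at hc
    nlinarith
  have P : Par (Fin n) ω n N γ L := by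
    refine ⟨hω, hn0, hN0, hγ, hγ1, hL0, hL2, by simp, ?_, ?_, ?_, by linarith⟩
    · have h1 : 100 < n * γ := lt_of_lt_of_le hn100 (mul_le_mul_of_nonneg_left hγ13γ hn0.le)
      nlinarith
    · rw [div_le_iff₀ hN0]
      have h1 : (n : ℝ) * γ ^ 13 ≤ N * γ ^ 13 :=
        mul_le_mul_of_nonneg_right (by linarith) hγ13.le
      linarith
    · have h1 : 50 / N ≤ 1 / n := by
        rw [div_le_div_iff₀ hN0 hn0]; linarith
      have h2 : L * (50 / N + 30 / n) ≤ L * (31 / n) := by
        refine mul_le_mul_of_nonneg_left ?_ hL0.le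
        have : (31 : ℝ) / n = 1 / n + 30 / n := by ring
        linarith
      refine h2.trans ?_
      rw [← hL2, ← mul_div_assoc, div_le_one (by positivity)]
      nlinarith
  have hE0 : ∀ i x u, (i, x, u) ∈ G → ∀ σ : ℝ, Et ω L (γ ^ 13) G 1 σ i x u =
      Real.exp (-(L * γ ^ 13)) := by
    intro i x u h σ
    unfold Et
    rw [hdd i x u h]
    congr 1; ring
  have hV0 : ∀ i x (σ : ℝ), Vt G n L (γ ^ 13) G 1 σ i x = Real.exp (-(L * γ ^ 13)) := by
    intro i x σ
    unfold Vt
    congr 1; ring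
  have hFF : FF ω G n L (γ ^ 13) G 1 = 6 * (N + n) * Real.exp (-(L * γ ^ 13)) := by
    have h1 : ∀ i, Fe ω L (γ ^ 13) G 1 i = N * (2 * Real.exp (-(L * γ ^ 13))) := by
      intro i
      unfold Fe
      rw [← hcnt i, Finset.sum_mul]
      refine Finset.sum_congr rfl fun x _ => ?_
      rw [Finset.sum_mul]
      refine Finset.sum_congr rfl fun u _ => ?_
      by_cases h : (i, x, u) ∈ G
      · rw [hE0 i x u h, hE0 i x u h, two_mul]
      · rw [chi_of_not_mem h]; ring
    have h2 : ∀ i, Fv G n L (γ ^ 13) G 1 i = n * (2 * Real.exp (-(L * γ ^ 13))) := by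
      intro i
      unfold Fv
      simp_rw [hV0]
      rw [Finset.sum_const, Finset.card_univ, Fintype.card_fin, nsmul_eq_mul]
      ring
    unfold FF
    simp_rw [h1, h2]
    rw [Finset.sum_const, Finset.card_univ, ZMod.card, nsmul_eq_mul]
    push_cast; ring
  have hF : FF ω G n L (γ ^ 13) G 1 * Real.exp 4000 < 1 := by
    rw [hFF]
    have h1 : 6 * (N + n) ≤ 12 * (n : ℝ) ^ 2 := by nlinarith
    have h2 : (L * γ ^ 13) ^ 6 / 720 ≤ Real.exp (L * γ ^ 13) := by
      have := Real.pow_div_factorial_le_exp (L * γ ^ 13) (by positivity) 6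
      simpa [Nat.factorial] using this
    have h3 : Real.exp (-(L * γ ^ 13)) ≤ 720 / (L * γ ^ 13) ^ 6 := by
      rw [Real.exp_neg, ← one_div, ← one_div_div ((L * γ ^ 13) ^ 6) 720]
      exact one_div_le_one_div_of_le (by positivity) h2
    have h4 : (L * γ ^ 13) ^ 6 = (n : ℝ) ^ 3 * (γ ^ 13) ^ 6 := by
      rw [mul_pow, ← hL2]; ring
    rw [h4] at h3
    calc 6 * (N + n) * Real.exp (-(L * γ ^ 13)) * Real.exp 4000 ≤
          12 * (n : ℝ) ^ 2 * (720 / ((n : ℝ) ^ 3 * (γ ^ 13) ^ 6)) * Real.exp 4000 := by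
          gcongr
      _ = C / n := by rw [hC]; field_simp
      _ < 1 := by rwa [div_lt_one hn0]
  obtain ⟨t, ht⟩ : ∃ t : ℕ, t = ⌊(1 - γ) * N⌋₊ := ⟨_, rfl⟩
  have hpos : 0 ≤ (1 - γ) * N := mul_nonneg (by linarith) hN0.le
  have ht1 : (t : ℝ) ≤ (1 - γ) * N := by rw [ht]; exact Nat.floor_le hpos
  have ht2 : (1 - γ) * N < t + 1 := by rw [ht]; exact Nat.lt_floor_add_one _
  have hp : γ ≤ 1 - t / N := by
    have : (t : ℝ) / N ≤ 1 - γ := by rwa [div_le_iff₀ hN0]
    linarith
  have hp2 : 1 - t / N ≤ γ + 1 / N := by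
    have : 1 - γ ≤ (t + 1) / N := by rw [le_div_iff₀ hN0]; linarith
    rw [add_div] at this
    linarith
  obtain ⟨H, hHG, hH, hc, hFH⟩ := nib_iter P hcnt hF t hp
  refine ⟨H, hHG, hH, ?_⟩
  have hlt : FF ω G n L (γ ^ 13) (G \ H) (1 - t / N) < 1 := by
    refine lt_of_le_of_lt hFH (lt_of_le_of_lt ?_ hF)
    rw [mul_comm (FF ω G n L (γ ^ 13) G 1)]
    refine mul_le_mul_of_nonneg_right ?_ (by rw [hFF]; positivity)
    have h1 : 1 + 4000 / N ≤ Real.exp (4000 / N) := by
      have := Real.add_one_le_exp (4000 / N); linarith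
    have h2 := pow_le_pow_left₀ (by positivity) h1 t
    refine h2.trans ?_
    rw [← Real.exp_nat_mul, Real.exp_le_exp]
    calc (t : ℝ) * (4000 / N) ≤ N * (4000 / N) :=
          mul_le_mul_of_nonneg_right (by nlinarith) (by positivity)
      _ = 4000 := by field_simp
  have hr := FF_rr hL0 hn0 hlt
  obtain ⟨p, hpd⟩ : ∃ p, p = 1 - t / N := ⟨_, rfl⟩
  rw [← hpd] at hr hp hp2
  have hp0 : 0 < p := by linarith
  have hγN : 1 / N ≤ γ := by
    rw [div_le_iff₀ hN0]
    have := P.big1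
    linarith
  have hout : ∀ i x, ((outN (G \ H) i x).card : ℝ) ≤ 3 * γ * n := by
    intro i x
    have h1 := (abs_le.1 (hr i x)).2
    have h2 : γ ^ 13 / p ^ 12 ≤ γ := by
      rw [div_le_iff₀ (by positivity)]
      calc γ ^ 13 = γ * γ ^ 12 := by ring
        _ ≤ γ * p ^ 12 := mul_le_mul_of_nonneg_left (pow_le_pow_left₀ hγ.le hp 12) hγ.le
    have h3 : γ ^ 13 / p ^ 12 * n ≤ γ * n := mul_le_mul_of_nonneg_right h2 hn0.le
    have h4 : ((outN G i x).card : ℝ) ≤ n := by
      have := Finset.card_le_univ (outN G i x)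
      rw [Fintype.card_fin] at this
      exact_mod_cast this
    have h5 : p * (outN G i x).card ≤ (2 * γ) * n :=
      mul_le_mul (by linarith) h4 (Nat.cast_nonneg _) (by linarith)
    linarith
  have hbal : Bal (G \ H) := hG.sdiff hH.bal hHG
  intro i x
  refine ⟨hout i x, ?_⟩
  rw [← hbal i x]
  exact hout i x

end general

/-- The bipartite graphs of a balanced graph. -/
theorem hyp_of_bal {n k : ℕ} {G : Finset (Arc (Fin n))} (hG : Bal G)
    (hd : ∀ i x, n - k ≤ (outN G i x).card) :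
    Hyp (k : ℝ) (chi G 0) (chi G 1) (chi G 2) := by
  have zo : ∀ i x y, chi G i x y = 0 ∨ chi G i x y = 1 := by
    intro i x y
    unfold chi
    split_ifs
    · exact Or.inr rfl
    · exact Or.inl rfl
  have hd' : ∀ i x, (n : ℝ) - k ≤ ∑ y, chi G i x y := by
    intro i x
    rw [sum_chi]
    have := hd i x
    have h2 : n ≤ (outN G i x).card + k := by omega
    have h3 : (n : ℝ) ≤ (outN G i x).card + k := by exact_mod_cast h2
    linarith
  have e1 : (1 : ZMod 3) + 2 = 0 := by decide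
  have e2 : (2 : ZMod 3) + 2 = 1 := by decide
  have e0 : (0 : ZMod 3) + 2 = 2 := by decide
  refine ⟨zo 0, zo 1, zo 2, ?_, ?_, ?_, hd' 0, hd' 1, hd' 2⟩
  · intro x
    have := sum_chi_in G 0 x
    rw [e0] at this
    rw [this, sum_chi, hG 0 x]
  · intro x
    have := sum_chi_in G 1 x
    rw [e1] at this
    rw [this, sum_chi, hG 1 x]
  · intro x
    have := sum_chi_in G 2 x
    rw [e2] at this
    rw [this, sum_chi, hG 2 x]

/-- Greedy removal of triangles on vertices of too large degree. -/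
theorem greedy_top {n k : ℕ} (hkn : k ≤ n) : ∀ (m : ℕ) (G : Finset (Arc (Fin n))),
    G.card = m → Bal G → (∀ i x, n - k ≤ (outN G i x).card) →
    ∃ H, H ⊆ G ∧ Dec H ∧ (∀ i x, n - k ≤ (outN (G \ H) i x).card) ∧
      ∀ x y z, 0 < dl k (chi (G \ H) 0) x → 0 < dl k (chi (G \ H) 1) y →
        0 < dl k (chi (G \ H) 2) z →
        chi (G \ H) 0 x y = 0 ∨ chi (G \ H) 1 y z = 0 ∨ chi (G \ H) 2 z x = 0 := by
  intro m
  induction m using Nat.strong_induction_on with
  | _ m ih =>
    intro G hm hG hd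
    by_cases hmax : ∀ x y z, 0 < dl k (chi G 0) x → 0 < dl k (chi G 1) y →
        0 < dl k (chi G 2) z → chi G 0 x y = 0 ∨ chi G 1 y z = 0 ∨ chi G 2 z x = 0
    · exact ⟨∅, Finset.empty_subset _, Dec.empty, by simpa using hd, by simpa using hmax⟩
    · push Not at hmax
      obtain ⟨x, y, z, d0, d1, d2, e0, e1, e2⟩ := hmax
      have m0 : (0, x, y) ∈ G := by by_contra h; exact e0 (chi_of_not_mem h)
      have m1 : (1, y, z) ∈ G := by by_contra h; exact e1 (chi_of_not_mem h)
      have m2 : (2, z, x) ∈ G := by by_contra h; exact e2 (chi_of_not_mem h)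
      have hT : tri 0 x y z ⊆ G := by
        intro e he
        rw [mem_tri] at he
        rcases he with rfl | rfl | rfl
        · exact m0
        · exact m1
        · exact m2
      have dlp : ∀ i v, 0 < dl k (chi G i) v → n - k + 1 ≤ (outN G i v).card := by
        intro i v h
        unfold dl at h
        rw [sum_chi] at h
        have h2 : (n : ℝ) < k + (outN G i v).card := by linarith
        have h3 : n < k + (outN G i v).card := by exact_mod_cast h2
        omega
      have hd' : ∀ i v, n - k ≤ (outN (G \ tri 0 x y z) i v).card := by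
        have out : ∀ (i : ZMod 3) (a b c : Fin n), (i, a, b) ∈ G → 0 < dl k (chi G i) a →
            ∀ v, n - k ≤ (outN (G \ tri i a b c) i v).card := by
          intro i a b c h hdl v
          have h1 := out_sdiff_tri (c := c) h v
          by_cases hv : a = v
          · subst hv
            rw [if_pos rfl] at h1
            have h2 := dlp i a hdl
            have h3 : ((outN (G \ tri i a b c) i a).card : ℝ) + 1 = (outN G i a).card := by
              linarith
            have h4 : (outN (G \ tri i a b c) i a).card + 1 = (outN G i a).card := by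
              exact_mod_cast h3
            omega
          · rw [if_neg hv, sub_zero] at h1
            have h4 : (outN (G \ tri i a b c) i v).card = (outN G i v).card := by
              exact_mod_cast h1
            rw [h4]; exact hd i v
        intro i v
        have hi : i = 0 ∨ i = 0 + 1 ∨ i = 0 + 1 + 1 := by revert i; decide
        rcases hi with rfl | rfl | rfl
        · exact out 0 x y z m0 d0 v
        · rw [← tri_rot]; exact out (0 + 1) y z x m1 d1 v
        · rw [← tri_rot, ← tri_rot]; exact out (0 + 1 + 1) z x y m2 d2 v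
      have hlt : (G \ tri 0 x y z).card < m := by
        rw [← hm]
        refine Finset.card_lt_card ⟨Finset.sdiff_subset, fun h => ?_⟩
        have := h m0
        simp at this
      obtain ⟨H, hH1, hH2, hH3, hH4⟩ := ih _ hlt (G \ tri 0 x y z) rfl
        (hG.sdiff (bal_tri 0 x y z) hT) hd'
      have hset : G \ (tri 0 x y z ∪ H) = (G \ tri 0 x y z) \ H := by
        ext e; simp only [Finset.mem_sdiff, Finset.mem_union]; tauto
      refine ⟨tri 0 x y z ∪ H, Finset.union_subset hT (hH1.trans Finset.sdiff_subset),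
        Dec.add 0 x y z H hH2 ?_, ?_, ?_⟩
      · rw [Finset.disjoint_left]
        intro e he he'
        exact (Finset.mem_sdiff.1 (hH1 he')).2 he
      · rw [hset]; exact hH3
      · rw [hset]; exact hH4

theorem nibFin : NibFinStmt := by
  intro γ hγ
  obtain ⟨γ', hγ'⟩ : ∃ γ', γ' = min (γ / 3) (1 / 10) := ⟨_, rfl⟩
  have hγ'0 : 0 < γ' := by rw [hγ']; exact lt_min (by linarith) (by norm_num)
  have hγ'1 : γ' ≤ 1 / 10 := by rw [hγ']; exact min_le_right _ _
  have hγ'2 : 3 * γ' ≤ γ := by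
    have : γ' ≤ γ / 3 := by rw [hγ']; exact min_le_left _ _
    linarith
  obtain ⟨n₁, hn₁⟩ := nib_core hγ'0 hγ'1
  refine ⟨max n₁ 10, fun n hn G hG hdeg => ?_⟩
  have hn1 : n₁ ≤ n := (le_max_left _ _).trans hn
  have hn10 : 10 ≤ n := (le_max_right _ _).trans hn
  have hnpos : 0 < n := by omega
  obtain ⟨k, hk⟩ : ∃ k, k = n / 5 := ⟨_, rfl⟩
  have h5 : 5 * k ≤ n := by omega
  have hd : ∀ i x, n - k ≤ (outN G i x).card := by
    intro i x
    have h1 := hdeg i x
    have h2 : (4 * n : ℝ) ≤ 5 * (outN G i x).card := by linarith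
    have h3 : 4 * n ≤ 5 * (outN G i x).card := by exact_mod_cast h2
    omega
  obtain ⟨H₀, h1, h2, h3, h4⟩ := greedy_top (k := k) (by omega) G.card G rfl hG hd
  obtain ⟨G₁, hG₁⟩ : ∃ G₁, G₁ = G \ H₀ := ⟨_, rfl⟩
  rw [← hG₁] at h3 h4
  have hbal : Bal G₁ := by rw [hG₁]; exact hG.sdiff h2.bal h1
  have H := hyp_of_bal hbal h3
  have h5' : 5 * (k : ℝ) ≤ n := by exact_mod_cast h5
  obtain ⟨w, hw, hspread⟩ := tri5s H (Nat.cast_nonneg k) h5' hnpos (deficit H hnpos h4)
  obtain ⟨ω, hω⟩ : ∃ ω : ZMod 3 → Fin n → Fin n → Fin n → ℝ, ω = fun i a b c =>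
    if i = 0 then w a b c else if i = 1 then w c a b else w b c a := ⟨_, rfl⟩
  have ω0 : ∀ a b c, ω 0 a b c = w a b c := by intro a b c; rw [hω]; rfl
  have ω1 : ∀ a b c, ω 1 a b c = w c a b := by intro a b c; rw [hω]; rfl
  have ω2 : ∀ a b c, ω 2 a b c = w b c a := by intro a b c; rw [hω]; rfl
  have hWt : Wt ω (15 / n) := by
    refine ⟨?_, ?_, ?_⟩
    · intro i a b c
      rw [hω]; simp only
      split_ifs <;> exact hw.nonneg _ _ _
    · intro i a b c
      rw [hω]; simp only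
      split_ifs <;> exact hspread _ _ _
    · intro i a b c
      have hi : i = 0 ∨ i = 1 ∨ i = 2 := by revert i; decide
      have q0 : (0 : ZMod 3) + 1 = 1 := by decide
      have q1 : (1 : ZMod 3) + 1 = 2 := by decide
      have q2 : (2 : ZMod 3) + 1 = 0 := by decide
      rcases hi with rfl | rfl | rfl
      · rw [q0, ω0, ω1]
      · rw [q1, ω1, ω2]
      · rw [q2, ω2, ω0]
  have supp : ∀ a b c, w a b c * chi G₁ 0 a b = w a b c ∧ w a b c * chi G₁ 1 b c = w a b c ∧
      w a b c * chi G₁ 2 c a = w a b c := by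
    intro a b c
    refine ⟨?_, ?_, ?_⟩
    · rcases H.z0 a b with h | h
      · rw [hw.dead a b c (Or.inl h), zero_mul]
      · rw [h, mul_one]
    · rcases H.z1 b c with h | h
      · rw [hw.dead a b c (Or.inr (Or.inl h)), zero_mul]
      · rw [h, mul_one]
    · rcases H.z2 c a with h | h
      · rw [hw.dead a b c (Or.inr (Or.inr h)), zero_mul]
      · rw [h, mul_one]
  have hdd : ∀ i x u, (i, x, u) ∈ G₁ → dd ω G₁ i x u = 1 := by
    intro i x u h
    have hi : i = 0 ∨ i = 1 ∨ i = 2 := by clear h; revert i; decide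
    have q0 : (0 : ZMod 3) + 1 = 1 := by decide
    have q1 : (1 : ZMod 3) + 1 = 2 := by decide
    have q2 : (2 : ZMod 3) + 1 = 0 := by decide
    have r0 : (0 : ZMod 3) + 2 = 2 := by decide
    have r1 : (1 : ZMod 3) + 2 = 0 := by decide
    have r2 : (2 : ZMod 3) + 2 = 1 := by decide
    unfold dd
    rcases hi with rfl | rfl | rfl
    · rw [← hw.s0 x u (chi_of_mem h)]
      refine Finset.sum_congr rfl fun v _ => ?_
      rw [ω0, q0, r0, (supp x u v).2.1, (supp x u v).2.2]
    · rw [← hw.s1 x u (chi_of_mem h)]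
      refine Finset.sum_congr rfl fun v _ => ?_
      rw [ω1, q1, r1, (supp v x u).2.2, (supp v x u).1]
    · rw [← hw.s2 x u (chi_of_mem h)]
      refine Finset.sum_congr rfl fun v _ => ?_
      rw [ω2, q2, r2, (supp u v x).1, (supp u v x).2.1]
  have hdeg₁ : ∀ i x, (7 / 10 : ℝ) * n ≤ (outN G₁ i x).card := by
    intro i x
    have h6 := h3 i x
    have h7 : 7 * n ≤ 10 * (outN G₁ i x).card := by omega
    have h8 : (7 * n : ℝ) ≤ 10 * (outN G₁ i x).card := by exact_mod_cast h7
    linarith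
  obtain ⟨H₁, k1, k2, k3⟩ := hn₁ n hn1 G₁ ω hbal hWt hdd hdeg₁
  refine ⟨H₀ ∪ H₁, Finset.union_subset h1 (k1.trans (by rw [hG₁]; exact Finset.sdiff_subset)),
    h2.union k2 ?_, ?_⟩
  · rw [Finset.disjoint_left]
    intro e he he'
    have := k1 he'
    rw [hG₁] at this
    exact (Finset.mem_sdiff.1 this).2 he
  · have hset : G \ (H₀ ∪ H₁) = G₁ \ H₁ := by
      rw [hG₁]
      ext e; simp only [Finset.mem_sdiff, Finset.mem_union]; tauto
    rw [hset]
    refine k3.mono (Finset.Subset.refl _) ?_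
    exact mul_le_mul_of_nonneg_right hγ'2 (Nat.cast_nonneg n)

end Pool.Agent.Lib.MP_cb9986_co.S9
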