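import Pool.Agent.Lib.MP_cb9986_co.S9.Spec

/-!
Swarm S9: transport of `NibFinStmt` to general vertex sets.
-/

set_option autoImplicit false
open Finset

namespace Pool.Agent.Lib.MP_cb9986_co.S9

/-- The map of arcs that comes from maps of the three classes. -/
def nibTransportMap {α β : Type} (g : ZMod 3 → β → α) (a : Arc β) : Arc α :=
  (a.1, g a.1 a.2.1, g (a.1 + 1) a.2.2)

theorem nibTransportMap_injective {α β : Type} {g : ZMod 3 → β → α}
    (hg : ∀ i, Function.Injective (g i)) : Function.Injective (nibTransportMap g) := by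
  rintro ⟨i, x, y⟩ ⟨j, x', y'⟩ h
  simp only [nibTransportMap, Prod.mk.injEq] at h
  obtain ⟨h1, h2, h3⟩ := h
  subst h1
  rw [hg _ h2, hg _ h3]

theorem nibTransport_tri {α β : Type} [DecidableEq α] [DecidableEq β] (g : ZMod 3 → β → α)
    (i : ZMod 3) (x u v : β) :
    (tri i x u v).image (nibTransportMap g) = tri i (g i x) (g (i + 1) u) (g (i + 2) v) := by
  obtain ⟨h1, h2, h3, h4⟩ := z3 i
  simp only [tri, Finset.image_insert, Finset.image_singleton, nibTransportMap, h1, h3]

theorem nibTransport_dec {α β : Type} [DecidableEq α] [DecidableEq β] {g : ZMod 3 → β → α}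
    (hg : ∀ i, Function.Injective (g i)) {H : Finset (Arc β)} (hH : Dec H) :
    Dec (H.image (nibTransportMap g)) := by
  induction hH with
  | empty => simpa using Dec.empty
  | add i x u v G _ hd ih =>
    rw [Finset.image_union, nibTransport_tri]
    refine Dec.add i _ _ _ _ ih ?_
    rw [← nibTransport_tri]
    exact (Finset.disjoint_image (nibTransportMap_injective hg)).2 hd

theorem nibTransport_mem {α β : Type} [DecidableEq α] {g : ZMod 3 → β → α}
    (hg : ∀ i, Function.Injective (g i)) (K : Finset (Arc β)) (i : ZMod 3) (x : β) (y : α) :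
    (i, g i x, y) ∈ K.image (nibTransportMap g) ↔ ∃ z, g (i + 1) z = y ∧ (i, x, z) ∈ K := by
  simp only [Finset.mem_image, nibTransportMap, Prod.mk.injEq, Prod.exists]
  constructor
  · rintro ⟨j, a, b, hK, h1, h2, h3⟩
    subst h1
    exact ⟨b, h3, (hg _ h2) ▸ hK⟩
  · rintro ⟨z, hz, hK⟩
    exact ⟨i, x, z, hK, rfl, rfl, hz⟩

theorem nibTransport_mem' {α β : Type} [DecidableEq α] {g : ZMod 3 → β → α}
    (hg : ∀ i, Function.Injective (g i)) (K : Finset (Arc β)) (i : ZMod 3) (x : β) (y : α) :
    (i + 2, y, g i x) ∈ K.image (nibTransportMap g) ↔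
      ∃ z, g (i + 2) z = y ∧ (i + 2, z, x) ∈ K := by
  obtain ⟨h1, h2, h3, h4⟩ := z3 i
  simp only [Finset.mem_image, nibTransportMap, Prod.mk.injEq, Prod.exists]
  constructor
  · rintro ⟨j, a, b, hK, e1, e2, e3⟩
    subst e1
    rw [h3] at e3
    exact ⟨a, e2, (hg _ e3) ▸ hK⟩
  · rintro ⟨z, hz, hK⟩
    refine ⟨i + 2, z, x, hK, rfl, hz, ?_⟩
    rw [h3]

theorem nibTransport_out {α β : Type} [DecidableEq α] [DecidableEq β] [Fintype α] [Fintype β]
    {g : ZMod 3 → β → α} (hg : ∀ i, Function.Injective (g i)) (K : Finset (Arc β))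
    (i : ZMod 3) (x : β) :
    (outN (K.image (nibTransportMap g)) i (g i x)).card = (outN K i x).card := by
  have : outN (K.image (nibTransportMap g)) i (g i x) = (outN K i x).image (g (i + 1)) := by
    ext y
    rw [mem_outN, nibTransport_mem hg]
    simp only [Finset.mem_image, mem_outN]
    constructor
    · rintro ⟨z, h1, h2⟩; exact ⟨z, h2, h1⟩
    · rintro ⟨z, h1, h2⟩; exact ⟨z, h2, h1⟩
  rw [this, Finset.card_image_of_injective _ (hg _)]

theorem nibTransport_in {α β : Type} [DecidableEq α] [DecidableEq β] [Fintype α] [Fintype β]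
    {g : ZMod 3 → β → α} (hg : ∀ i, Function.Injective (g i)) (K : Finset (Arc β))
    (i : ZMod 3) (x : β) :
    (inN (K.image (nibTransportMap g)) i (g i x)).card = (inN K i x).card := by
  have : inN (K.image (nibTransportMap g)) i (g i x) = (inN K i x).image (g (i + 2)) := by
    ext y
    rw [mem_inN, nibTransport_mem' hg]
    simp only [Finset.mem_image, mem_inN]
    constructor
    · rintro ⟨z, h1, h2⟩; exact ⟨z, h2, h1⟩
    · rintro ⟨z, h1, h2⟩; exact ⟨z, h2, h1⟩
  rw [this, Finset.card_image_of_injective _ (hg _)]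

theorem nibTransport (h : NibFinStmt) : NibStmt := by
  intro γ hγ
  obtain ⟨n₁, hn₁⟩ := h γ hγ
  refine ⟨n₁, ?_⟩
  intro α _ _ V n G hn hV hin hbal hdeg
  have e : ∀ i, ({x // x ∈ V i} ≃ Fin n) := fun i =>
    Fintype.equivFinOfCardEq (by rw [Fintype.card_coe, hV i])
  let g : ZMod 3 → Fin n → α := fun i k => ((e i).symm k : α)
  have hg : ∀ i, Function.Injective (g i) := fun i =>
    Subtype.val_injective.comp (e i).symm.injective
  have hgV : ∀ i k, g i k ∈ V i := fun i k => ((e i).symm k).2
  have hsurj : ∀ i, ∀ x ∈ V i, ∃ k, g i k = x := by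
    intro i x hx
    refine ⟨e i ⟨x, hx⟩, ?_⟩
    simp [g]
  set G' : Finset (Arc (Fin n)) := univ.filter fun a => nibTransportMap g a ∈ G with hG'
  have hGG : G'.image (nibTransportMap g) = G := by
    ext ⟨i, x, y⟩
    simp only [Finset.mem_image, hG', Finset.mem_filter, Finset.mem_univ, true_and]
    constructor
    · rintro ⟨a, ha, hae⟩; rw [← hae]; exact ha
    · intro hxy
      obtain ⟨hx, hy⟩ := hin _ hxy
      obtain ⟨k, hk⟩ := hsurj i x hx
      obtain ⟨l, hl⟩ := hsurj (i + 1) y hy
      refine ⟨(i, k, l), ?_, ?_⟩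
      · simp only [nibTransportMap, hk, hl]; exact hxy
      · simp only [nibTransportMap, hk, hl]
  have hbal' : Bal G' := by
    intro i k
    rw [← nibTransport_out hg, ← nibTransport_in hg, hGG]
    exact hbal i _
  have hdeg' : ∀ i x, (4 / 5 : ℝ) * n ≤ (outN G' i x).card := by
    intro i k
    rw [← nibTransport_out hg, hGG]
    exact hdeg i _ (hgV i k)
  obtain ⟨H', hH'G, hH'dec, hH'deg⟩ := hn₁ n hn G' hbal' hdeg'
  refine ⟨H'.image (nibTransportMap g), ?_, nibTransport_dec hg hH'dec, ?_⟩
  · rw [← hGG]; exact Finset.image_subset_image hH'G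
  · have hsd : G \ H'.image (nibTransportMap g) = (G' \ H').image (nibTransportMap g) := by
      rw [Finset.image_sdiff _ _ (nibTransportMap_injective hg), hGG]
    have h0 : (0 : ℝ) ≤ γ * n := by positivity
    intro i x
    by_cases hx : x ∈ V i
    · obtain ⟨k, rfl⟩ := hsurj i x hx
      rw [hsd, nibTransport_out hg, nibTransport_in hg]
      exact hH'deg i k
    · have h1 : outN (G \ H'.image (nibTransportMap g)) i x = ∅ := by
        rw [Finset.eq_empty_iff_forall_notMem]
        intro y hy
        rw [mem_outN, Finset.mem_sdiff] at hy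
        exact hx (hin _ hy.1).1
      have h2 : inN (G \ H'.image (nibTransportMap g)) i x = ∅ := by
        rw [Finset.eq_empty_iff_forall_notMem]
        intro y hy
        rw [mem_inN, Finset.mem_sdiff] at hy
        have := (hin _ hy.1).2
        rw [(z3 i).2.2.1] at this
        exact hx this
      rw [h1, h2]
      simpa using h0

end Pool.Agent.Lib.MP_cb9986_co.S9
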