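import Pool.Agent.Lib.MP_cb9986_co.S9.Spec

/-!
Splitting a level, from equitable colourings.
-/

set_option autoImplicit false
open Finset

namespace Pool.Agent.Lib.MP_cb9986_co.S9

theorem split_count (K m : ℕ) (hm : 1 ≤ m) (q : ℕ → ℕ → ℕ → Prop)
    [∀ k a b, Decidable (q k a b)] :
    ((range (K * m ^ 2)).filter (fun c => q (c / m ^ 2) (c / m % m) (c % m))).card
      = (((range K) ×ˢ (range m) ×ˢ (range m)).filter (fun t => q t.1 t.2.1 t.2.2)).card := by
  have e1 : ∀ c : ℕ, c / m ^ 2 = c / m / m := fun c => by rw [Nat.div_div_eq_div_mul, pow_two]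
  have key : ∀ k a b : ℕ, a < m → b < m → (k * m ^ 2 + a * m + b) / m ^ 2 = k ∧
      (k * m ^ 2 + a * m + b) / m % m = a ∧ (k * m ^ 2 + a * m + b) % m = b := by
    intro k a b ha hb
    have h0 : k * m ^ 2 + a * m + b = b + m * (a + m * k) := by ring
    have h1 : (k * m ^ 2 + a * m + b) / m = a + m * k := by
      rw [h0, Nat.add_mul_div_left _ _ (by omega), Nat.div_eq_of_lt hb, Nat.zero_add]
    refine ⟨?_, ?_, ?_⟩
    · rw [e1, h1, Nat.add_mul_div_left _ _ (by omega), Nat.div_eq_of_lt ha, Nat.zero_add]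
    · rw [h1, Nat.add_mul_mod_self_left, Nat.mod_eq_of_lt ha]
    · rw [h0, Nat.add_mul_mod_self_left, Nat.mod_eq_of_lt hb]
  apply Finset.card_nbij' (fun c => (c / m ^ 2, c / m % m, c % m))
    (fun t => t.1 * m ^ 2 + t.2.1 * m + t.2.2)
  · intro c hc
    simp only [Finset.coe_filter, Finset.mem_range, Set.mem_ofPred_eq] at hc
    simp only [Finset.coe_filter, Finset.mem_product, Finset.mem_range, Set.mem_ofPred_eq]
    refine ⟨⟨?_, Nat.mod_lt _ hm, Nat.mod_lt _ hm⟩, hc.2⟩
    rw [Nat.div_lt_iff_lt_mul (by positivity)]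
    exact hc.1
  · rintro ⟨k, a, b⟩ ht
    simp only [Finset.coe_filter, Finset.mem_product, Finset.mem_range, Set.mem_ofPred_eq] at ht
    obtain ⟨⟨hk, ha, hb⟩, hq⟩ := ht
    obtain ⟨h1, h2, h3⟩ := key k a b ha hb
    simp only [Finset.coe_filter, Finset.mem_range, Set.mem_ofPred_eq]
    rw [h1, h2, h3]
    refine ⟨?_, hq⟩
    have h4 : a * m + b < m ^ 2 := by
      have : a * m + b < a * m + m := by omega
      have h5 : a * m + m = (a + 1) * m := by ring
      have h6 : (a + 1) * m ≤ m * m := Nat.mul_le_mul_right _ ha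
      rw [pow_two]; omega
    have h7 : (k + 1) * m ^ 2 ≤ K * m ^ 2 := Nat.mul_le_mul_right _ hk
    have h8 : (k + 1) * m ^ 2 = k * m ^ 2 + m ^ 2 := by ring
    omega
  · intro c hc
    simp only
    have h1 := Nat.div_add_mod c m
    have h2 := Nat.div_add_mod (c / m) m
    rw [e1]
    have h3 : c / m / m * m ^ 2 + c / m % m * m + c % m
        = m * (m * (c / m / m) + c / m % m) + c % m := by ring
    rw [h3, h2, h1]
  · rintro ⟨k, a, b⟩ ht
    simp only [Finset.coe_filter, Finset.mem_product, Finset.mem_range, Set.mem_ofPred_eq] at ht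
    obtain ⟨⟨hk, ha, hb⟩, hq⟩ := ht
    obtain ⟨h1, h2, h3⟩ := key k a b ha hb
    simp only
    rw [h1, h2, h3]

theorem split_card {α : Type} (B : ℕ) (f : α → ℕ) (hf : ∀ x, f x < B) (S : Finset α)
    (p : ℕ → Prop) [DecidablePred p] :
    (S.filter (fun x => p (f x))).card
      = ∑ c ∈ (range B).filter p, (S.filter (fun x => f x = c)).card := by
  rw [Finset.card_eq_sum_card_fiberwise (f := f) (t := (range B).filter p)]
  · apply Finset.sum_congr rfl
    intro c hc
    congr 1
    ext x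
    simp only [Finset.mem_filter]
    constructor
    · rintro ⟨⟨h1, -⟩, h3⟩
      exact ⟨h1, h3⟩
    · rintro ⟨h1, h3⟩
      exact ⟨⟨h1, h3 ▸ (Finset.mem_filter.1 hc).2⟩, h3⟩
  · intro x hx
    have hx' := (Finset.mem_filter.1 (Finset.mem_coe.1 hx)).2
    exact Finset.mem_coe.2 (Finset.mem_filter.2 ⟨Finset.mem_range.2 (hf x), hx'⟩)

theorem split_V {α : Type} (B n : ℕ) (hB : 0 < B) (f : α → ℕ) (hf : ∀ x, f x < B) (V : Finset α)
    (hV : V.card = n) (h1 : ∀ c, c + 1 < B → (V.filter fun v => f v = c).card = n / B)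
    (p : ℕ → Prop) [DecidablePred p] :
    (V.filter (fun x => p (f x))).card ≤ ((range B).filter p).card * (n / B) + B := by
  have hlast : (V.filter fun v => f v = B - 1).card ≤ n / B + B := by
    have h2 := split_card B f hf V (fun _ => True)
    simp only [Finset.filter_true] at h2
    obtain ⟨b, rfl⟩ : ∃ b, B = b + 1 := ⟨B - 1, by omega⟩
    rw [hV, Finset.sum_range_succ, Finset.sum_congr rfl fun c hc =>
      h1 c (by have := Finset.mem_range.1 hc; omega), Finset.sum_const, Finset.card_range,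
      smul_eq_mul] at h2
    have h3 := Nat.div_add_mod n (b + 1)
    have h4 := Nat.mod_lt n (show 0 < b + 1 by omega)
    have h5 : (b + 1) * (n / (b + 1)) = b * (n / (b + 1)) + n / (b + 1) := by ring
    have h6 : b + 1 - 1 = b := by omega
    rw [h6]
    omega
  rw [split_card B f hf V p]
  have h3 : ∀ c ∈ (range B).filter p, (V.filter (fun x => f x = c)).card
      ≤ n / B + if c = B - 1 then B else 0 := by
    intro c hc
    have hcB := Finset.mem_range.1 (Finset.mem_filter.1 hc).1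
    split_ifs with h
    · rw [h]; exact hlast
    · rw [h1 c (by omega)]; omega
  refine (Finset.sum_le_sum h3).trans ?_
  rw [Finset.sum_add_distrib, Finset.sum_const, smul_eq_mul]
  have h4 : ∑ c ∈ (range B).filter p, (if c = B - 1 then B else 0) ≤ B := by
    rw [← Finset.sum_filter]
    rw [Finset.sum_const, smul_eq_mul]
    have : (((range B).filter p).filter (fun c => c = B - 1)).card ≤ 1 :=
      Finset.card_le_one.2 fun a ha b hb => by
        rw [(Finset.mem_filter.1 ha).2, (Finset.mem_filter.1 hb).2]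
    nlinarith
  omega

theorem split_V_eq {α : Type} (B n : ℕ) (f : α → ℕ) (hf : ∀ x, f x < B) (V : Finset α)
    (h1 : ∀ c, c + 1 < B → (V.filter fun v => f v = c).card = n / B)
    (p : ℕ → Prop) [DecidablePred p] (hp : ∀ c, p c → c + 1 < B) :
    (V.filter (fun x => p (f x))).card = ((range B).filter p).card * (n / B) := by
  rw [split_card B f hf V p, Finset.sum_congr rfl fun c hc => h1 c (hp c (Finset.mem_filter.1 hc).2),
    Finset.sum_const, smul_eq_mul]

theorem split_S {α : Type} (B : ℕ) (f : α → ℕ) (hf : ∀ x, f x < B) (S : Finset α) (E : ℝ)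
    (h2 : ∀ c < B, |((S.filter fun v => f v = c).card : ℝ) - S.card / B| ≤ E)
    (p : ℕ → Prop) [DecidablePred p] :
    |((S.filter (fun x => p (f x))).card : ℝ) - ((range B).filter p).card * (S.card / B)|
      ≤ ((range B).filter p).card * E := by
  rw [split_card B f hf S p]
  push_cast
  rw [← nsmul_eq_mul, ← nsmul_eq_mul, ← Finset.sum_const, ← Finset.sum_const,
    ← Finset.sum_sub_distrib]
  refine (Finset.abs_sum_le_sum_abs _ _).trans (Finset.sum_le_sum fun c hc => ?_)
  exact h2 c (Finset.mem_range.1 (Finset.mem_filter.1 hc).1)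

theorem split (h : EquitableStmt) : SplitStmt := by
  intro K m δ hK hm hδ hδ1 α _ _ V n T hV hn hexp
  set B : ℕ := K * m ^ 2 with hBdef
  have hm2 : 1 ≤ m ^ 2 := Nat.one_le_pow _ _ hm
  have hB0 : 0 < B := by positivity
  have hB2 : m ^ 2 < B := by
    have : 2 * m ^ 2 ≤ K * m ^ 2 := Nat.mul_le_mul_right _ hK
    omega
  have hKr : (2 : ℝ) ≤ K := by exact_mod_cast hK
  have hmr : (1 : ℝ) ≤ m := by exact_mod_cast hm
  have hm2r : (1 : ℝ) ≤ (m : ℝ) ^ 2 := one_le_pow₀ hmr
  have hBr : ((B : ℕ) : ℝ) = K * (m : ℝ) ^ 2 := by rw [hBdef]; push_cast; ring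
  have hBpos : (0 : ℝ) < K * (m : ℝ) ^ 2 := by positivity
  have hη : 0 < δ / (4 * K * m ^ 2) := by positivity
  have hη1 : δ / (4 * K * m ^ 2) ≤ 1 := by
    rw [div_le_one (by positivity)]
    nlinarith
  have hall := fun i => h α B (V i) n T (δ / (4 * K * m ^ 2)) hB0 (hV i) hη hη1 hexp
  choose ψ hψ1 hψ2 using hall
  set f : ZMod 3 → α → ℕ := fun i x => (ψ i x : ℕ) with hfdef
  have hf : ∀ i x, f i x < B := fun i x => (ψ i x).2
  have h1 : ∀ i c, c + 1 < B → ((V i).filter fun v => f i v = c).card = n / B := by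
    intro i c hc
    have := hψ1 i ⟨c, by omega⟩ hc
    rw [← this]
    congr 1
    ext x
    simp only [Finset.mem_filter, hfdef, Fin.ext_iff]
  have h2 : ∀ i, ∀ S ∈ T, S ⊆ V i → ∀ c < B,
      |((S.filter fun v => f i v = c).card : ℝ) - S.card / B|
        ≤ δ / (4 * K * m ^ 2) * n + B := by
    intro i S hS hSV c hc
    have := hψ2 i S hS hSV ⟨c, hc⟩
    have e : (S.filter fun v => f i v = c) = S.filter fun v => ψ i v = ⟨c, hc⟩ := by
      ext x
      simp only [Finset.mem_filter, hfdef, Fin.ext_iff]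
    rw [e]
    exact this
  -- counts of colours
  have cnt := split_count K m hm
  rw [← hBdef] at cnt
  have c0 : ((range B).filter (fun c => c / m ^ 2 = 0)).card = m ^ 2 := by
    rw [cnt (fun k _ _ => k = 0)]
    have : (((range K) ×ˢ (range m) ×ˢ (range m)).filter (fun t => t.1 = 0))
        = ({0} : Finset ℕ) ×ˢ (range m) ×ˢ (range m) := by
      ext ⟨k, a, b⟩
      simp only [Finset.mem_filter, Finset.mem_product, Finset.mem_range, Finset.mem_singleton]
      constructor
      · rintro ⟨⟨-, ha, hb⟩, hk⟩; exact ⟨hk, ha, hb⟩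
      · rintro ⟨hk, ha, hb⟩; exact ⟨⟨by omega, ha, hb⟩, hk⟩
    rw [this]
    simp [pow_two]
  have cP : ∀ a < m, ((range B).filter (fun c => c / m ^ 2 = 0 ∧ c / m % m = a)).card = m := by
    intro a ha
    rw [cnt (fun k x _ => k = 0 ∧ x = a)]
    have : (((range K) ×ˢ (range m) ×ˢ (range m)).filter (fun t => t.1 = 0 ∧ t.2.1 = a))
        = ({0} : Finset ℕ) ×ˢ ({a} : Finset ℕ) ×ˢ (range m) := by
      ext ⟨k, x, b⟩
      simp only [Finset.mem_filter, Finset.mem_product, Finset.mem_range, Finset.mem_singleton]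
      constructor
      · rintro ⟨⟨-, -, hb⟩, hk, hx⟩; exact ⟨hk, hx, hb⟩
      · rintro ⟨hk, hx, hb⟩; exact ⟨⟨by omega, by omega, hb⟩, hk, hx⟩
    rw [this]
    simp
  have cQ : ∀ a < m, ((range B).filter (fun c => c / m ^ 2 = 0 ∧ c % m = a)).card = m := by
    intro a ha
    rw [cnt (fun k _ x => k = 0 ∧ x = a)]
    have : (((range K) ×ˢ (range m) ×ˢ (range m)).filter (fun t => t.1 = 0 ∧ t.2.2 = a))
        = ({0} : Finset ℕ) ×ˢ (range m) ×ˢ ({a} : Finset ℕ) := by
      ext ⟨k, x, b⟩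
      simp only [Finset.mem_filter, Finset.mem_product, Finset.mem_range, Finset.mem_singleton]
      constructor
      · rintro ⟨⟨-, hx, -⟩, hk, hb⟩; exact ⟨hk, hx, hb⟩
      · rintro ⟨hk, hx, hb⟩; exact ⟨⟨by omega, hx, by omega⟩, hk, hb⟩
    rw [this]
    simp
  have cPQ : ∀ a < m, ∀ b < m,
      ((range B).filter (fun c => c / m ^ 2 = 0 ∧ c / m % m = a ∧ c % m = b)).card = 1 := by
    intro a ha b hb
    rw [cnt (fun k x y => k = 0 ∧ x = a ∧ y = b)]
    have : (((range K) ×ˢ (range m) ×ˢ (range m)).filter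
        (fun t => t.1 = 0 ∧ t.2.1 = a ∧ t.2.2 = b))
        = ({0} : Finset ℕ) ×ˢ ({a} : Finset ℕ) ×ˢ ({b} : Finset ℕ) := by
      ext ⟨k, x, y⟩
      simp only [Finset.mem_filter, Finset.mem_product, Finset.mem_range, Finset.mem_singleton]
      constructor
      · rintro ⟨-, hk, hx, hy⟩; exact ⟨hk, hx, hy⟩
      · rintro ⟨hk, hx, hy⟩; exact ⟨⟨by omega, by omega, by omega⟩, hk, hx, hy⟩
    rw [this]
    simp
  have cP' : ∀ a < m,
      ((range B).filter (fun c => ¬ c / m ^ 2 = 0 ∧ c / m % m = a)).card = (K - 1) * m := by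
    intro a ha
    rw [cnt (fun k x _ => ¬ k = 0 ∧ x = a)]
    have : (((range K) ×ˢ (range m) ×ˢ (range m)).filter (fun t => ¬ t.1 = 0 ∧ t.2.1 = a))
        = ((range K).erase 0) ×ˢ ({a} : Finset ℕ) ×ˢ (range m) := by
      ext ⟨k, x, b⟩
      simp only [Finset.mem_filter, Finset.mem_product, Finset.mem_range, Finset.mem_singleton,
        Finset.mem_erase]
      constructor
      · rintro ⟨⟨hk1, -, hb⟩, hk, hx⟩; exact ⟨⟨hk, hk1⟩, hx, hb⟩
      · rintro ⟨⟨hk, hk1⟩, hx, hb⟩; exact ⟨⟨hk1, by omega, hb⟩, hk, hx⟩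
    rw [this]
    simp [Finset.card_erase_of_mem (Finset.mem_range.2 (show 0 < K by omega))]
  have cQ' : ∀ a < m,
      ((range B).filter (fun c => ¬ c / m ^ 2 = 0 ∧ c % m = a)).card = (K - 1) * m := by
    intro a ha
    rw [cnt (fun k _ x => ¬ k = 0 ∧ x = a)]
    have : (((range K) ×ˢ (range m) ×ˢ (range m)).filter (fun t => ¬ t.1 = 0 ∧ t.2.2 = a))
        = ((range K).erase 0) ×ˢ (range m) ×ˢ ({a} : Finset ℕ) := by
      ext ⟨k, x, b⟩
      simp only [Finset.mem_filter, Finset.mem_product, Finset.mem_range, Finset.mem_singleton,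
        Finset.mem_erase]
      constructor
      · rintro ⟨⟨hk1, hx, -⟩, hk, hb⟩; exact ⟨⟨hk, hk1⟩, hx, hb⟩
      · rintro ⟨⟨hk, hk1⟩, hx, hb⟩; exact ⟨⟨hk1, hx, by omega⟩, hk, hb⟩
    rw [this]
    simp [Finset.card_erase_of_mem (Finset.mem_range.2 (show 0 < K by omega))]
  have lPQ : ∀ a b : ℕ,
      ((range B).filter (fun c => ¬ c / m ^ 2 = 0 ∧ c / m % m = a ∧ c % m = b)).card ≤ K := by
    intro a b
    rw [cnt (fun k x y => ¬ k = 0 ∧ x = a ∧ y = b)]
    calc _ ≤ ((range K) ×ˢ ({a} : Finset ℕ) ×ˢ ({b} : Finset ℕ)).card := by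
          apply Finset.card_le_card
          rintro ⟨k, x, y⟩
          simp only [Finset.mem_filter, Finset.mem_product, Finset.mem_range,
            Finset.mem_singleton]
          rintro ⟨⟨hk, -⟩, -, hx, hy⟩
          exact ⟨hk, hx, hy⟩
      _ = K := by simp
  have lP : ∀ a : ℕ, ((range B).filter (fun c => c / m % m = a)).card ≤ K * m := by
    intro a
    rw [cnt (fun _ x _ => x = a)]
    calc _ ≤ ((range K) ×ˢ ({a} : Finset ℕ) ×ˢ (range m)).card := by
          apply Finset.card_le_card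
          rintro ⟨k, x, y⟩
          simp only [Finset.mem_filter, Finset.mem_product, Finset.mem_range,
            Finset.mem_singleton]
          rintro ⟨⟨hk, -, hy⟩, hx⟩
          exact ⟨hk, hx, hy⟩
      _ = K * m := by simp
  have lQ : ∀ a : ℕ, ((range B).filter (fun c => c % m = a)).card ≤ K * m := by
    intro a
    rw [cnt (fun _ _ x => x = a)]
    calc _ ≤ ((range K) ×ˢ (range m) ×ˢ ({a} : Finset ℕ)).card := by
          apply Finset.card_le_card
          rintro ⟨k, x, y⟩
          simp only [Finset.mem_filter, Finset.mem_product, Finset.mem_range,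
            Finset.mem_singleton]
          rintro ⟨⟨hk, hx, -⟩, hy⟩
          exact ⟨hk, hx, hy⟩
      _ = K * m := by simp
  have lUP : ∀ a : ℕ, ((range B).filter (fun c => c / m ^ 2 = 0 ∧ c / m % m = a)).card ≤ m := by
    intro a
    by_cases ha : a < m
    · exact (cP a ha).le
    · have : (range B).filter (fun c => c / m ^ 2 = 0 ∧ c / m % m = a) = ∅ := by
        apply Finset.filter_eq_empty_iff.2
        rintro c - ⟨-, h3⟩
        have := Nat.mod_lt (c / m) (show 0 < m by omega)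
        omega
      rw [this]; simp
  have lUQ : ∀ a : ℕ, ((range B).filter (fun c => c / m ^ 2 = 0 ∧ c % m = a)).card ≤ m := by
    intro a
    by_cases ha : a < m
    · exact (cQ a ha).le
    · have : (range B).filter (fun c => c / m ^ 2 = 0 ∧ c % m = a) = ∅ := by
        apply Finset.filter_eq_empty_iff.2
        rintro c - ⟨-, h3⟩
        have := Nat.mod_lt c (show 0 < m by omega)
        omega
      rw [this]; simp
  have hz : ∀ c, c / m ^ 2 = 0 → c + 1 < B := by
    intro c hc
    have := (Nat.div_eq_zero_iff_lt (show 0 < m ^ 2 by positivity)).1 hc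
    omega
  have hdiv : ((n / B : ℕ) : ℝ) ≤ n / (K * (m : ℝ) ^ 2) := by
    rw [← hBr]; exact Nat.cast_div_le
  -- final bound of the errors
  have herr : ∀ r : ℝ, 0 ≤ r → r ≤ K * (m : ℝ) ^ 2 →
      r * (δ / (4 * K * m ^ 2) * n + B) ≤ δ * n := by
    intro r hr hr'
    have e1 : (K * (m : ℝ) ^ 2) * (δ / (4 * K * m ^ 2) * n) = δ * n / 4 := by
      field_simp
    have e2 : (K * (m : ℝ) ^ 2) * B = (K : ℝ) ^ 2 * m ^ 4 := by rw [hBr]; ring
    have e3 : 0 ≤ δ / (4 * K * m ^ 2) * n + B := by positivity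
    have e4 := mul_le_mul_of_nonneg_right hr' e3
    have e5 : 0 ≤ δ * n := by positivity
    nlinarith
  refine ⟨fun i => (V i).filter (fun x => f i x / m ^ 2 = 0), fun i x => f i x / m % m,
    fun i x => f i x % m, fun i => Finset.filter_subset _ _, ?_, ?_, ?_, ?_, ?_, ?_⟩
  · intro i
    rw [split_V_eq B n (f i) (hf i) (V i) (h1 i) (fun c => c / m ^ 2 = 0) hz, c0]
  · intro i x
    exact ⟨Nat.mod_lt _ hm, Nat.mod_lt _ hm⟩
  · intro i a
    constructor
    · have e : (((V i).filter (fun x => f i x / m ^ 2 = 0)).filter fun x => f i x / m % m = a)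
          = (V i).filter (fun x => f i x / m ^ 2 = 0 ∧ f i x / m % m = a) := by
        rw [Finset.filter_filter]
      rw [e, split_V_eq B n (f i) (hf i) (V i) (h1 i)
        (fun c => c / m ^ 2 = 0 ∧ c / m % m = a) (fun c hc => hz c hc.1)]
      exact Nat.mul_le_mul_right _ (lUP a)
    · have e : (((V i).filter (fun x => f i x / m ^ 2 = 0)).filter fun x => f i x % m = a)
          = (V i).filter (fun x => f i x / m ^ 2 = 0 ∧ f i x % m = a) := by
        rw [Finset.filter_filter]
      rw [e, split_V_eq B n (f i) (hf i) (V i) (h1 i)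
        (fun c => c / m ^ 2 = 0 ∧ c % m = a) (fun c hc => hz c hc.1)]
      exact Nat.mul_le_mul_right _ (lUQ a)
  · intro i a b
    have e : ((V i).filter fun x => x ∉ (V i).filter (fun x => f i x / m ^ 2 = 0) ∧
        f i x / m % m = a ∧ f i x % m = b)
        = (V i).filter (fun x => ¬ f i x / m ^ 2 = 0 ∧ f i x / m % m = a ∧ f i x % m = b) := by
      ext x
      simp only [Finset.mem_filter]
      tauto
    rw [e]
    have e1 := split_V B n hB0 (f i) (hf i) (V i) (hV i) (h1 i)
      (fun c => ¬ c / m ^ 2 = 0 ∧ c / m % m = a ∧ c % m = b)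
    have e2 := lPQ a b
    have e3 : (((V i).filter (fun x => ¬ f i x / m ^ 2 = 0 ∧ f i x / m % m = a ∧
        f i x % m = b)).card : ℝ) ≤ K * (n / B : ℕ) + B := by
      have : ((V i).filter (fun x => ¬ f i x / m ^ 2 = 0 ∧ f i x / m % m = a ∧
        f i x % m = b)).card ≤ K * (n / B) + B :=
        e1.trans (Nat.add_le_add_right (Nat.mul_le_mul_right _ e2) _)
      exact_mod_cast this
    have e4 : (K : ℝ) * (n / (K * (m : ℝ) ^ 2)) = n / (m : ℝ) ^ 2 := by
      field_simp
    have e5 := mul_le_mul_of_nonneg_left hdiv (show (0 : ℝ) ≤ K by positivity)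
    rw [hBr] at e3
    linarith
  · intro i a
    have hgen : ∀ (p : ℕ → Prop) [DecidablePred p], ((range B).filter p).card ≤ K * m →
        (((V i).filter (fun x => p (f i x))).card : ℝ) ≤ n / m + K * m ^ 2 := by
      intro p _ hp
      have e1 := split_V B n hB0 (f i) (hf i) (V i) (hV i) (h1 i) p
      have e3 : (((V i).filter (fun x => p (f i x))).card : ℝ) ≤ K * m * (n / B : ℕ) + B := by
        have : ((V i).filter (fun x => p (f i x))).card ≤ K * m * (n / B) + B :=
          e1.trans (Nat.add_le_add_right (Nat.mul_le_mul_right _ hp) _)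
        exact_mod_cast this
      have e4 : ((K : ℝ) * m) * (n / (K * (m : ℝ) ^ 2)) = n / (m : ℝ) := by
        field_simp
      have e5 := mul_le_mul_of_nonneg_left hdiv (show (0 : ℝ) ≤ (K : ℝ) * m by positivity)
      rw [hBr] at e3
      linarith
    exact ⟨hgen (fun c => c / m % m = a) (lP a), hgen (fun c => c % m = a) (lQ a)⟩
  · intro i S hS hSV
    have hT := split_S B (f i) (hf i) S _ (h2 i S hS hSV)
    have hSin : ∀ x ∈ S, x ∈ V i := fun x hx => hSV hx
    have hs : (0 : ℝ) ≤ S.card := Nat.cast_nonneg _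
    -- general form
    have hgen : ∀ (p : ℕ → Prop) [DecidablePred p] (r : ℕ) (q : ℝ), ((range B).filter p).card = r → (r : ℝ) ≤ K * (m : ℝ) ^ 2 →
        (r : ℝ) * (S.card / B) = q →
        |((S.filter (fun x => p (f i x))).card : ℝ) - q| ≤ δ * n := by
      intro p _ r q hr hr' hq
      have := hT p
      rw [hr, hq] at this
      exact this.trans (herr r (Nat.cast_nonneg _) hr')
    have hmm : (m : ℝ) ≤ (m : ℝ) ^ 2 := by nlinarith
    have hmK : (m : ℝ) ^ 2 ≤ K * (m : ℝ) ^ 2 := by nlinarith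
    refine ⟨?_, fun a ha b hb => ⟨?_, ?_, ?_, ?_, ?_⟩⟩
    · have e : (S.filter fun x => x ∈ (V i).filter (fun x => f i x / m ^ 2 = 0))
          = S.filter (fun x => f i x / m ^ 2 = 0) := by
        ext x; simp only [Finset.mem_filter]
        exact ⟨fun h => ⟨h.1, h.2.2⟩, fun h => ⟨h.1, hSin x h.1, h.2⟩⟩
      rw [e]
      refine hgen (fun c => c / m ^ 2 = 0) (m ^ 2) _ c0 (by push_cast; exact hmK) ?_
      rw [hBr]; push_cast; field_simp
    · have e : (S.filter fun x => x ∈ (V i).filter (fun x => f i x / m ^ 2 = 0) ∧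
          f i x / m % m = a) = S.filter (fun x => f i x / m ^ 2 = 0 ∧ f i x / m % m = a) := by
        ext x; simp only [Finset.mem_filter]
        exact ⟨fun h => ⟨h.1, h.2.1.2, h.2.2⟩, fun h => ⟨h.1, ⟨hSin x h.1, h.2.1⟩, h.2.2⟩⟩
      rw [e]
      refine hgen (fun c => c / m ^ 2 = 0 ∧ c / m % m = a) m _ (cP a ha) (hmm.trans hmK) ?_
      rw [hBr]; field_simp
    · have e : (S.filter fun x => x ∈ (V i).filter (fun x => f i x / m ^ 2 = 0) ∧
          f i x % m = b) = S.filter (fun x => f i x / m ^ 2 = 0 ∧ f i x % m = b) := by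
        ext x; simp only [Finset.mem_filter]
        exact ⟨fun h => ⟨h.1, h.2.1.2, h.2.2⟩, fun h => ⟨h.1, ⟨hSin x h.1, h.2.1⟩, h.2.2⟩⟩
      rw [e]
      refine hgen (fun c => c / m ^ 2 = 0 ∧ c % m = b) m _ (cQ b hb) (hmm.trans hmK) ?_
      rw [hBr]; field_simp
    · have e : (S.filter fun x => x ∈ (V i).filter (fun x => f i x / m ^ 2 = 0) ∧
          f i x / m % m = a ∧ f i x % m = b)
          = S.filter (fun x => f i x / m ^ 2 = 0 ∧ f i x / m % m = a ∧ f i x % m = b) := by
        ext x; simp only [Finset.mem_filter]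
        exact ⟨fun h => ⟨h.1, h.2.1.2, h.2.2⟩, fun h => ⟨h.1, ⟨hSin x h.1, h.2.1⟩, h.2.2⟩⟩
      rw [e]
      refine hgen (fun c => c / m ^ 2 = 0 ∧ c / m % m = a ∧ c % m = b) 1 _ (cPQ a ha b hb)
        (by push_cast; nlinarith) ?_
      rw [hBr]; push_cast; ring
    · have e : (S.filter fun x => x ∉ (V i).filter (fun x => f i x / m ^ 2 = 0) ∧
          f i x / m % m = a) = S.filter (fun x => ¬ f i x / m ^ 2 = 0 ∧ f i x / m % m = a) := by
        ext x; simp only [Finset.mem_filter]
        constructor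
        · rintro ⟨h1, h2, h3⟩; exact ⟨h1, fun h => h2 ⟨hSin x h1, h⟩, h3⟩
        · rintro ⟨h1, h2, h3⟩; exact ⟨h1, fun h => h2 h.2, h3⟩
      rw [e]
      have hk1 : (((K - 1 : ℕ)) : ℝ) = K - 1 := by
        rw [Nat.cast_sub (by omega)]; simp
      refine hgen (fun c => ¬ c / m ^ 2 = 0 ∧ c / m % m = a) ((K - 1) * m) _ (cP' a ha)
        (by push_cast; rw [hk1]; nlinarith) ?_
      rw [hBr]; push_cast; rw [hk1]; field_simp
    · have e : (S.filter fun x => x ∉ (V i).filter (fun x => f i x / m ^ 2 = 0) ∧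
          f i x % m = b) = S.filter (fun x => ¬ f i x / m ^ 2 = 0 ∧ f i x % m = b) := by
        ext x; simp only [Finset.mem_filter]
        constructor
        · rintro ⟨h1, h2, h3⟩; exact ⟨h1, fun h => h2 ⟨hSin x h1, h⟩, h3⟩
        · rintro ⟨h1, h2, h3⟩; exact ⟨h1, fun h => h2 h.2, h3⟩
      rw [e]
      have hk1 : (((K - 1 : ℕ)) : ℝ) = K - 1 := by
        rw [Nat.cast_sub (by omega)]; simp
      refine hgen (fun c => ¬ c / m ^ 2 = 0 ∧ c % m = b) ((K - 1) * m) _ (cQ' b hb)
        (by push_cast; rw [hk1]; nlinarith) ?_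
      rw [hBr]; push_cast; rw [hk1]; field_simp

end Pool.Agent.Lib.MP_cb9986_co.S9
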