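import Pool.Agent.Lib.MP_cb9986_co.S9.Pls
import Pool.Agent.Lib.MP_cb9986_co.S9.Main
import Pool.Agent.Lib.MP_cb9986_co.S9.Absorb
import Pool.Agent.Lib.MP_cb9986_co.S9.AbsorbOne
import Pool.Agent.Lib.MP_cb9986_co.S9.Vortex
import Pool.Agent.Lib.MP_cb9986_co.S9.Split
import Pool.Agent.Lib.MP_cb9986_co.S9.Equitable
import Pool.Agent.Lib.MP_cb9986_co.S9.Cover
import Pool.Agent.Lib.MP_cb9986_co.S9.CoverOut
import Pool.Agent.Lib.MP_cb9986_co.S9.CoverMixed
import Pool.Agent.Lib.MP_cb9986_co.S9.CoverMatch
import Pool.Agent.Lib.MP_cb9986_co.S9.Balance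
import Pool.Agent.Lib.MP_cb9986_co.S9.NibTransport
import Pool.Agent.Lib.MP_cb9986_co.S9.NibFin

/-!
Assembly of the swarm S9: triangle decompositions of dense locally balanced tripartite graphs and
completion of partial Latin squares.
-/

set_option autoImplicit false
open Finset

namespace Pool.Agent.Lib.MP_cb9986_co.S9

theorem main_all : MainStmt :=
  main (vortex (split equitable) (cover balance (nibTransport nibFin) CoverOut coverMixed
    coverMatch)) (absorb absorbOne)

theorem pls_all : PlsStmt := pls main_all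

end Pool.Agent.Lib.MP_cb9986_co.S9
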