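import Pool.Agent.Lib.MP_cb9986_co.S9.Spec

/-!
Swarm S9: near balanced graphs become balanced after deletion of a graph of small degree
(`BalanceStmt`). Directed paths with at most three inner vertices are deleted one by one.
-/

set_option autoImplicit false
open Finset

namespace Pool.Agent.Lib.MP_cb9986_co.S9

variable {α : Type} [DecidableEq α] [Fintype α]

/-- imbalance of a vertex -/
def BalanceB (G : Finset (Arc α)) (v : ZMod 3 × α) : ℤ :=
  ((outN G v.1 v.2).card : ℤ) - ((inN G v.1 v.2).card : ℤ)

theorem Balance_out_insert (D : Finset (Arc α)) (i : ZMod 3) (x y : α) (h : (i, x, y) ∉ D)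
    (v : ZMod 3 × α) :
    (outN (insert (i, x, y) D) v.1 v.2).card
      = (outN D v.1 v.2).card + if v = (i, x) then 1 else 0 := by
  split_ifs with hv
  · subst hv
    have e : outN (insert (i, x, y) D) i x = insert y (outN D i x) := by
      ext z
      simp [Prod.ext_iff]
    simp only
    rw [e, Finset.card_insert_of_notMem]
    simpa using h
  · rw [add_zero]
    congr 1
    ext z
    simp only [mem_outN, Finset.mem_insert, Prod.mk.injEq]
    constructor
    · rintro (⟨h1, h2, _⟩ | h1)
      · exact absurd (Prod.ext h1 h2) hv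
      · exact h1
    · exact Or.inr

theorem Balance_in_insert (D : Finset (Arc α)) (i : ZMod 3) (x y : α) (h : (i, x, y) ∉ D)
    (v : ZMod 3 × α) :
    (inN (insert (i, x, y) D) v.1 v.2).card
      = (inN D v.1 v.2).card + if v = (i + 1, y) then 1 else 0 := by
  obtain ⟨h1, h2, h3, h4⟩ := z3 i
  split_ifs with hv
  · subst hv
    have e : inN (insert (i, x, y) D) (i + 1) y = insert x (inN D (i + 1) y) := by
      ext z
      simp [Prod.ext_iff, h2]
    simp only
    rw [e, Finset.card_insert_of_notMem]
    rw [mem_inN, h2]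
    exact h
  · rw [add_zero]
    congr 1
    ext z
    simp only [mem_inN, Finset.mem_insert, Prod.mk.injEq]
    constructor
    · rintro (⟨h5, _, h6⟩ | h5)
      · exfalso
        apply hv
        refine Prod.ext ?_ h6
        have h7 := (z3 v.1).2.2.1
        rw [← h5]
        exact h7.symm
      · exact h5
    · exact Or.inr

theorem Balance_out_empty (v : ZMod 3 × α) : (outN (∅ : Finset (Arc α)) v.1 v.2).card = 0 := by
  simp [outN]

theorem Balance_in_empty (v : ZMod 3 × α) : (inN (∅ : Finset (Arc α)) v.1 v.2).card = 0 := by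
  simp [inN]

theorem BalanceB_sum (G : Finset (Arc α)) : ∑ v, BalanceB G v = 0 := by
  have key : ∑ v : ZMod 3 × α, (outN G v.1 v.2).card = ∑ v : ZMod 3 × α, (inN G v.1 v.2).card := by
    induction G using Finset.induction_on with
    | empty => simp [Balance_out_empty, Balance_in_empty]
    | insert e G he ih =>
      obtain ⟨i, x, y⟩ := e
      simp only [Balance_out_insert G i x y he, Balance_in_insert G i x y he,
        Finset.sum_add_distrib, ih, Finset.sum_ite_eq', Finset.mem_univ, if_true]
  unfold BalanceB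
  rw [Finset.sum_sub_distrib]
  have : (∑ v : ZMod 3 × α, ((outN G v.1 v.2).card : ℤ))
      = ∑ v : ZMod 3 × α, ((inN G v.1 v.2).card : ℤ) := by exact_mod_cast key
  rw [this, sub_self]

theorem BalanceB_sdiff {G D : Finset (Arc α)} (h : D ⊆ G) (v : ZMod 3 × α) :
    BalanceB (G \ D) v = BalanceB G v - (outN D v.1 v.2).card + (inN D v.1 v.2).card := by
  unfold BalanceB
  have h1 := out_card_sdiff h v.1 v.2
  have h2 := in_card_sdiff h v.1 v.2
  omega

/-- state of the deletion process -/
structure BalanceState (G D : Finset (Arc α)) (w : ZMod 3 × α → ℕ) (Λ : ℕ) : Prop where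
  sub : D ⊆ G
  out : ∀ v : ZMod 3 × α,
    (outN D v.1 v.2).card + (BalanceB (G \ D) v).natAbs ≤ w v + (BalanceB G v).natAbs
  inn : ∀ v : ZMod 3 × α,
    (inN D v.1 v.2).card + (BalanceB (G \ D) v).natAbs ≤ w v + (BalanceB G v).natAbs
  load : ∀ v, w v ≤ Λ
  tot : 2 * ∑ v, w v + 3 * ∑ v, (BalanceB (G \ D) v).natAbs ≤ 3 * ∑ v, (BalanceB G v).natAbs

theorem Balance_step {G D P : Finset (Arc α)} {w p : ZMod 3 × α → ℕ} {Λ : ℕ}
    (st : BalanceState G D w Λ) (hP : P ⊆ G \ D) (s e : ZMod 3 × α)
    (hs : 0 < BalanceB (G \ D) s) (he : BalanceB (G \ D) e < 0)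
    (hout : ∀ v : ZMod 3 × α, (outN P v.1 v.2).card = p v + if v = s then 1 else 0)
    (hin : ∀ v : ZMod 3 × α, (inN P v.1 v.2).card = p v + if v = e then 1 else 0)
    (hload : ∀ v, w v + p v ≤ Λ) (hp : ∑ v, p v ≤ 3) :
    BalanceState G (D ∪ P) (fun v => w v + p v) Λ ∧
      ∑ v, (BalanceB (G \ (D ∪ P)) v).natAbs + 2 = ∑ v, (BalanceB (G \ D) v).natAbs := by
  have hd : Disjoint D P := by
    rw [Finset.disjoint_left]
    intro a ha ha'
    exact (Finset.mem_sdiff.1 (hP ha')).2 ha
  have hse : s ≠ e := by rintro rfl; omega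
  have hG : G \ (D ∪ P) = (G \ D) \ P := by
    ext a; simp only [Finset.mem_sdiff, Finset.mem_union]; tauto
  have hB : ∀ v, BalanceB (G \ (D ∪ P)) v
      = BalanceB (G \ D) v - (if v = s then 1 else 0) + (if v = e then 1 else 0) := by
    intro v
    rw [hG, BalanceB_sdiff hP, hout, hin]
    push_cast
    ring
  have hN : ∀ v, (BalanceB (G \ (D ∪ P)) v).natAbs + (if v = s then 1 else 0)
      + (if v = e then 1 else 0) = (BalanceB (G \ D) v).natAbs := by
    intro v
    rw [hB v]
    by_cases h1 : v = s
    · subst h1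
      rw [if_pos rfl, if_neg hse, if_pos rfl, if_neg hse]
      omega
    · by_cases h2 : v = e
      · subst h2
        rw [if_neg h1, if_pos rfl, if_neg h1, if_pos rfl]
        omega
      · rw [if_neg h1, if_neg h2, if_neg h1, if_neg h2]
        omega
  have hsum : ∑ v, (BalanceB (G \ (D ∪ P)) v).natAbs + 2 = ∑ v, (BalanceB (G \ D) v).natAbs := by
    have : ∑ v, (BalanceB (G \ D) v).natAbs = ∑ v, ((BalanceB (G \ (D ∪ P)) v).natAbs
        + (if v = s then 1 else 0) + (if v = e then 1 else 0)) :=
      Finset.sum_congr rfl fun v _ => (hN v).symm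
    rw [this, Finset.sum_add_distrib, Finset.sum_add_distrib]
    simp
  refine ⟨⟨?_, ?_, ?_, hload, ?_⟩, hsum⟩
  · exact Finset.union_subset st.sub (hP.trans Finset.sdiff_subset)
  · intro v
    have h1 := st.out v
    have h2 := hN v
    rw [out_card_union hd, hout]
    split_ifs at h2 ⊢ <;> omega
  · intro v
    have h1 := st.inn v
    have h2 := hN v
    rw [in_card_union hd, hin]
    split_ifs at h2 ⊢ <;> omega
  · have h1 := st.tot
    rw [Finset.sum_add_distrib]
    omega

theorem Balance_z3 (i j : ZMod 3) : i = j + 1 ∨ i = j ∨ i = j + 2 := by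
  revert i j; decide

/-- existence of a path from `s` to `e` -/
theorem Balance_path {G' : Finset (Arc α)} {V : ZMod 3 → Finset α} {n Λ : ℕ}
    {w : ZMod 3 × α → ℕ} (hV : ∀ i, (V i).card = n) (hG : Inside V G')
    (hload : ∀ v, w v ≤ Λ)
    (hA : ∀ i, ∀ x ∈ V i,
      n + 2 < 2 * ((outN G' i x).filter (fun y => w (i + 1, y) < Λ)).card)
    (hB : ∀ i, ∀ x ∈ V i, n < 2 * (inN G' i x).card)
    (s e : ZMod 3 × α) (hs : s.2 ∈ V s.1) (he : e.2 ∈ V e.1) :
    ∃ (P : Finset (Arc α)) (p : ZMod 3 × α → ℕ), P ⊆ G' ∧
      (∀ v : ZMod 3 × α, (outN P v.1 v.2).card = p v + if v = s then 1 else 0) ∧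
      (∀ v : ZMod 3 × α, (inN P v.1 v.2).card = p v + if v = e then 1 else 0) ∧
      (∀ v, w v + p v ≤ Λ) ∧ ∑ v, p v ≤ 3 := by
  -- one step
  have nxt : ∀ (i : ZMod 3) (x z : α), x ∈ V i →
      ∃ y, (i, x, y) ∈ G' ∧ y ∈ V (i + 1) ∧ w (i + 1, y) < Λ ∧ y ≠ z := by
    intro i x z hx
    have h1 := hA i x hx
    obtain ⟨y, hy, hyz⟩ := Finset.exists_mem_ne (s := (outN G' i x).filter (fun y => w (i + 1, y) < Λ))
      (by omega) z
    rw [Finset.mem_filter, mem_outN] at hy
    exact ⟨y, hy.1, (hG _ hy.1).2, hy.2, hyz⟩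
  -- last two steps
  have last : ∀ (j : ZMod 3) (a f : α), a ∈ V (j + 1) → f ∈ V j →
      ∃ b, (j + 1, a, b) ∈ G' ∧ (j + 2, b, f) ∈ G' ∧ w (j + 2, b) < Λ := by
    intro j a f ha hf
    have h1 := hA (j + 1) a ha
    have h2 := hB j f hf
    rw [(z3 j).1] at h1
    have hne := Finset.inter_nonempty_of_card_lt_card_add_card (s := V (j + 2))
      (t := (outN G' (j + 1) a).filter (fun y => w (j + 2, y) < Λ)) (u := inN G' j f)
      (by
        intro y hy
        rw [Finset.mem_filter, mem_outN] at hy
        have := (hG _ hy.1).2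
        simpa only [(z3 j).1] using this)
      (by
        intro y hy
        rw [mem_inN] at hy
        exact (hG _ hy).1)
      (by rw [hV]; omega)
    obtain ⟨b, hb⟩ := hne
    rw [Finset.mem_inter, Finset.mem_filter, mem_outN, mem_inN] at hb
    exact ⟨b, hb.1.1, hb.2, hb.1.2⟩
  obtain ⟨j, f⟩ := e
  obtain ⟨i, x⟩ := s
  simp only at hs he
  obtain ⟨z1, z2, z3', z4⟩ := z3 j
  obtain ⟨n1, n2, n3⟩ := z3_ne j
  have hi : i = j + 1 ∨ i = j ∨ i = j + 2 := Balance_z3 i j
  rcases hi with rfl | rfl | rfl
  · -- length 2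
    obtain ⟨b, hb1, hb2, hb3⟩ := last j x f hs he
    refine ⟨insert (j + 1, x, b) (insert (j + 2, b, f) ∅),
      fun v => if v = (j + 2, b) then 1 else 0, ?_, ?_, ?_, ?_, ?_⟩
    · intro a ha
      simp only [Finset.mem_insert, Finset.notMem_empty, or_false] at ha
      rcases ha with rfl | rfl
      · exact hb1
      · exact hb2
    · intro v
      rw [Balance_out_insert _ _ _ _ (by simp [Prod.ext_iff, n3]),
        Balance_out_insert _ _ _ _ (by simp), Balance_out_empty]
      dsimp only
      omega
    · intro v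
      rw [Balance_in_insert _ _ _ _ (by simp [Prod.ext_iff, n3]),
        Balance_in_insert _ _ _ _ (by simp), Balance_in_empty, z1, z3']
      dsimp only
      omega
    · intro v
      simp only
      split_ifs with h1
      · rw [h1]; omega
      · simpa using hload v
    · simp
  · -- length 3
    obtain ⟨a, ha1, ha2, ha3, _⟩ := nxt i x x hs
    obtain ⟨b, hb1, hb2, hb3⟩ := last i a f ha2 he
    refine ⟨insert (i, x, a) (insert (i + 1, a, b) (insert (i + 2, b, f) ∅)),
      fun v => (if v = (i + 1, a) then 1 else 0) + (if v = (i + 2, b) then 1 else 0),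
      ?_, ?_, ?_, ?_, ?_⟩
    · intro c hc
      simp only [Finset.mem_insert, Finset.notMem_empty, or_false] at hc
      rcases hc with rfl | rfl | rfl
      · exact ha1
      · exact hb1
      · exact hb2
    · intro v
      rw [Balance_out_insert _ _ _ _ (by simp [Prod.ext_iff, n1.symm, n2.symm]),
        Balance_out_insert _ _ _ _ (by simp [Prod.ext_iff, n3]),
        Balance_out_insert _ _ _ _ (by simp), Balance_out_empty]
      dsimp only
      omega
    · intro v
      rw [Balance_in_insert _ _ _ _ (by simp [Prod.ext_iff, n1.symm, n2.symm]),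
        Balance_in_insert _ _ _ _ (by simp [Prod.ext_iff, n3]),
        Balance_in_insert _ _ _ _ (by simp), Balance_in_empty, z1, z3']
      dsimp only
      omega
    · intro v
      simp only
      split_ifs with h1 h2 h2
      · exfalso
        rw [h1] at h2
        exact n3 (congrArg Prod.fst h2)
      · rw [h1]; omega
      · rw [h2]; omega
      · simpa using hload v
    · rw [Finset.sum_add_distrib]; simp
  · -- length 4
    obtain ⟨a', hc1, hc2, hc3, hc4⟩ := nxt (j + 2) x f hs
    rw [z3'] at hc2 hc3
    obtain ⟨a, ha1, ha2, ha3, _⟩ := nxt j a' x hc2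
    obtain ⟨b, hb1, hb2, hb3⟩ := last j a f ha2 he
    refine ⟨insert (j + 2, x, a') (insert (j, a', a) (insert (j + 1, a, b)
        (insert (j + 2, b, f) ∅))),
      fun v => (if v = (j, a') then 1 else 0) + ((if v = (j + 1, a) then 1 else 0)
        + (if v = (j + 2, b) then 1 else 0)), ?_, ?_, ?_, ?_, ?_⟩
    · intro c hc
      simp only [Finset.mem_insert, Finset.notMem_empty, or_false] at hc
      rcases hc with rfl | rfl | rfl | rfl
      · exact hc1
      · exact ha1
      · exact hb1
      · exact hb2
    · intro v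
      rw [Balance_out_insert _ _ _ _ (by simp [Prod.ext_iff, n2, n3.symm, hc4]),
        Balance_out_insert _ _ _ _ (by simp [Prod.ext_iff, n1.symm, n2.symm]),
        Balance_out_insert _ _ _ _ (by simp [Prod.ext_iff, n3]),
        Balance_out_insert _ _ _ _ (by simp), Balance_out_empty]
      dsimp only
      omega
    · intro v
      rw [Balance_in_insert _ _ _ _ (by simp [Prod.ext_iff, n2, n3.symm, hc4]),
        Balance_in_insert _ _ _ _ (by simp [Prod.ext_iff, n1.symm, n2.symm]),
        Balance_in_insert _ _ _ _ (by simp [Prod.ext_iff, n3]),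
        Balance_in_insert _ _ _ _ (by simp), Balance_in_empty, z1, z3']
      dsimp only
      omega
    · intro v
      simp only
      split_ifs with h1 h2 h3 h3 h2 h3 h3
      · exfalso; rw [h1] at h2; exact n1 (congrArg Prod.fst h2).symm
      · exfalso; rw [h1] at h2; exact n1 (congrArg Prod.fst h2).symm
      · exfalso; rw [h1] at h3; exact n2 (congrArg Prod.fst h3).symm
      · rw [h1]; omega
      · exfalso; rw [h2] at h3; exact n3 (congrArg Prod.fst h3)
      · rw [h2]; omega
      · rw [h3]; omega
      · simpa using hload v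
    · rw [Finset.sum_add_distrib, Finset.sum_add_distrib]; simp

theorem Balance_B_outside {V : ZMod 3 → Finset α} {G : Finset (Arc α)} (hG : Inside V G)
    (v : ZMod 3 × α) (hv : v.2 ∉ V v.1) : BalanceB G v = 0 := by
  have h1 : outN G v.1 v.2 = ∅ := by
    ext y
    simp only [mem_outN, Finset.notMem_empty, iff_false]
    intro h
    exact hv (hG _ h).1
  have h2 : inN G v.1 v.2 = ∅ := by
    ext y
    simp only [mem_inN, Finset.notMem_empty, iff_false]
    intro h
    have := (hG _ h).2
    simp only [(z3 v.1).2.2.1] at this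
    exact hv this
  unfold BalanceB
  rw [h1, h2]; simp

/-- iteration -/
theorem Balance_iter {G : Finset (Arc α)} {V : ZMod 3 → Finset α} {n Λ : ℕ}
    (hV : ∀ i, (V i).card = n) (hG : Inside V G)
    (hdeg : ∀ (D : Finset (Arc α)) (w : ZMod 3 × α → ℕ), BalanceState G D w Λ →
      (∀ i, ∀ x ∈ V i, n + 2 < 2 * ((outN (G \ D) i x).filter (fun y => w (i + 1, y) < Λ)).card) ∧
      (∀ i, ∀ x ∈ V i, n < 2 * (inN (G \ D) i x).card)) :
    ∀ (m : ℕ) (D : Finset (Arc α)) (w : ZMod 3 × α → ℕ), BalanceState G D w Λ →
      ∑ v, (BalanceB (G \ D) v).natAbs = m →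
      ∃ (D' : Finset (Arc α)) (w' : ZMod 3 × α → ℕ), BalanceState G D' w' Λ ∧
        ∀ v, BalanceB (G \ D') v = 0 := by
  intro m
  induction m using Nat.strong_induction_on with
  | _ m ih =>
    intro D w st hm
    by_cases hz : ∀ v, BalanceB (G \ D) v = 0
    · exact ⟨D, w, st, hz⟩
    · push Not at hz
      obtain ⟨v0, hv0⟩ := hz
      have hsum := BalanceB_sum (G \ D)
      obtain ⟨s, _, hs⟩ := Finset.exists_pos_of_sum_zero_of_exists_nonzero _ hsum
        ⟨v0, Finset.mem_univ _, hv0⟩
      have hsum' : ∑ v, -BalanceB (G \ D) v = 0 := by rw [Finset.sum_neg_distrib, hsum, neg_zero]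
      obtain ⟨e, _, he⟩ := Finset.exists_pos_of_sum_zero_of_exists_nonzero _ hsum'
        ⟨v0, Finset.mem_univ _, neg_ne_zero.2 hv0⟩
      have hG' : Inside V (G \ D) := fun a ha => hG a (Finset.mem_sdiff.1 ha).1
      have hsV : s.2 ∈ V s.1 := by
        by_contra hcon
        rw [Balance_B_outside hG' s hcon] at hs
        exact lt_irrefl _ hs
      have heV : e.2 ∈ V e.1 := by
        by_contra hcon
        rw [Balance_B_outside hG' e hcon] at he
        simp at he
      obtain ⟨hA, hB⟩ := hdeg D w st
      obtain ⟨P, p, hP, ho, hi, hl, hp⟩ := Balance_path hV hG' st.load hA hB s e hsV heV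
      obtain ⟨st', hst'⟩ := Balance_step st hP s e hs (by omega) ho hi hl hp
      exact ih (∑ v, (BalanceB (G \ (D ∪ P)) v).natAbs) (by omega) (D ∪ P) _ st' rfl

/-- **Balancing.** -/
theorem balance : BalanceStmt := by
  intro γ₀ hγ₀
  set γ : ℝ := min γ₀ (1 / 100) with hγdef
  have hγ : 0 < γ := lt_min hγ₀ (by norm_num)
  have hγ1 : γ ≤ 1 / 100 := min_le_right _ _
  have hγ2 : γ ≤ γ₀ := min_le_left _ _
  refine ⟨γ / 10000, by positivity, ?_⟩
  intro α _ _ V n G hV hG hnear hdeg
  set ξ : ℝ := γ / 10000 with hξ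
  have hn0 : (0 : ℝ) ≤ n := Nat.cast_nonneg n
  have hBle : ∀ v : ZMod 3 × α, ((BalanceB G v).natAbs : ℝ) ≤ ξ * n := by
    intro v
    have := hnear v.1 v.2
    rw [Nat.cast_natAbs]
    unfold BalanceB
    push_cast
    exact this
  by_cases hsmall : ξ * n < 1
  · -- already balanced
    refine ⟨∅, Finset.empty_subset _, ?_, ?_⟩
    · intro i x
      simp [outN, inN]
      positivity
    · intro i x
      have h1 := hBle (i, x)
      have h2 : (BalanceB G (i, x)).natAbs = 0 := by
        have : ((BalanceB G (i, x)).natAbs : ℝ) < 1 := lt_of_le_of_lt h1 hsmall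
        have h3 : (BalanceB G (i, x)).natAbs < 1 := by exact_mod_cast this
        omega
      rw [Int.natAbs_eq_zero] at h2
      unfold BalanceB at h2
      simp only [Finset.sdiff_empty]
      simp only at h2
      omega
  · push Not at hsmall
    have hγn : 10000 ≤ γ * n := by
      have : ξ * n = γ * n / 10000 := by rw [hξ]; ring
      rw [this] at hsmall
      linarith
    have hn1 : (1000000 : ℝ) ≤ n := by nlinarith
    set Λ : ℕ := ⌊γ * n / 4⌋₊ with hΛ
    have hΛ1 : (Λ : ℝ) ≤ γ * n / 4 := Nat.floor_le (by positivity)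
    have hΛ2 : γ * n / 8 ≤ (Λ : ℝ) := by
      have := Nat.lt_floor_add_one (γ * n / 4)
      rw [← hΛ] at this
      linarith
    -- total imbalance
    have htot : ((∑ v : ZMod 3 × α, (BalanceB G v).natAbs : ℕ) : ℝ) ≤ 3 * (n * (ξ * n)) := by
      push_cast
      rw [Fintype.sum_prod_type]
      have h1 : ∀ i : ZMod 3, ∑ x : α, ((BalanceB G (i, x)).natAbs : ℝ) ≤ n * (ξ * n) := by
        intro i
        have h2 : ∑ x : α, ((BalanceB G (i, x)).natAbs : ℝ)
            = ∑ x ∈ V i, ((BalanceB G (i, x)).natAbs : ℝ) := by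
          symm
          refine Finset.sum_subset (Finset.subset_univ _) fun x _ hx => ?_
          rw [Balance_B_outside hG (i, x) hx]; simp
        rw [h2]
        calc ∑ x ∈ V i, ((BalanceB G (i, x)).natAbs : ℝ) ≤ ∑ x ∈ V i, ξ * n :=
              Finset.sum_le_sum fun x _ => hBle (i, x)
          _ = n * (ξ * n) := by rw [Finset.sum_const, hV, nsmul_eq_mul]
      calc ∑ i : ZMod 3, ∑ x : α, ((BalanceB G (i, x)).natAbs : ℝ)
          ≤ ∑ i : ZMod 3, (n : ℝ) * (ξ * n) := Finset.sum_le_sum fun i _ => h1 i
        _ = 3 * (n * (ξ * n)) := by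
            rw [Finset.sum_const, Finset.card_univ, ZMod.card, nsmul_eq_mul]; norm_num
    -- degree conditions for every state
    have hdeg' : ∀ (D : Finset (Arc α)) (w : ZMod 3 × α → ℕ), BalanceState G D w Λ →
        (∀ i, ∀ x ∈ V i,
          n + 2 < 2 * ((outN (G \ D) i x).filter (fun y => w (i + 1, y) < Λ)).card) ∧
        (∀ i, ∀ x ∈ V i, n < 2 * (inN (G \ D) i x).card) := by
      intro D w st
      -- overloaded vertices
      have hF : ∀ j : ZMod 3, (((V j).filter fun y => Λ ≤ w (j, y)).card : ℝ) ≤ n / 100 := by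
        intro j
        set F := (V j).filter fun y => Λ ≤ w (j, y) with hFdef
        have h1 : F.card * Λ ≤ ∑ v, w v := by
          calc F.card * Λ = ∑ y ∈ F, Λ := by rw [Finset.sum_const, smul_eq_mul]
            _ ≤ ∑ y ∈ F, w (j, y) :=
                Finset.sum_le_sum fun y hy => (Finset.mem_filter.1 hy).2
            _ ≤ ∑ y : α, w (j, y) :=
                Finset.sum_le_sum_of_subset (Finset.subset_univ _)
            _ ≤ ∑ i : ZMod 3, ∑ y : α, w (i, y) :=
                Finset.single_le_sum (f := fun i => ∑ y : α, w (i, y))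
                  (fun _ _ => Nat.zero_le _) (Finset.mem_univ j)
            _ = ∑ v, w v := (Fintype.sum_prod_type _).symm
        have h2 := st.tot
        have h3 : 2 * (F.card * Λ) ≤ 3 * ∑ v, (BalanceB G v).natAbs := by omega
        have h4 : (2 : ℝ) * (F.card * Λ) ≤ 3 * ((∑ v, (BalanceB G v).natAbs : ℕ) : ℝ) := by
          exact_mod_cast h3
        have h5 : (F.card : ℝ) * (γ * n / 8) ≤ F.card * Λ :=
          mul_le_mul_of_nonneg_left hΛ2 (Nat.cast_nonneg _)
        have h6 : (F.card : ℝ) * (γ * n) ≤ (36 / 10000 * n) * (γ * n) := by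
          have : ξ * n = γ * n / 10000 := by rw [hξ]; ring
          rw [this] at htot
          nlinarith
        have h7 : (F.card : ℝ) ≤ 36 / 10000 * n := le_of_mul_le_mul_right h6 (by linarith)
        linarith
      have hξn : ξ * n = γ * n / 10000 := by rw [hξ]; ring
      have hγn1 : γ * n ≤ n / 100 := by nlinarith
      constructor
      · intro i x hx
        have h1 := out_card_sdiff st.sub i x
        have h2 := st.out (i, x)
        have h3 := st.load (i, x)
        have h4 := hBle (i, x)
        have h5 := (hdeg i x hx).1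
        simp only at h2
        have h6 : ((outN D i x).card : ℝ) ≤ Λ + ξ * n := by
          have : (outN D i x).card ≤ Λ + (BalanceB G (i, x)).natAbs := by omega
          have : ((outN D i x).card : ℝ) ≤ Λ + (BalanceB G (i, x)).natAbs := by exact_mod_cast this
          linarith
        have h7 : ((outN (G \ D) i x).card : ℝ) + (outN D i x).card = (outN G i x).card := by
          exact_mod_cast h1
        have h8 : (outN (G \ D) i x).card
            ≤ ((outN (G \ D) i x).filter (fun y => w (i + 1, y) < Λ)).card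
              + ((V (i + 1)).filter fun y => Λ ≤ w (i + 1, y)).card := by
          rw [← Finset.card_filter_add_card_filter_not (s := outN (G \ D) i x)
            (fun y => w (i + 1, y) < Λ)]
          refine Nat.add_le_add_left (Finset.card_le_card fun y hy => ?_) _
          rw [Finset.mem_filter, mem_outN, Finset.mem_sdiff] at hy
          rw [Finset.mem_filter]
          exact ⟨(hG _ hy.1.1).2, not_lt.1 hy.2⟩
        have h9 : ((outN (G \ D) i x).card : ℝ)
            ≤ ((outN (G \ D) i x).filter (fun y => w (i + 1, y) < Λ)).card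
              + ((V (i + 1)).filter fun y => Λ ≤ w (i + 1, y)).card := by exact_mod_cast h8
        have h10 := hF (i + 1)
        have h11 : (n : ℝ) + 2
            < 2 * ((outN (G \ D) i x).filter (fun y => w (i + 1, y) < Λ)).card := by
          rw [hξn] at h6
          linarith
        exact_mod_cast h11
      · intro i x hx
        have h1 := in_card_sdiff st.sub i x
        have h2 := st.inn (i, x)
        have h3 := st.load (i, x)
        have h4 := hBle (i, x)
        have h5 := (hdeg i x hx).2
        simp only at h2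
        have h6 : ((inN D i x).card : ℝ) ≤ Λ + ξ * n := by
          have : (inN D i x).card ≤ Λ + (BalanceB G (i, x)).natAbs := by omega
          have : ((inN D i x).card : ℝ) ≤ Λ + (BalanceB G (i, x)).natAbs := by exact_mod_cast this
          linarith
        have h7 : ((inN (G \ D) i x).card : ℝ) + (inN D i x).card = (inN G i x).card := by
          exact_mod_cast h1
        have h11 : (n : ℝ) < 2 * (inN (G \ D) i x).card := by
          rw [hξn] at h6
          linarith
        exact_mod_cast h11
    -- the initial state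
    have st0 : BalanceState G ∅ (fun _ => 0) Λ := by
      refine ⟨Finset.empty_subset _, ?_, ?_, fun _ => Nat.zero_le _, ?_⟩
      · intro v
        rw [Balance_out_empty, Finset.sdiff_empty]
      · intro v
        rw [Balance_in_empty, Finset.sdiff_empty]
      · simp
    obtain ⟨D, w, st, hz⟩ := Balance_iter hV hG hdeg' _ ∅ _ st0 rfl
    have hξn : ξ * n = γ * n / 10000 := by rw [hξ]; ring
    have hγγ : γ * n ≤ γ₀ * n := mul_le_mul_of_nonneg_right hγ2 hn0
    refine ⟨D, st.sub, ?_, ?_⟩
    · intro i x
      have h2 := st.out (i, x)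
      have h2' := st.inn (i, x)
      have h3 := st.load (i, x)
      have h4 := hBle (i, x)
      simp only at h2 h2'
      constructor
      · have : (outN D i x).card ≤ Λ + (BalanceB G (i, x)).natAbs := by omega
        have : ((outN D i x).card : ℝ) ≤ Λ + (BalanceB G (i, x)).natAbs := by exact_mod_cast this
        linarith
      · have : (inN D i x).card ≤ Λ + (BalanceB G (i, x)).natAbs := by omega
        have : ((inN D i x).card : ℝ) ≤ Λ + (BalanceB G (i, x)).natAbs := by exact_mod_cast this
        linarith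
    · intro i x
      have := hz (i, x)
      unfold BalanceB at this
      simp only at this
      omega

end Pool.Agent.Lib.MP_cb9986_co.S9
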