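import Mathlib

/-!
Swarm S9: triangle decompositions of dense locally balanced tripartite graphs.

A tripartite graph with classes indexed by `ZMod 3` is a finite set of arcs `(i, x, y)`, where
`x` is a vertex of class `i` and `y` a vertex of class `i + 1`. The same elements `α` are used as
names of the vertices of all three classes.
-/

set_option autoImplicit false
open Finset

namespace Pool.Agent.Lib.MP_cb9986_co.S9

/-- `(i, x, y)` joins the vertex `x` of class `i` to the vertex `y` of class `i + 1`. -/
abbrev Arc (α : Type) := ZMod 3 × α × α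

variable {α : Type} [DecidableEq α]

/-- The triangle on `x` (class `i`), `u` (class `i + 1`), `v` (class `i + 2`). -/
def tri (i : ZMod 3) (x u v : α) : Finset (Arc α) := {(i, x, u), (i + 1, u, v), (i + 2, v, x)}

/-- `G` is a disjoint union of triangles. -/
inductive Dec : Finset (Arc α) → Prop
  | empty : Dec ∅
  | add (i : ZMod 3) (x u v : α) (G : Finset (Arc α)) : Dec G → Disjoint (tri i x u v) G →
      Dec (tri i x u v ∪ G)

/-- Restriction to the vertex sets `U i`. -/
def restr (U : ZMod 3 → Finset α) (G : Finset (Arc α)) : Finset (Arc α) :=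
  G.filter fun e => e.2.1 ∈ U e.1 ∧ e.2.2 ∈ U (e.1 + 1)

/-- All arcs lie inside the vertex sets `V i`. -/
def Inside (V : ZMod 3 → Finset α) (G : Finset (Arc α)) : Prop :=
  ∀ e ∈ G, e.2.1 ∈ V e.1 ∧ e.2.2 ∈ V (e.1 + 1)

variable [Fintype α]

/-- Neighbours of the vertex `x` of class `i` in class `i + 1`. -/
def outN (G : Finset (Arc α)) (i : ZMod 3) (x : α) : Finset α :=
  univ.filter fun y => (i, x, y) ∈ G

/-- Neighbours of the vertex `x` of class `i` in class `i + 2`. -/
def inN (G : Finset (Arc α)) (i : ZMod 3) (x : α) : Finset α :=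
  univ.filter fun y => (i + 2, y, x) ∈ G

/-- Locally balanced. -/
def Bal (G : Finset (Arc α)) : Prop := ∀ i x, (outN G i x).card = (inN G i x).card

/-- All (one-sided) degrees are at most `d`. -/
def DegLe (G : Finset (Arc α)) (d : ℝ) : Prop :=
  ∀ i x, ((outN G i x).card : ℝ) ≤ d ∧ ((inN G i x).card : ℝ) ≤ d

theorem z3 (i : ZMod 3) : i + 1 + 1 = i + 2 ∧ i + 1 + 2 = i ∧ i + 2 + 1 = i ∧ i + 2 + 2 = i + 1 := by
  revert i; decide

theorem z3_ne (i : ZMod 3) : i + 1 ≠ i ∧ i + 2 ≠ i ∧ i + 1 ≠ i + 2 := by
  revert i; decide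

@[simp] theorem mem_outN {G : Finset (Arc α)} {i : ZMod 3} {x y : α} :
    y ∈ outN G i x ↔ (i, x, y) ∈ G := by simp [outN]

@[simp] theorem mem_inN {G : Finset (Arc α)} {i : ZMod 3} {x y : α} :
    y ∈ inN G i x ↔ (i + 2, y, x) ∈ G := by simp [inN]

omit [Fintype α] in
@[simp] theorem mem_tri {i : ZMod 3} {x u v : α} {e : Arc α} :
    e ∈ tri i x u v ↔ e = (i, x, u) ∨ e = (i + 1, u, v) ∨ e = (i + 2, v, x) := by
  simp [tri]

omit [Fintype α] in
@[simp] theorem mem_restr {U : ZMod 3 → Finset α} {G : Finset (Arc α)} {i : ZMod 3} {x y : α} :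
    (i, x, y) ∈ restr U G ↔ (i, x, y) ∈ G ∧ x ∈ U i ∧ y ∈ U (i + 1) := by
  simp [restr]

omit [Fintype α] in
theorem restr_subset (U : ZMod 3 → Finset α) (G : Finset (Arc α)) : restr U G ⊆ G :=
  Finset.filter_subset _ _

omit [Fintype α] in
theorem tri_rot (i : ZMod 3) (x u v : α) : tri (i + 1) u v x = tri i x u v := by
  obtain ⟨h1, h2, h3, h4⟩ := z3 i
  ext e
  simp only [mem_tri, h1, h2]
  tauto

/-! ### Degrees of unions and differences -/

theorem outN_union (G H : Finset (Arc α)) (i : ZMod 3) (x : α) :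
    outN (G ∪ H) i x = outN G i x ∪ outN H i x := by
  ext y; simp

theorem inN_union (G H : Finset (Arc α)) (i : ZMod 3) (x : α) :
    inN (G ∪ H) i x = inN G i x ∪ inN H i x := by
  ext y; simp

theorem outN_sdiff (G H : Finset (Arc α)) (i : ZMod 3) (x : α) :
    outN (G \ H) i x = outN G i x \ outN H i x := by
  ext y; simp

theorem inN_sdiff (G H : Finset (Arc α)) (i : ZMod 3) (x : α) :
    inN (G \ H) i x = inN G i x \ inN H i x := by
  ext y; simp

theorem outN_mono {G H : Finset (Arc α)} (h : G ⊆ H) (i : ZMod 3) (x : α) :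
    outN G i x ⊆ outN H i x := by
  intro y; simp only [mem_outN]; exact fun hy => h hy

theorem inN_mono {G H : Finset (Arc α)} (h : G ⊆ H) (i : ZMod 3) (x : α) :
    inN G i x ⊆ inN H i x := by
  intro y; simp only [mem_inN]; exact fun hy => h hy

theorem out_card_union {G H : Finset (Arc α)} (h : Disjoint G H) (i : ZMod 3) (x : α) :
    (outN (G ∪ H) i x).card = (outN G i x).card + (outN H i x).card := by
  rw [outN_union, Finset.card_union_of_disjoint]
  rw [Finset.disjoint_left] at h ⊢
  intro y hy hy'
  rw [mem_outN] at hy hy'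
  exact h hy hy'

theorem in_card_union {G H : Finset (Arc α)} (h : Disjoint G H) (i : ZMod 3) (x : α) :
    (inN (G ∪ H) i x).card = (inN G i x).card + (inN H i x).card := by
  rw [inN_union, Finset.card_union_of_disjoint]
  rw [Finset.disjoint_left] at h ⊢
  intro y hy hy'
  rw [mem_inN] at hy hy'
  exact h hy hy'

theorem out_card_sdiff {G H : Finset (Arc α)} (h : H ⊆ G) (i : ZMod 3) (x : α) :
    (outN (G \ H) i x).card + (outN H i x).card = (outN G i x).card := by
  rw [← out_card_union Finset.sdiff_disjoint, Finset.sdiff_union_of_subset h]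

theorem in_card_sdiff {G H : Finset (Arc α)} (h : H ⊆ G) (i : ZMod 3) (x : α) :
    (inN (G \ H) i x).card + (inN H i x).card = (inN G i x).card := by
  rw [← in_card_union Finset.sdiff_disjoint, Finset.sdiff_union_of_subset h]

theorem DegLe.mono {G H : Finset (Arc α)} {d d' : ℝ} (h : DegLe H d) (hG : G ⊆ H) (hd : d ≤ d') :
    DegLe G d' := by
  intro i x
  have h1 : ((outN G i x).card : ℝ) ≤ (outN H i x).card := by
    exact_mod_cast Finset.card_le_card (outN_mono hG i x)
  have h2 : ((inN G i x).card : ℝ) ≤ (inN H i x).card := by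
    exact_mod_cast Finset.card_le_card (inN_mono hG i x)
  exact ⟨h1.trans ((h i x).1.trans hd), h2.trans ((h i x).2.trans hd)⟩

theorem DegLe.union {G H : Finset (Arc α)} {d d' : ℝ} (h : DegLe G d) (h' : DegLe H d') :
    DegLe (G ∪ H) (d + d') := by
  intro i x
  have h1 : ((outN (G ∪ H) i x).card : ℝ) ≤ (outN G i x).card + (outN H i x).card := by
    rw [outN_union]; exact_mod_cast Finset.card_union_le _ _
  have h2 : ((inN (G ∪ H) i x).card : ℝ) ≤ (inN G i x).card + (inN H i x).card := by
    rw [inN_union]; exact_mod_cast Finset.card_union_le _ _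
  exact ⟨h1.trans (add_le_add (h i x).1 (h' i x).1), h2.trans (add_le_add (h i x).2 (h' i x).2)⟩

theorem Bal.union {G H : Finset (Arc α)} (hG : Bal G) (hH : Bal H) (h : Disjoint G H) :
    Bal (G ∪ H) := by
  intro i x
  rw [out_card_union h, in_card_union h, hG i x, hH i x]

theorem Bal.sdiff {G H : Finset (Arc α)} (hG : Bal G) (hH : Bal H) (h : H ⊆ G) :
    Bal (G \ H) := by
  intro i x
  have h1 := out_card_sdiff h i x
  have h2 := in_card_sdiff h i x
  have h3 := hG i x
  have h4 := hH i x
  omega

theorem bal_tri (i : ZMod 3) (x u v : α) : Bal (tri i x u v) := by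
  obtain ⟨h1, h2, h3, h4⟩ := z3 i
  obtain ⟨n1, n2, n3⟩ := z3_ne i
  intro j y
  have hj : j = i ∨ j = i + 1 ∨ j = i + 2 := by revert i j; decide
  rcases hj with rfl | rfl | rfl
  · have e1 : outN (tri j x u v) j y = if y = x then {u} else ∅ := by
      ext z
      split_ifs with h
      · simp [h, n1.symm, n2.symm, Prod.ext_iff]
      · simp [h, n1.symm, n2.symm, Prod.ext_iff]
    have e2 : inN (tri j x u v) j y = if y = x then {v} else ∅ := by
      ext z
      split_ifs with h
      · simp [h, n2, n3.symm, Prod.ext_iff]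
      · simp [h, n2, n3.symm, Prod.ext_iff]
    rw [e1, e2]; split_ifs <;> simp
  · have e1 : outN (tri i x u v) (i + 1) y = if y = u then {v} else ∅ := by
      ext z
      split_ifs with h
      · simp [h, n1, n3, Prod.ext_iff]
      · simp [h, n1, n3, Prod.ext_iff]
    have e2 : inN (tri i x u v) (i + 1) y = if y = u then {x} else ∅ := by
      ext z
      split_ifs with h
      · simp [h, h2, n1.symm, n2.symm, Prod.ext_iff]
      · simp [h, h2, n1.symm, n2.symm, Prod.ext_iff]
    rw [e1, e2]; split_ifs <;> simp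
  · have e1 : outN (tri i x u v) (i + 2) y = if y = v then {x} else ∅ := by
      ext z
      split_ifs with h
      · simp [h, n2, n3.symm, Prod.ext_iff]
      · simp [h, n2, n3.symm, Prod.ext_iff]
    have e2 : inN (tri i x u v) (i + 2) y = if y = v then {u} else ∅ := by
      ext z
      split_ifs with h
      · simp [h, h4, n1, n3, Prod.ext_iff]
      · simp [h, h4, n1, n3, Prod.ext_iff]
    rw [e1, e2]; split_ifs <;> simp

theorem bal_empty : Bal (∅ : Finset (Arc α)) := by
  intro i x; simp [outN, inN]

theorem Dec.bal {G : Finset (Arc α)} (h : Dec G) : Bal G := by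
  induction h with
  | empty => exact bal_empty
  | add i x u v G _ hd ih => exact (bal_tri i x u v).union ih hd

omit [Fintype α] in
theorem Dec.union {G H : Finset (Arc α)} (hG : Dec G) (hH : Dec H) (h : Disjoint G H) :
    Dec (G ∪ H) := by
  induction hG with
  | empty => simpa using hH
  | add i x u v G _ hd ih =>
    rw [Finset.disjoint_union_left] at h
    rw [Finset.union_assoc]
    refine Dec.add i x u v _ (ih h.2) ?_
    rw [Finset.disjoint_union_right]
    exact ⟨hd, h.1⟩

omit [Fintype α] in
theorem dec_tri (i : ZMod 3) (x u v : α) : Dec (tri i x u v) := by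
  have := Dec.add i x u v ∅ Dec.empty (Finset.disjoint_empty_right _)
  simpa using this

omit [Fintype α] in
/-- A family of pairwise disjoint triangles. -/
theorem dec_biUnion {ι : Type} [DecidableEq ι] (s : Finset ι) (T : ι → Finset (Arc α))
    (hT : ∀ a ∈ s, Dec (T a)) (hd : ∀ a ∈ s, ∀ b ∈ s, a ≠ b → Disjoint (T a) (T b)) :
    Dec (s.biUnion T) := by
  induction s using Finset.induction_on with
  | empty => simpa using Dec.empty
  | insert a s ha ih =>
    rw [Finset.biUnion_insert]
    refine Dec.union (hT a (Finset.mem_insert_self _ _))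
      (ih (fun b hb => hT b (Finset.mem_insert_of_mem hb))
        (fun b hb c hc => hd b (Finset.mem_insert_of_mem hb) c (Finset.mem_insert_of_mem hc))) ?_
    rw [Finset.disjoint_biUnion_right]
    intro b hb
    exact hd a (Finset.mem_insert_self _ _) b (Finset.mem_insert_of_mem hb)
      (fun h => ha (h ▸ hb))

end Pool.Agent.Lib.MP_cb9986_co.S9
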