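import Pool.Agent.Lib.MP_cb9986_co.S9.NibStep

/-!
The derandomised random greedy algorithm.
-/

set_option autoImplicit false
set_option linter.unusedSectionVars false
open Finset

namespace Pool.Agent.Lib.MP_cb9986_co.S9

variable {α : Type} [DecidableEq α] [Fintype α]

/-- potential of the arcs of one kind -/
noncomputable def Fe (ω : ZMod 3 → α → α → α → ℝ) (L θ₀ : ℝ) (S : Finset (Arc α)) (p : ℝ)
    (i : ZMod 3) : ℝ :=
  ∑ x, ∑ u, chi S i x u * (Et ω L θ₀ S p 1 i x u + Et ω L θ₀ S p (-1) i x u)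

/-- potential of the vertices of one class -/
noncomputable def Fv (G : Finset (Arc α)) (n L θ₀ : ℝ) (S : Finset (Arc α)) (p : ℝ)
    (i : ZMod 3) : ℝ :=
  ∑ x, (Vt G n L θ₀ S p 1 i x + Vt G n L θ₀ S p (-1) i x)

/-- the potential -/
noncomputable def FF (ω : ZMod 3 → α → α → α → ℝ) (G : Finset (Arc α)) (n L θ₀ : ℝ)
    (S : Finset (Arc α)) (p : ℝ) : ℝ :=
  ∑ i : ZMod 3, (Fe ω L θ₀ S p i + Fv G n L θ₀ S p i)

theorem Et_pos (ω : ZMod 3 → α → α → α → ℝ) (L θ₀ : ℝ) (S : Finset (Arc α)) (p σ : ℝ)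
    (i : ZMod 3) (x u : α) : 0 < Et ω L θ₀ S p σ i x u := Real.exp_pos _

theorem Vt_pos (G : Finset (Arc α)) (n L θ₀ : ℝ) (S : Finset (Arc α)) (p σ : ℝ)
    (i : ZMod 3) (x : α) : 0 < Vt G n L θ₀ S p σ i x := Real.exp_pos _

theorem Fe_nonneg (ω : ZMod 3 → α → α → α → ℝ) (L θ₀ : ℝ) (S : Finset (Arc α)) (p : ℝ)
    (i : ZMod 3) : 0 ≤ Fe ω L θ₀ S p i :=
  Finset.sum_nonneg fun x _ => Finset.sum_nonneg fun u _ =>
    mul_nonneg (chi_nonneg _ _ _ _) (add_pos (Et_pos _ _ _ _ _ _ _ _ _) (Et_pos _ _ _ _ _ _ _ _ _)).le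

theorem Fv_nonneg (G : Finset (Arc α)) (n L θ₀ : ℝ) (S : Finset (Arc α)) (p : ℝ)
    (i : ZMod 3) : 0 ≤ Fv G n L θ₀ S p i :=
  Finset.sum_nonneg fun x _ => (add_pos (Vt_pos _ _ _ _ _ _ _ _ _) (Vt_pos _ _ _ _ _ _ _ _ _)).le

theorem FF_ge (ω : ZMod 3 → α → α → α → ℝ) (G : Finset (Arc α)) (n L θ₀ : ℝ)
    (S : Finset (Arc α)) (p : ℝ) (i : ZMod 3) :
    Fe ω L θ₀ S p i + Fv G n L θ₀ S p i ≤ FF ω G n L θ₀ S p :=
  Finset.single_le_sum (f := fun i => Fe ω L θ₀ S p i + Fv G n L θ₀ S p i)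
    (fun j _ => add_nonneg (Fe_nonneg _ _ _ _ _ _) (Fv_nonneg _ _ _ _ _ _ _)) (Finset.mem_univ i)

theorem FF_dd {ω : ZMod 3 → α → α → α → ℝ} {G : Finset (Arc α)} {n L θ₀ : ℝ}
    {S : Finset (Arc α)} {p : ℝ} (hL : 0 < L) (h : FF ω G n L θ₀ S p < 1)
    {i : ZMod 3} {x u : α} (hx : (i, x, u) ∈ S) : |dd ω S i x u - p ^ 2| ≤ θ₀ / p ^ 10 := by
  by_contra hc
  push Not at hc
  have h1 := FF_ge ω G n L θ₀ S p i
  have h2 : chi S i x u * (Et ω L θ₀ S p 1 i x u + Et ω L θ₀ S p (-1) i x u) ≤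
      Fe ω L θ₀ S p i := by
    have a1 : ∀ y v, 0 ≤ chi S i y v * (Et ω L θ₀ S p 1 i y v + Et ω L θ₀ S p (-1) i y v) :=
      fun y v => mul_nonneg (chi_nonneg _ _ _ _)
        (add_pos (Et_pos _ _ _ _ _ _ _ _ _) (Et_pos _ _ _ _ _ _ _ _ _)).le
    refine le_trans ?_ (Finset.single_le_sum (f := fun y => ∑ v, chi S i y v *
      (Et ω L θ₀ S p 1 i y v + Et ω L θ₀ S p (-1) i y v))
      (fun y _ => Finset.sum_nonneg fun v _ => a1 y v) (Finset.mem_univ x))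
    exact Finset.single_le_sum (f := fun v => chi S i x v *
      (Et ω L θ₀ S p 1 i x v + Et ω L θ₀ S p (-1) i x v)) (fun v _ => a1 x v) (Finset.mem_univ u)
  rw [chi_of_mem hx, one_mul] at h2
  have h3 := Fv_nonneg G n L θ₀ S p i
  have h4 := Et_pos ω L θ₀ S p 1 i x u
  have h5 := Et_pos ω L θ₀ S p (-1) i x u
  rcases lt_abs.1 hc with h6 | h6
  · have : 1 ≤ Et ω L θ₀ S p 1 i x u := by
      unfold Et
      refine Real.one_le_exp ?_
      exact mul_nonneg hL.le (by linarith)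
    linarith
  · have : 1 ≤ Et ω L θ₀ S p (-1) i x u := by
      unfold Et
      refine Real.one_le_exp ?_
      exact mul_nonneg hL.le (by linarith)
    linarith

theorem FF_rr {ω : ZMod 3 → α → α → α → ℝ} {G : Finset (Arc α)} {n L θ₀ : ℝ}
    {S : Finset (Arc α)} {p : ℝ} (hL : 0 < L) (hn : 0 < n) (h : FF ω G n L θ₀ S p < 1)
    (i : ZMod 3) (x : α) :
    |((outN S i x).card : ℝ) - p * (outN G i x).card| ≤ θ₀ / p ^ 12 * n := by
  by_contra hc
  push Not at hc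
  have h1 := FF_ge ω G n L θ₀ S p i
  have h2 : Vt G n L θ₀ S p 1 i x + Vt G n L θ₀ S p (-1) i x ≤ Fv G n L θ₀ S p i :=
    Finset.single_le_sum (f := fun y => Vt G n L θ₀ S p 1 i y + Vt G n L θ₀ S p (-1) i y)
      (fun y _ => (add_pos (Vt_pos _ _ _ _ _ _ _ _ _) (Vt_pos _ _ _ _ _ _ _ _ _)).le)
      (Finset.mem_univ x)
  have h3 := Fe_nonneg ω L θ₀ S p i
  have h4 := Vt_pos G n L θ₀ S p 1 i x
  have h5 := Vt_pos G n L θ₀ S p (-1) i x
  have e : ((outN S i x).card : ℝ) / n - p * (outN G i x).card / n =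
      (((outN S i x).card : ℝ) - p * (outN G i x).card) / n := by ring
  rcases lt_abs.1 hc with h6 | h6
  · have : 1 ≤ Vt G n L θ₀ S p 1 i x := by
      unfold Vt
      rw [e]
      refine Real.one_le_exp ?_
      refine mul_nonneg hL.le ?_
      have := (lt_div_iff₀ hn).2 h6
      linarith
    linarith
  · have : 1 ≤ Vt G n L θ₀ S p (-1) i x := by
      unfold Vt
      rw [e]
      refine Real.one_le_exp ?_
      refine mul_nonneg hL.le ?_
      have := (lt_div_iff₀ hn).2 h6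
      rw [neg_div] at this
      linarith
    linarith

theorem swap5 (f : α → α → α → α → α → ℝ) :
    ∑ a, ∑ b, ∑ c, ∑ x, ∑ u, f a b c x u = ∑ x, ∑ u, ∑ a, ∑ b, ∑ c, f a b c x u := by
  have : ∑ j : α × α × α, ∑ k : α × α, f j.1 j.2.1 j.2.2 k.1 k.2 =
      ∑ k : α × α, ∑ j : α × α × α, f j.1 j.2.1 j.2.2 k.1 k.2 := Finset.sum_comm
  simpa only [Fintype.sum_prod_type] using this

theorem swap4 (f : α → α → α → α → ℝ) :
    ∑ a, ∑ b, ∑ c, ∑ x, f a b c x = ∑ x, ∑ a, ∑ b, ∑ c, f a b c x := by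
  have : ∑ j : α × α × α, ∑ k : α, f j.1 j.2.1 j.2.2 k =
      ∑ k : α, ∑ j : α × α × α, f j.1 j.2.1 j.2.2 k := Finset.sum_comm
  simpa only [Fintype.sum_prod_type] using this

theorem av_Fe {ω : ZMod 3 → α → α → α → ℝ} {n N γ L : ℝ} (P : Par α ω n N γ L)
    {S : Finset (Arc α)} {p : ℝ} (hp : γ ≤ p - 1 / N) (hp1 : p ≤ 1)
    (hdd : ∀ i x u, (i, x, u) ∈ S → |dd ω S i x u - p ^ 2| ≤ γ ^ 13 / p ^ 10)
    (hcnt : ∀ i, ∑ x, ∑ u, chi S i x u = N * p) (i : ZMod 3) :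
    av ω S (fun S' => Fe ω L (γ ^ 13) S' (p - 1 / N) i) i ≤
      (1 + 4000 / N) * ww ω S i * Fe ω L (γ ^ 13) S p i := by
  have hE : av ω S (fun S' => Fe ω L (γ ^ 13) S' (p - 1 / N) i) i =
      ∑ x, ∑ u, ∑ a, ∑ b, ∑ c, rho ω S i a b c * (chi (S \ tri i a b c) i x u *
      (Et ω L (γ ^ 13) (S \ tri i a b c) (p - 1 / N) 1 i x u +
      Et ω L (γ ^ 13) (S \ tri i a b c) (p - 1 / N) (-1) i x u)) := by
    unfold av Fe
    simp only [Finset.mul_sum]
    exact swap5 _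
  rw [hE]
  unfold Fe
  rw [Finset.mul_sum]
  refine Finset.sum_le_sum fun x _ => ?_
  rw [Finset.mul_sum]
  refine Finset.sum_le_sum fun u _ => ?_
  by_cases hx : (i, x, u) ∈ S
  · rw [chi_of_mem hx, one_mul, mul_add]
    refine le_trans (le_of_eq ?_) (add_le_add (edge_step P hp hp1 hdd hcnt (Or.inl rfl) hx)
      (edge_step P hp hp1 hdd hcnt (Or.inr rfl) hx))
    simp only [← Finset.sum_add_distrib]
    exact Finset.sum_congr rfl fun a _ => Finset.sum_congr rfl fun b _ =>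
      Finset.sum_congr rfl fun c _ => by ring
  · have h0 : ∀ a b c, chi (S \ tri i a b c) i x u = 0 := by
      intro a b c
      apply chi_of_not_mem
      intro h
      exact hx (Finset.mem_sdiff.1 h).1
    simp only [h0, chi_of_not_mem hx, zero_mul, mul_zero, Finset.sum_const_zero, le_refl]

theorem av_Fv {ω : ZMod 3 → α → α → α → ℝ} {n N γ L : ℝ} (P : Par α ω n N γ L)
    {G S : Finset (Arc α)} {p : ℝ} (hp : γ ≤ p - 1 / N) (hp1 : p ≤ 1)
    (hdd : ∀ i x u, (i, x, u) ∈ S → |dd ω S i x u - p ^ 2| ≤ γ ^ 13 / p ^ 10)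
    (hcnt : ∀ i, ∑ x, ∑ u, chi S i x u = N * p) (i : ZMod 3)
    (hr : ∀ x, |((outN S i x).card : ℝ) - p * (outN G i x).card| ≤ γ ^ 13 / p ^ 12 * n) :
    av ω S (fun S' => Fv G n L (γ ^ 13) S' (p - 1 / N) i) i ≤
      (1 + 4000 / N) * ww ω S i * Fv G n L (γ ^ 13) S p i := by
  have hE : av ω S (fun S' => Fv G n L (γ ^ 13) S' (p - 1 / N) i) i =
      ∑ x, ∑ a, ∑ b, ∑ c, rho ω S i a b c *
      (Vt G n L (γ ^ 13) (S \ tri i a b c) (p - 1 / N) 1 i x +
      Vt G n L (γ ^ 13) (S \ tri i a b c) (p - 1 / N) (-1) i x) := by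
    unfold av Fv
    simp only [Finset.mul_sum]
    exact swap4 _
  rw [hE]
  unfold Fv
  rw [Finset.mul_sum]
  refine Finset.sum_le_sum fun x _ => ?_
  rw [mul_add]
  refine le_trans (le_of_eq ?_) (add_le_add (vertex_step P hp hp1 hdd hcnt (Or.inl rfl) (hr x))
    (vertex_step P hp hp1 hdd hcnt (Or.inr rfl) (hr x)))
  simp only [← Finset.sum_add_distrib]
  exact Finset.sum_congr rfl fun a _ => Finset.sum_congr rfl fun b _ =>
    Finset.sum_congr rfl fun c _ => by ring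

theorem av_add (ω : ZMod 3 → α → α → α → ℝ) (S : Finset (Arc α)) (Φ Ψ : Finset (Arc α) → ℝ)
    (i : ZMod 3) : av ω S (fun S' => Φ S' + Ψ S') i = av ω S Φ i + av ω S Ψ i := by
  unfold av
  simp only [← Finset.sum_add_distrib]
  exact Finset.sum_congr rfl fun a _ => Finset.sum_congr rfl fun b _ =>
    Finset.sum_congr rfl fun c _ => by ring

theorem av_sum (ω : ZMod 3 → α → α → α → ℝ) (S : Finset (Arc α))
    (Φ : ZMod 3 → Finset (Arc α) → ℝ) (i : ZMod 3) :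
    av ω S (fun S' => ∑ j, Φ j S') i = ∑ j, av ω S (Φ j) i := by
  have h : (Finset.univ : Finset (ZMod 3)) = {0, 1, 2} := by decide
  have e : ∀ f : ZMod 3 → ℝ, ∑ j, f j = f 0 + (f 1 + f 2) := by
    intro f
    rw [h, Finset.sum_insert (by decide), Finset.sum_insert (by decide), Finset.sum_singleton]
  simp_rw [e]
  rw [av_add, av_add]

theorem FF_av {ω : ZMod 3 → α → α → α → ℝ} {n N γ L : ℝ} (P : Par α ω n N γ L)
    {G S : Finset (Arc α)} {p : ℝ} (hp : γ ≤ p - 1 / N) (hp1 : p ≤ 1)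
    (hcnt : ∀ i, ∑ x, ∑ u, chi S i x u = N * p) (hF : FF ω G n L (γ ^ 13) S p < 1) :
    av ω S (fun S' => FF ω G n L (γ ^ 13) S' (p - 1 / N)) 0 ≤
      (1 + 4000 / N) * ww ω S 0 * FF ω G n L (γ ^ 13) S p := by
  have hdd : ∀ i x u, (i, x, u) ∈ S → |dd ω S i x u - p ^ 2| ≤ γ ^ 13 / p ^ 10 :=
    fun i x u h => FF_dd P.L_pos hF h
  have hr := FF_rr P.L_pos P.n_pos hF
  unfold FF
  rw [av_sum ω S (fun j S' => Fe ω L (γ ^ 13) S' (p - 1 / N) j + Fv G n L (γ ^ 13) S' (p - 1 / N) j),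
    Finset.mul_sum]
  refine Finset.sum_le_sum fun i _ => ?_
  rw [av_add, ← av_eq P.wt S _ i, ← av_eq P.wt S (fun S' => Fv G n L (γ ^ 13) S' (p - 1 / N) i) i,
    mul_add, ← ww_eq P.wt S i]
  exact add_le_add (av_Fe P hp hp1 hdd hcnt i) (av_Fv P hp hp1 hdd hcnt i (hr i))

theorem ww_pos {ω : ZMod 3 → α → α → α → ℝ} {n N γ L : ℝ} (P : Par α ω n N γ L)
    {S : Finset (Arc α)} {p : ℝ} (hp : γ ≤ p) (i : ZMod 3)
    (hdd : ∀ i x u, (i, x, u) ∈ S → |dd ω S i x u - p ^ 2| ≤ γ ^ 13 / p ^ 10)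
    (hcnt : ∀ i, ∑ x, ∑ u, chi S i x u = N * p) : 0 < ww ω S i := by
  have hγ := P.γ_pos
  have hp0 : 0 < p := by linarith
  have hW : |ww ω S i - N * p * p ^ 2| ≤ N * p * (γ ^ 13 / p ^ 10) :=
    ww_close i (fun x u hxu => hdd i x u hxu) (hcnt i)
  refine nib_W_pos P.N_pos hp0 (y := p ^ 2) (by positivity) ?_ hW
  rw [tol10 hγ hp]
  have := tol12 hγ P.γ_le hp
  have hp2 : 0 ≤ p ^ 2 := by positivity
  nlinarith

/-- From the weighted average to one triangle. -/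
theorem exists_tri {ω : ZMod 3 → α → α → α → ℝ} {c0 : ℝ} (hω : Wt ω c0) {S : Finset (Arc α)}
    {Φ : Finset (Arc α) → ℝ} {B : ℝ} (hW : 0 < ww ω S 0)
    (h : av ω S Φ 0 ≤ ww ω S 0 * B) :
    ∃ a b c, tri 0 a b c ⊆ S ∧ Φ (S \ tri 0 a b c) ≤ B := by
  by_contra hc
  push Not at hc
  have h1 : ∀ a b c, 0 < rho ω S 0 a b c → B < Φ (S \ tri 0 a b c) := by
    intro a b c hρ
    apply hc
    have hm : (0, a, b) ∈ S ∧ (0 + 1, b, c) ∈ S ∧ (0 + 2, c, a) ∈ S := by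
      unfold rho at hρ
      refine ⟨?_, ?_, ?_⟩ <;> by_contra h2 <;> rw [chi_of_not_mem h2] at hρ <;> simp at hρ
    intro e he
    rw [mem_tri] at he
    rcases he with rfl | rfl | rfl
    · exact hm.1
    · exact hm.2.1
    · exact hm.2.2
  have h2 : ∀ a b c, 0 ≤ rho ω S 0 a b c * (Φ (S \ tri 0 a b c) - B) := by
    intro a b c
    rcases (rho_nonneg hω S 0 a b c).eq_or_lt with h3 | h3
    · rw [← h3]; simp
    · exact mul_nonneg h3.le (by linarith [h1 a b c h3])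
  obtain ⟨a, b, c, h3⟩ : ∃ a b c, 0 < rho ω S 0 a b c := by
    by_contra hn
    push Not at hn
    have : ww ω S 0 ≤ 0 := Finset.sum_nonpos fun a _ => Finset.sum_nonpos fun b _ =>
      Finset.sum_nonpos fun c _ => hn a b c
    linarith
  have h4 : 0 < ∑ a, ∑ b, ∑ c, rho ω S 0 a b c * (Φ (S \ tri 0 a b c) - B) := by
    refine Finset.sum_pos' (fun a _ => Finset.sum_nonneg fun b _ =>
      Finset.sum_nonneg fun c _ => h2 a b c) ⟨a, Finset.mem_univ _, ?_⟩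
    refine Finset.sum_pos' (fun b _ => Finset.sum_nonneg fun c _ => h2 a b c)
      ⟨b, Finset.mem_univ _, ?_⟩
    refine Finset.sum_pos' (fun c _ => h2 a b c) ⟨c, Finset.mem_univ _, ?_⟩
    exact mul_pos h3 (by linarith [h1 a b c h3])
  have h5 : ∑ a, ∑ b, ∑ c, rho ω S 0 a b c * (Φ (S \ tri 0 a b c) - B) =
      av ω S Φ 0 - ww ω S 0 * B := by
    unfold av ww
    simp only [Finset.sum_mul, ← Finset.sum_sub_distrib]
    exact Finset.sum_congr rfl fun a _ => Finset.sum_congr rfl fun b _ =>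
      Finset.sum_congr rfl fun c _ => by ring
  linarith

/-- removal of a triangle lowers every kind count by one -/
theorem cnt_sdiff {S : Finset (Arc α)} {i : ZMod 3} {a b c : α} (h : tri i a b c ⊆ S)
    (j : ZMod 3) : ∑ x, ∑ u, chi (S \ tri i a b c) j x u = ∑ x, ∑ u, chi S j x u - 1 := by
  have h0 : ∀ (i : ZMod 3) (a b c : α), (i, a, b) ∈ S →
      ∑ x, ∑ u, chi (S \ tri i a b c) i x u = ∑ x, ∑ u, chi S i x u - 1 := by
    intro i a b c hab
    simp_rw [sum_chi]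
    simp_rw [out_sdiff_tri hab]
    rw [Finset.sum_sub_distrib]
    simp
  have hm1 : (i, a, b) ∈ S := h (by simp)
  have hm2 : (i + 1, b, c) ∈ S := h (by simp)
  have hm3 : (i + 2, c, a) ∈ S := h (by simp)
  have hj : j = i ∨ j = i + 1 ∨ j = i + 2 := by
    clear hm1 hm2 hm3 h h0; revert i j; decide
  rcases hj with rfl | rfl | rfl
  · exact h0 _ _ _ _ hm1
  · rw [← tri_rot]; exact h0 _ _ _ _ hm2
  · have e : i + 2 = i + 1 + 1 := ((z3 i).1).symm
    rw [← tri_rot, ← tri_rot, ← e]; exact h0 _ _ _ _ hm3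

theorem nib_iter {ω : ZMod 3 → α → α → α → ℝ} {n N γ L : ℝ} (P : Par α ω n N γ L)
    {G : Finset (Arc α)} (hcnt : ∀ i, ∑ x, ∑ u, chi G i x u = N)
    (hF : FF ω G n L (γ ^ 13) G 1 * Real.exp 4000 < 1) (t : ℕ) (ht : γ ≤ 1 - t / N) :
    ∃ H, H ⊆ G ∧ Dec H ∧ (∀ i, ∑ x, ∑ u, chi (G \ H) i x u = N * (1 - t / N)) ∧
      FF ω G n L (γ ^ 13) (G \ H) (1 - t / N) ≤
        (1 + 4000 / N) ^ t * FF ω G n L (γ ^ 13) G 1 := by
  have hN := P.N_pos
  have hN1 : 0 < 1 / N := by positivity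
  induction t with
  | zero =>
    refine ⟨∅, Finset.empty_subset _, Dec.empty, ?_, ?_⟩
    · intro i; simp [hcnt]
    · simp
  | succ t ih =>
    have e : (1 : ℝ) - ((t + 1 : ℕ) : ℝ) / N = 1 - t / N - 1 / N := by push_cast; ring
    rw [e] at ht ⊢
    obtain ⟨H, hHG, hH, hc, hFF⟩ := ih (by linarith)
    have hp1 : (1 : ℝ) - t / N ≤ 1 := by
      have : 0 ≤ (t : ℝ) / N := by positivity
      linarith
    have hF0 : 0 ≤ FF ω G n L (γ ^ 13) G 1 := Finset.sum_nonneg fun i _ =>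
      add_nonneg (Fe_nonneg _ _ _ _ _ _) (Fv_nonneg _ _ _ _ _ _ _)
    have hpow : (1 + 4000 / N) ^ t ≤ Real.exp 4000 := by
      have h1 : 1 + 4000 / N ≤ Real.exp (4000 / N) := by
        have := Real.add_one_le_exp (4000 / N); linarith
      have h2 := pow_le_pow_left₀ (by positivity) h1 t
      refine h2.trans ?_
      rw [← Real.exp_nat_mul, Real.exp_le_exp]
      have h3 : (t : ℝ) ≤ N := by
        have h4 : (t : ℝ) / N ≤ 1 := by linarith [P.γ_pos]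
        rwa [div_le_one hN] at h4
      calc (t : ℝ) * (4000 / N) ≤ N * (4000 / N) :=
            mul_le_mul_of_nonneg_right h3 (by positivity)
        _ = 4000 := by field_simp
    have hFlt : FF ω G n L (γ ^ 13) (G \ H) (1 - t / N) < 1 := by
      refine lt_of_le_of_lt hFF (lt_of_le_of_lt ?_ hF)
      rw [mul_comm (FF ω G n L (γ ^ 13) G 1)]
      exact mul_le_mul_of_nonneg_right hpow hF0
    have hav := FF_av P ht hp1 hc hFlt
    have hW := ww_pos P (S := G \ H) (p := 1 - t / N) (by linarith) 0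
      (fun i x u h => FF_dd P.L_pos hFlt h) hc
    obtain ⟨a, b, c, htri, hΦ⟩ := exists_tri P.wt (B := (1 + 4000 / N) *
      FF ω G n L (γ ^ 13) (G \ H) (1 - t / N)) hW (hav.trans (le_of_eq (by ring)))
    have hdisj : Disjoint (tri 0 a b c) H := by
      rw [Finset.disjoint_left]
      intro e he
      exact (Finset.mem_sdiff.1 (htri he)).2
    have hset : G \ (tri 0 a b c ∪ H) = (G \ H) \ tri 0 a b c := by
      ext e; simp only [Finset.mem_sdiff, Finset.mem_union]; tauto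
    refine ⟨tri 0 a b c ∪ H, Finset.union_subset (htri.trans Finset.sdiff_subset) hHG,
      Dec.add 0 a b c H hH hdisj, ?_, ?_⟩
    · intro i
      rw [hset, cnt_sdiff htri, hc]
      field_simp
    · rw [hset]
      refine hΦ.trans ?_
      rw [pow_succ (1 + 4000 / N) t, mul_comm ((1 + 4000 / N) ^ t), mul_assoc]
      exact mul_le_mul_of_nonneg_left hFF (by positivity)

end Pool.Agent.Lib.MP_cb9986_co.S9
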