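import Pool.Agent.Lib.MP_cb9986_co.S9.Defs

/-!
Quantities tracked by the derandomised random greedy algorithm (nibble).
-/

set_option autoImplicit false
open Finset

namespace Pool.Agent.Lib.MP_cb9986_co.S9

variable {α : Type} [DecidableEq α]

/-- indicator of an arc -/
def chi (S : Finset (Arc α)) (i : ZMod 3) (x u : α) : ℝ := if (i, x, u) ∈ S then 1 else 0

theorem chi_nonneg (S : Finset (Arc α)) (i : ZMod 3) (x u : α) : 0 ≤ chi S i x u := by
  unfold chi; split_ifs <;> norm_num

theorem chi_le (S : Finset (Arc α)) (i : ZMod 3) (x u : α) : chi S i x u ≤ 1 := by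
  unfold chi; split_ifs <;> norm_num

theorem chi_mul_self (S : Finset (Arc α)) (i : ZMod 3) (x u : α) :
    chi S i x u * chi S i x u = chi S i x u := by
  unfold chi; split_ifs <;> norm_num

theorem chi_of_mem {S : Finset (Arc α)} {i : ZMod 3} {x u : α} (h : (i, x, u) ∈ S) :
    chi S i x u = 1 := by simp [chi, h]

theorem chi_of_not_mem {S : Finset (Arc α)} {i : ZMod 3} {x u : α} (h : (i, x, u) ∉ S) :
    chi S i x u = 0 := by simp [chi, h]

theorem chi_sdiff0 (S : Finset (Arc α)) (i : ZMod 3) (a b c x u : α) :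
    chi (S \ tri i a b c) i x u = if x = a ∧ u = b then 0 else chi S i x u := by
  obtain ⟨n1, n2, n3⟩ := z3_ne i
  unfold chi
  by_cases h : x = a ∧ u = b
  · obtain ⟨rfl, rfl⟩ := h
    simp
  · rw [if_neg h]
    have : (i, x, u) ∉ tri i a b c := by
      simp only [mem_tri, Prod.mk.injEq, not_or, not_and]
      refine ⟨fun _ h1 h2 => h ⟨h1, h2⟩, fun h1 => absurd h1.symm n1, fun h1 => absurd h1.symm n2⟩
    simp [this]

theorem chi_sdiff1 (S : Finset (Arc α)) (i : ZMod 3) (a b c x u : α) :
    chi (S \ tri i a b c) (i + 1) x u = if x = b ∧ u = c then 0 else chi S (i + 1) x u := by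
  rw [← tri_rot i a b c, chi_sdiff0]

theorem chi_sdiff2 (S : Finset (Arc α)) (i : ZMod 3) (a b c x u : α) :
    chi (S \ tri i a b c) (i + 2) x u = if x = c ∧ u = a then 0 else chi S (i + 2) x u := by
  have h : i + 2 = i + 1 + 1 := by rw [(z3 i).1]
  rw [← tri_rot i a b c, ← tri_rot (i + 1) b c a, h, chi_sdiff0]

variable [Fintype α]

/-- A weighting of the triangles. -/
structure Wt (ω : ZMod 3 → α → α → α → ℝ) (c0 : ℝ) : Prop where
  nonneg : ∀ i x u v, 0 ≤ ω i x u v
  le : ∀ i x u v, ω i x u v ≤ c0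
  rot : ∀ i x u v, ω (i + 1) u v x = ω i x u v

/-- total weight of the surviving triangles at an arc -/
noncomputable def dd (ω : ZMod 3 → α → α → α → ℝ) (S : Finset (Arc α)) (i : ZMod 3) (x u : α) : ℝ :=
  ∑ v, ω i x u v * chi S (i + 1) u v * chi S (i + 2) v x

/-- weight of a surviving triangle -/
noncomputable def rho (ω : ZMod 3 → α → α → α → ℝ) (S : Finset (Arc α)) (i : ZMod 3)
    (a b c : α) : ℝ :=
  ω i a b c * chi S i a b * chi S (i + 1) b c * chi S (i + 2) c a

/-- total weight of the surviving triangles -/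
noncomputable def ww (ω : ZMod 3 → α → α → α → ℝ) (S : Finset (Arc α)) (i : ZMod 3) : ℝ :=
  ∑ a, ∑ b, ∑ c, rho ω S i a b c

variable {ω : ZMod 3 → α → α → α → ℝ} {c0 : ℝ}

omit [Fintype α] in
theorem rho_rot (hω : Wt ω c0) (S : Finset (Arc α)) (i : ZMod 3) (a b c : α) :
    rho ω S (i + 1) b c a = rho ω S i a b c := by
  obtain ⟨h1, h2, h3, h4⟩ := z3 i
  unfold rho
  rw [hω.rot, h1, h2]; ring

omit [Fintype α] in
theorem rho_nonneg (hω : Wt ω c0) (S : Finset (Arc α)) (i : ZMod 3) (a b c : α) :
    0 ≤ rho ω S i a b c := by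
  unfold rho
  have h1 := hω.nonneg i a b c
  have h2 := chi_nonneg S i a b
  have h3 := chi_nonneg S (i + 1) b c
  have h4 := chi_nonneg S (i + 2) c a
  positivity

theorem sum3_rot' (f : α → α → α → ℝ) :
    ∑ y, ∑ z, ∑ x, f x y z = ∑ x, ∑ y, ∑ z, f x y z := by
  have h1 : ∀ y : α, ∑ z, ∑ x, f x y z = ∑ x, ∑ z, f x y z := fun y => Finset.sum_comm
  simp_rw [h1]
  exact Finset.sum_comm

/-- weighted sum over the surviving triangles -/
noncomputable def av (ω : ZMod 3 → α → α → α → ℝ) (S : Finset (Arc α))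
    (Φ : Finset (Arc α) → ℝ) (i : ZMod 3) : ℝ :=
  ∑ a, ∑ b, ∑ c, rho ω S i a b c * Φ (S \ tri i a b c)

theorem av_succ (hω : Wt ω c0) (S : Finset (Arc α)) (Φ : Finset (Arc α) → ℝ) (i : ZMod 3) :
    av ω S Φ (i + 1) = av ω S Φ i := by
  unfold av
  rw [← sum3_rot' (fun a b c => rho ω S i a b c * Φ (S \ tri i a b c))]
  refine Finset.sum_congr rfl fun b _ => Finset.sum_congr rfl fun c _ =>
    Finset.sum_congr rfl fun a _ => ?_
  rw [rho_rot hω, tri_rot]

theorem av_eq (hω : Wt ω c0) (S : Finset (Arc α)) (Φ : Finset (Arc α) → ℝ) (i : ZMod 3) :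
    av ω S Φ i = av ω S Φ 0 := by
  have hi : i = 0 ∨ i = 0 + 1 ∨ i = 0 + 1 + 1 := by revert i; decide
  rcases hi with rfl | rfl | rfl
  · rfl
  · rw [av_succ hω]
  · rw [av_succ hω, av_succ hω]

theorem ww_eq (hω : Wt ω c0) (S : Finset (Arc α)) (i : ZMod 3) : ww ω S i = ww ω S 0 := by
  have := av_eq hω S (fun _ => 1) i
  unfold av at this
  simpa [ww] using this

theorem ww_sum (S : Finset (Arc α)) (i : ZMod 3) :
    ww ω S i = ∑ x, ∑ u, chi S i x u * dd ω S i x u := by
  unfold ww dd rho
  refine Finset.sum_congr rfl fun x _ => Finset.sum_congr rfl fun u _ => ?_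
  rw [Finset.mul_sum]
  exact Finset.sum_congr rfl fun v _ => by ring

/-- number of arcs of each kind -/
theorem sum_chi (S : Finset (Arc α)) (i : ZMod 3) (x : α) :
    ∑ u, chi S i x u = (outN S i x).card := by
  unfold chi outN
  rw [Finset.sum_boole]

/-- Sum of weights at one vertex: the triangles through the arcs out of `x`. -/
theorem sum_rho_vertex (S : Finset (Arc α)) (i : ZMod 3) (x : α) :
    ∑ a, ∑ b, ∑ c, rho ω S i a b c * (if a = x then 1 else 0) =
      ∑ b, chi S i x b * dd ω S i x b := by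
  rw [Finset.sum_eq_single x]
  · refine Finset.sum_congr rfl fun b _ => ?_
    unfold dd rho
    rw [Finset.mul_sum]
    refine Finset.sum_congr rfl fun c _ => ?_
    rw [if_pos rfl]; ring
  · intro a _ ha
    simp [ha]
  · intro h; exact absurd (Finset.mem_univ _) h

/-- weight lost at the arc `(i, x, u)` -/
noncomputable def qq (ω : ZMod 3 → α → α → α → ℝ) (S : Finset (Arc α)) (i : ZMod 3)
    (x u c : α) : ℝ :=
  ω i x u c * chi S (i + 1) u c * chi S (i + 2) c x

omit [Fintype α] in
theorem qq_nonneg (hω : Wt ω c0) (S : Finset (Arc α)) (i : ZMod 3) (x u c : α) :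
    0 ≤ qq ω S i x u c := by
  unfold qq
  have h1 := hω.nonneg i x u c
  have h3 := chi_nonneg S (i + 1) u c
  have h4 := chi_nonneg S (i + 2) c x
  positivity

omit [Fintype α] in
theorem qq_le (hω : Wt ω c0) (S : Finset (Arc α)) (i : ZMod 3) (x u c : α) :
    qq ω S i x u c ≤ c0 := by
  unfold qq
  have h1 := hω.nonneg i x u c
  have h3 := chi_nonneg S (i + 1) u c
  have h4 := chi_nonneg S (i + 2) c x
  have h5 := chi_le S (i + 1) u c
  have h6 := chi_le S (i + 2) c x
  have h7 : ω i x u c * chi S (i + 1) u c ≤ ω i x u c * 1 := mul_le_mul_of_nonneg_left h5 h1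
  have h8 : ω i x u c * chi S (i + 1) u c * chi S (i + 2) c x ≤
      ω i x u c * chi S (i + 1) u c * 1 := mul_le_mul_of_nonneg_left h6 (mul_nonneg h1 h3)
  linarith [hω.le i x u c]

theorem dd_eq_sum_qq (S : Finset (Arc α)) (i : ZMod 3) (x u : α) :
    dd ω S i x u = ∑ c, qq ω S i x u c := rfl

/-- decrease of `dd` at the arc `(i, x, u)` when `tri i a b c` is removed -/
noncomputable def dec (ω : ZMod 3 → α → α → α → ℝ) (S : Finset (Arc α)) (i : ZMod 3)
    (x u a b c : α) : ℝ :=
  qq ω S i x u c * ((if b = u then 1 else 0) + (if a = x then 1 else 0))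

theorem dd_sdiff (S : Finset (Arc α)) (i : ZMod 3) {x u a b c : α} (h : ¬ (x = a ∧ u = b)) :
    dd ω (S \ tri i a b c) i x u = dd ω S i x u - dec ω S i x u a b c := by
  unfold dd dec
  have h1 : ∀ v, ω i x u v * chi (S \ tri i a b c) (i + 1) u v * chi (S \ tri i a b c) (i + 2) v x =
      ω i x u v * chi S (i + 1) u v * chi S (i + 2) v x -
      (if v = c then qq ω S i x u c * ((if b = u then 1 else 0) + (if a = x then 1 else 0))
        else 0) := by
    intro v
    rw [chi_sdiff1, chi_sdiff2]
    by_cases hv : v = c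
    · subst hv
      simp only [and_true, true_and, if_true]
      by_cases hb : u = b
      · have ha : ¬ x = a := fun hx => h ⟨hx, hb⟩
        have ha' : ¬ a = x := fun hx => ha hx.symm
        simp [hb, ha, ha', qq]
      · have hb' : ¬ b = u := fun hx => hb hx.symm
        by_cases ha : x = a
        · simp [hb, hb', ha, qq]
        · have ha' : ¬ a = x := fun hx => ha hx.symm
          simp [hb, hb', ha, ha']
    · simp [hv]
  simp_rw [h1]
  rw [Finset.sum_sub_distrib]
  simp

/-- Expected decrease. -/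
theorem sum_rho_dec (hω : Wt ω c0) (S : Finset (Arc α)) (i : ZMod 3) (x u : α) :
    ∑ a, ∑ b, ∑ c, rho ω S i a b c * dec ω S i x u a b c =
      ∑ c, qq ω S i x u c * (dd ω S (i + 1) u c + dd ω S (i + 2) c x) := by
  obtain ⟨h1, h2, h3, h4⟩ := z3 i
  have e : ∀ a b c, rho ω S i a b c * dec ω S i x u a b c =
      (if b = u then rho ω S i a u c * qq ω S i x u c else 0) +
      (if a = x then rho ω S i x b c * qq ω S i x u c else 0) := by
    intro a b c
    unfold dec
    by_cases hb : b = u
    · by_cases ha : a = x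
      · subst hb; subst ha; simp; ring
      · subst hb; simp [ha]
    · by_cases ha : a = x
      · subst ha; simp [hb]
      · simp [ha, hb]
  simp_rw [e, Finset.sum_add_distrib]
  have s1 : ∑ a, ∑ b, ∑ c, (if b = u then rho ω S i a u c * qq ω S i x u c else 0) =
      ∑ c, qq ω S i x u c * dd ω S (i + 1) u c := by
    have t1 : ∀ a, ∑ b, ∑ c, (if b = u then rho ω S i a u c * qq ω S i x u c else 0) =
        ∑ c, rho ω S i a u c * qq ω S i x u c := by
      intro a
      rw [Finset.sum_eq_single u]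
      · simp
      · intro b _ hb; simp [hb]
      · intro h; exact absurd (Finset.mem_univ _) h
    simp_rw [t1]
    rw [Finset.sum_comm]
    refine Finset.sum_congr rfl fun c _ => ?_
    unfold dd
    rw [Finset.mul_sum]
    refine Finset.sum_congr rfl fun a _ => ?_
    rw [h1, h2, hω.rot]
    unfold rho qq
    have := chi_mul_self S (i + 1) u c
    calc ω i a u c * chi S i a u * chi S (i + 1) u c * chi S (i + 2) c a *
        (ω i x u c * chi S (i + 1) u c * chi S (i + 2) c x) =
        ω i a u c * chi S i a u * chi S (i + 2) c a *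
        (ω i x u c * (chi S (i + 1) u c * chi S (i + 1) u c) * chi S (i + 2) c x) := by ring
      _ = _ := by rw [this]; ring
  have s2 : ∑ a, ∑ b, ∑ c, (if a = x then rho ω S i x b c * qq ω S i x u c else 0) =
      ∑ c, qq ω S i x u c * dd ω S (i + 2) c x := by
    rw [Finset.sum_eq_single x]
    · simp only [if_true]
      rw [Finset.sum_comm]
      refine Finset.sum_congr rfl fun c _ => ?_
      unfold dd
      rw [Finset.mul_sum]
      refine Finset.sum_congr rfl fun b _ => ?_
      have hrot : ω (i + 2) c x b = ω i x b c := by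
        have e1 := hω.rot (i + 1) b c x
        rw [h1] at e1
        rw [e1, hω.rot]
      rw [h3, h4, hrot]
      unfold rho qq
      have := chi_mul_self S (i + 2) c x
      calc ω i x b c * chi S i x b * chi S (i + 1) b c * chi S (i + 2) c x *
          (ω i x u c * chi S (i + 1) u c * chi S (i + 2) c x) =
          ω i x b c * chi S i x b * chi S (i + 1) b c *
          (ω i x u c * chi S (i + 1) u c * (chi S (i + 2) c x * chi S (i + 2) c x)) := by ring
        _ = _ := by rw [this]; ring
    · intro a _ ha; simp [ha]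
    · intro h; exact absurd (Finset.mem_univ _) h
  rw [s1, s2, ← Finset.sum_add_distrib]
  exact Finset.sum_congr rfl fun c _ => by ring

end Pool.Agent.Lib.MP_cb9986_co.S9
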