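import Mathlib

/-!
Real inequalities for the nibble.
-/

set_option autoImplicit false
open Finset

namespace Pool.Agent.Lib.MP_cb9986_co.S9

theorem nib_W_pos {y p N θ W : ℝ} (hN : 0 < N) (hp : 0 < p) (hy : 0 < y) (hθ : 10 * θ ≤ y)
    (hW : |W - N * p * y| ≤ N * p * θ) : 0 < W := by
  have h1 := (abs_le.1 hW).1
  have h2 : N * p * θ ≤ N * p * (y / 10) :=
    mul_le_mul_of_nonneg_left (by linarith) (by positivity)
  have h3 : 0 < N * p * y := by positivity
  linarith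

theorem drift_edge {y p N θ g D W A δ : ℝ} (hN : 0 < N) (hp : 0 < p) (hy : y = p ^ 2)
    (hθ0 : 0 < θ) (hθ : 10 * θ ≤ y) (hD : |D - y| ≤ θ) (hW : |W - N * p * y| ≤ N * p * θ)
    (hA : |A - 2 * y * D| ≤ 2 * θ * D) (hg : 10 * θ / (N * p) ≤ g) (hsmall : p / N ≤ 2 * θ)
    (hδ : δ = p ^ 2 - (p - 1 / N) ^ 2) : |A - δ * W| ≤ g * W := by
  have hy0 : 0 < y := by rw [hy]; positivity
  have hWpos := nib_W_pos hN hp hy0 hθ hW
  have hNp : 0 < N * p := by positivity
  obtain ⟨D1, D2⟩ := abs_le.1 hD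
  obtain ⟨W1, W2⟩ := abs_le.1 hW
  obtain ⟨A1, A2⟩ := abs_le.1 hA
  have hD0 : 0 ≤ D := by linarith
  have hδe : δ = 2 * p / N - 1 / N ^ 2 := by rw [hδ]; field_simp; ring
  have hgW : 10 * θ / (N * p) * W ≤ g * W := mul_le_mul_of_nonneg_right hg hWpos.le
  -- bounds for A
  have hAu : A ≤ 2 * (y + θ) ^ 2 := by
    have h1 : A ≤ 2 * (y + θ) * D := by linarith
    have h2 : 2 * (y + θ) * D ≤ 2 * (y + θ) * (y + θ) :=
      mul_le_mul_of_nonneg_left (by linarith) (by linarith)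
    linarith
  have hAl : 2 * (y - θ) ^ 2 ≤ A := by
    have h1 : 2 * (y - θ) * D ≤ A := by linarith
    have h2 : 2 * (y - θ) * (y - θ) ≤ 2 * (y - θ) * D :=
      mul_le_mul_of_nonneg_left (by linarith) (by linarith)
    linarith
  rw [abs_le]
  constructor
  · -- δ W - g W ≤ A
    have h1 : δ - 10 * θ / (N * p) ≤ (2 * y - 10 * θ) / (N * p) := by
      rw [hδe, hy]
      have : 2 * p / N = 2 * p ^ 2 / (N * p) := by field_simp
      rw [this, sub_div]
      have : 0 ≤ 1 / N ^ 2 := by positivity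
      linarith
    have h2 : 0 ≤ (2 * y - 10 * θ) / (N * p) := div_nonneg (by linarith) hNp.le
    have h3 : (δ - 10 * θ / (N * p)) * W ≤ (2 * y - 10 * θ) * (y + θ) := by
      calc (δ - 10 * θ / (N * p)) * W ≤ (2 * y - 10 * θ) / (N * p) * W :=
            mul_le_mul_of_nonneg_right h1 hWpos.le
        _ ≤ (2 * y - 10 * θ) / (N * p) * (N * p * (y + θ)) :=
            mul_le_mul_of_nonneg_left (by linarith) h2
        _ = (2 * y - 10 * θ) * (y + θ) := by field_simp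
    have h4 : (2 * y - 10 * θ) * (y + θ) ≤ 2 * (y - θ) ^ 2 := by nlinarith
    linarith
  · -- A ≤ δ W + g W
    have h1 : (2 * y - p / N + 10 * θ) * (y - θ) ≤ (δ + 10 * θ / (N * p)) * W := by
      have e1 : δ + 10 * θ / (N * p) = (2 * y - p / N + 10 * θ) / (N * p) := by
        rw [hδe, hy]; field_simp
      have e2 : 0 ≤ (2 * y - p / N + 10 * θ) / (N * p) := div_nonneg (by linarith) hNp.le
      rw [e1]
      calc (2 * y - p / N + 10 * θ) * (y - θ) =
            (2 * y - p / N + 10 * θ) / (N * p) * (N * p * (y - θ)) := by field_simp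
        _ ≤ _ := mul_le_mul_of_nonneg_left (by linarith) e2
    have h2 : 2 * (y + θ) ^ 2 ≤ (2 * y - p / N + 10 * θ) * (y - θ) := by
      have h3 : p / N * (y - θ) ≤ 2 * θ * (y - θ) :=
        mul_le_mul_of_nonneg_right hsmall (by linarith)
      nlinarith
    linarith

theorem drift_vertex {y p N n s r ϑ g W A : ℝ} (hN : 0 < N) (hp : 0 < p) (hp1 : p ≤ 1)
    (hn : 0 < n) (hy0 : 0 < y) (hϑ0 : 0 < ϑ) (hϑ : 10 * ϑ ≤ 1)
    (hr0 : 0 ≤ r) (hrn : r ≤ n) (hs0 : 0 ≤ s) (hsn : s ≤ n)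
    (hr : |r - p * s| ≤ ϑ * n) (hW : |W - N * p * y| ≤ N * p * (ϑ * y))
    (hA : |A - y * r| ≤ ϑ * y * r) (hg : 12 * ϑ / (N * p) ≤ g) :
    |A - s / N * W| ≤ g * n * W := by
  have hWpos : 0 < W := nib_W_pos (θ := ϑ * y) hN hp hy0 (by nlinarith) hW
  have hNp : 0 < N * p := by positivity
  obtain ⟨r1, r2⟩ := abs_le.1 hr
  obtain ⟨W1, W2⟩ := abs_le.1 hW
  obtain ⟨A1, A2⟩ := abs_le.1 hA
  have hgW : 12 * ϑ / (N * p) * n * W ≤ g * n * W := by
    refine mul_le_mul_of_nonneg_right (mul_le_mul_of_nonneg_right hg hn.le) hWpos.le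
  have hWl : N * p * (y * (1 - ϑ)) ≤ W := by linarith
  have hWu : W ≤ N * p * (y * (1 + ϑ)) := by linarith
  have hgl : 12 * ϑ * n * (y * (1 - ϑ)) ≤ 12 * ϑ / (N * p) * n * W := by
    calc 12 * ϑ * n * (y * (1 - ϑ)) = 12 * ϑ / (N * p) * n * (N * p * (y * (1 - ϑ))) := by
          field_simp
      _ ≤ _ := mul_le_mul_of_nonneg_left hWl (by positivity)
  have hsWl : s * p * (y * (1 - ϑ)) ≤ s / N * W := by
    calc s * p * (y * (1 - ϑ)) = s / N * (N * p * (y * (1 - ϑ))) := by field_simp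
      _ ≤ _ := mul_le_mul_of_nonneg_left hWl (by positivity)
  have hsWu : s / N * W ≤ s * p * (y * (1 + ϑ)) := by
    calc s / N * W ≤ s / N * (N * p * (y * (1 + ϑ))) :=
          mul_le_mul_of_nonneg_left hWu (by positivity)
      _ = _ := by field_simp
  have hsp : s * p ≤ n := by nlinarith
  have hϑy : 0 < ϑ * y := by positivity
  have k1 : ϑ * y * r ≤ ϑ * y * n := mul_le_mul_of_nonneg_left hrn hϑy.le
  have k2 : ϑ * y * (s * p) ≤ ϑ * y * n := mul_le_mul_of_nonneg_left hsp hϑy.le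
  have k3 : y * (r - p * s) ≤ y * (ϑ * n) := mul_le_mul_of_nonneg_left r2 hy0.le
  have k4 : y * (-(ϑ * n)) ≤ y * (r - p * s) := mul_le_mul_of_nonneg_left r1 hy0.le
  have k5 : 9 / 10 * (12 * ϑ * n * y) ≤ 12 * ϑ * n * (y * (1 - ϑ)) := by
    have : 0 < 12 * ϑ * n * y := by positivity
    nlinarith
  have k6 : 0 < ϑ * n * y := by positivity
  rw [abs_le]
  constructor <;> nlinarith

/-- lower bound for the growth of the tolerance -/
theorem growth_ge (k : ℕ) {θ0 p N : ℝ} (hN : 0 < N) (hθ : 0 ≤ θ0) (hp : 0 < p - 1 / N) :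
    (k : ℝ) * (θ0 / p ^ k) / (N * p) ≤ θ0 / (p - 1 / N) ^ k - θ0 / p ^ k := by
  have hp0 : 0 < p := by
    have : 0 < 1 / N := by positivity
    linarith
  obtain ⟨p', hp'⟩ : ∃ p', p' = p - 1 / N := ⟨_, rfl⟩
  rw [← hp'] at hp ⊢
  have hpe : p = p' + 1 / N := by rw [hp']; ring
  have h1 : 1 + (k : ℝ) * (p / p' - 1) ≤ (p / p') ^ k := by
    have := one_add_mul_le_pow (a := p / p' - 1) (n := k) (by
      have : 0 < p / p' := by positivity
      linarith)
    simpa using this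
  have h2 : 1 / (N * p) ≤ p / p' - 1 := by
    have e : p / p' - 1 = 1 / (N * p') := by
      rw [hpe, add_div, div_self hp.ne']
      field_simp
      ring
    rw [e]
    have : p' ≤ p := by
      have : 0 < 1 / N := by positivity
      linarith
    exact one_div_le_one_div_of_le (by positivity) (mul_le_mul_of_nonneg_left this hN.le)
  have h3 : θ0 / p' ^ k = θ0 / p ^ k * (p / p') ^ k := by
    rw [div_pow]; field_simp
  rw [h3]
  have h4 : 0 ≤ θ0 / p ^ k := by positivity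
  have h5 : θ0 / p ^ k * (1 + k * (1 / (N * p))) ≤ θ0 / p ^ k * (p / p') ^ k := by
    refine mul_le_mul_of_nonneg_left ?_ h4
    refine le_trans ?_ h1
    have : (k : ℝ) * (1 / (N * p)) ≤ k * (p / p' - 1) :=
      mul_le_mul_of_nonneg_left h2 (Nat.cast_nonneg k)
    linarith
  have e : (k : ℝ) * (θ0 / p ^ k) / (N * p) = θ0 / p ^ k * (k * (1 / (N * p))) := by ring
  rw [e]
  linarith

/-- upper bound for the growth of the tolerance -/
theorem growth_le (k : ℕ) {θ0 p N : ℝ} (hN : 0 < N) (hθ : 0 ≤ θ0) (hp : 0 < p)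
    (hs : 1 / N ≤ p / 2) (hk : (k : ℝ) * (2 / (N * p)) ≤ 1) :
    θ0 / (p - 1 / N) ^ k - θ0 / p ^ k ≤ 4 * k * (θ0 / p ^ k) / (N * p) := by
  obtain ⟨p', hp'⟩ : ∃ p', p' = p - 1 / N := ⟨_, rfl⟩
  rw [← hp']
  have hpe : p = p' + 1 / N := by rw [hp']; ring
  have hp'2 : p / 2 ≤ p' := by rw [hp']; linarith
  have hp'0 : 0 < p' := by linarith
  have e0 : p / p' = 1 + 1 / (N * p') := by
    rw [hpe, add_div, div_self hp'0.ne']
    field_simp
  have hx : 1 / (N * p') ≤ 2 / (N * p) := by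
    rw [div_le_div_iff₀ (by positivity) (by positivity)]
    nlinarith
  set x := 1 / (N * p') with hxd
  have hx0 : 0 ≤ x := by positivity
  have h1 : (1 + x) ^ k ≤ 1 + 2 * (k * (2 / (N * p))) := by
    have a1 : (1 + x) ^ k ≤ Real.exp (k * x) := by
      rw [mul_comm, Real.exp_mul]
      have : 1 + x ≤ Real.exp x := by
        have := Real.add_one_le_exp x
        linarith
      have h := pow_le_pow_left₀ (by linarith) this k
      simpa using h
    have hkx : (k : ℝ) * x ≤ k * (2 / (N * p)) :=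
      mul_le_mul_of_nonneg_left hx (Nat.cast_nonneg k)
    have hkx0 : 0 ≤ (k : ℝ) * x := by positivity
    have a2 : Real.exp (k * x) ≤ 1 + k * x + (k * x) ^ 2 := by
      have := Real.abs_exp_sub_one_sub_id_le (x := k * x) (by
        rw [abs_of_nonneg hkx0]; linarith)
      have := (abs_le.1 this).2
      linarith
    have a3 : ((k : ℝ) * x) ^ 2 ≤ k * x := by nlinarith
    linarith
  have h3 : θ0 / p' ^ k = θ0 / p ^ k * (p / p') ^ k := by
    rw [div_pow]; field_simp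
  rw [h3, e0]
  have h4 : 0 ≤ θ0 / p ^ k := by positivity
  have h5 := mul_le_mul_of_nonneg_left h1 h4
  have e : 4 * (k : ℝ) * (θ0 / p ^ k) / (N * p) = θ0 / p ^ k * (2 * (k * (2 / (N * p)))) := by ring
  rw [e]
  linarith

/-- Weighted exponential sum. -/
theorem exp_sum_le {ι : Type} (J : Finset ι) (ρ u : ι → ℝ) (hρ : ∀ j ∈ J, 0 ≤ ρ j)
    (hu : ∀ j ∈ J, |u j| ≤ 1) (h1 : ∑ j ∈ J, ρ j * u j ≤ 0) (κ : ℝ)
    (h2 : ∑ j ∈ J, ρ j * u j ^ 2 ≤ κ * ∑ j ∈ J, ρ j) :
    ∑ j ∈ J, ρ j * Real.exp (u j) ≤ (1 + κ) * ∑ j ∈ J, ρ j := by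
  have h3 : ∑ j ∈ J, ρ j * Real.exp (u j) ≤ ∑ j ∈ J, (ρ j + ρ j * u j + ρ j * u j ^ 2) := by
    refine Finset.sum_le_sum fun j hj => ?_
    have := Real.abs_exp_sub_one_sub_id_le (hu j hj)
    have h4 : Real.exp (u j) ≤ 1 + u j + u j ^ 2 := by
      have := (abs_le.1 this).2
      linarith
    have h5 := mul_le_mul_of_nonneg_left h4 (hρ j hj)
    linarith
  rw [Finset.sum_add_distrib, Finset.sum_add_distrib] at h3
  linarith

end Pool.Agent.Lib.MP_cb9986_co.S9
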