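import Pool.Agent.Lib.MP_cb9986_co.S9.Spec

set_option autoImplicit false
open Finset

namespace Pool.Agent.Lib.MP_cb9986_co.S9

/-! ### Decomposable graphs and their triangles -/

theorem pls_tri0 {α : Type} [DecidableEq α] (i : ZMod 3) (x u v : α) :
    ∃ a b c : α, tri i x u v = tri 0 a b c := by
  have hi : i = 0 ∨ i = 1 ∨ i = 2 := by revert i; decide
  rcases hi with rfl | rfl | rfl
  · exact ⟨x, u, v, rfl⟩
  · exact ⟨v, x, u, tri_rot 0 v x u⟩
  · refine ⟨u, v, x, ?_⟩
    have h1 := tri_rot 0 u v x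
    have h2 := tri_rot (0 + 1) v x u
    rw [h1] at h2
    exact h2

/-- The triangles of a decomposable graph. -/
theorem pls_triples {α : Type} [DecidableEq α] {G : Finset (Arc α)} (h : Dec G) :
    ∃ S : α → α → α → Prop,
      (∀ a b c, S a b c → (0, a, b) ∈ G ∧ (1, b, c) ∈ G ∧ (2, c, a) ∈ G) ∧
      (∀ a b, (0, a, b) ∈ G → ∃ c, S a b c) ∧
      (∀ a b c c', S a b c → S a b c' → c = c') ∧
      (∀ a b b' c, S a b c → S a b' c → b = b') ∧
      (∀ a a' b c, S a b c → S a' b c → a = a') := by
  induction h with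
  | empty =>
    exact ⟨fun _ _ _ => False, fun a b c h => h.elim, fun a b h => by simp at h,
      fun a b c c' h => h.elim, fun a b b' c h => h.elim, fun a a' b c h => h.elim⟩
  | add i x u v G _ hd ih =>
    obtain ⟨S, s1, s2, s3, s4, s5⟩ := ih
    obtain ⟨a₀, b₀, c₀, e⟩ := pls_tri0 i x u v
    rw [e] at hd ⊢
    have m0 : ((0 : ZMod 3), a₀, b₀) ∈ tri 0 a₀ b₀ c₀ := by simp
    have m1 : ((1 : ZMod 3), b₀, c₀) ∈ tri 0 a₀ b₀ c₀ := by simp
    have m2 : ((2 : ZMod 3), c₀, a₀) ∈ tri 0 a₀ b₀ c₀ := by simp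
    rw [Finset.disjoint_left] at hd
    have n0 := hd m0
    have n1 := hd m1
    have n2 := hd m2
    refine ⟨fun a b c => S a b c ∨ (a = a₀ ∧ b = b₀ ∧ c = c₀), ?_, ?_, ?_, ?_, ?_⟩
    · rintro a b c (h | ⟨rfl, rfl, rfl⟩)
      · obtain ⟨h1, h2, h3⟩ := s1 a b c h
        exact ⟨mem_union_right _ h1, mem_union_right _ h2, mem_union_right _ h3⟩
      · exact ⟨mem_union_left _ m0, mem_union_left _ m1, mem_union_left _ m2⟩
    · intro a b h
      rw [mem_union] at h
      rcases h with h | h
      · rw [mem_tri] at h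
        have k1 : (0 : ZMod 3) ≠ 0 + 1 := by decide
        have k2 : (0 : ZMod 3) ≠ 0 + 2 := by decide
        rcases h with h | h | h
        · simp only [Prod.mk.injEq, true_and] at h
          exact ⟨c₀, Or.inr ⟨h.1, h.2, rfl⟩⟩
        · exact absurd (Prod.mk.inj h).1 k1
        · exact absurd (Prod.mk.inj h).1 k2
      · obtain ⟨c, hc⟩ := s2 a b h
        exact ⟨c, Or.inl hc⟩
    · rintro a b c c' (h | ⟨h1, h2, h3⟩) (h' | ⟨h1', h2', h3'⟩)
      · exact s3 a b c c' h h'
      · subst h1' h2'
        exact absurd (s1 _ _ _ h).1 n0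
      · subst h1 h2
        exact absurd (s1 _ _ _ h').1 n0
      · rw [h3, h3']
    · rintro a b b' c (h | ⟨h1, h2, h3⟩) (h' | ⟨h1', h2', h3'⟩)
      · exact s4 a b b' c h h'
      · subst h1' h3'
        exact absurd (s1 _ _ _ h).2.2 n2
      · subst h1 h3
        exact absurd (s1 _ _ _ h').2.2 n2
      · rw [h2, h2']
    · rintro a a' b c (h | ⟨h1, h2, h3⟩) (h' | ⟨h1', h2', h3'⟩)
      · exact s5 a a' b c h h'
      · subst h2' h3'
        exact absurd (s1 _ _ _ h).2.1 n1
      · subst h2 h3
        exact absurd (s1 _ _ _ h').2.1 n1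
      · rw [h1, h1']

/-! ### Counting -/

theorem pls_card_le {α β : Type} [Fintype α] [Fintype β] (P : α → β → Prop)
    [DecidablePred fun a => ∃ b, P a b] [DecidablePred fun b => ∃ a, P a b]
    (h2 : ∀ a a' b, P a b → P a' b → a = a') :
    (univ.filter fun a => ∃ b, P a b).card ≤ (univ.filter fun b => ∃ a, P a b).card := by
  classical
  rcases isEmpty_or_nonempty β with hE | hE
  · rw [Finset.filter_false_of_mem]
    · simp
    · rintro a - ⟨b, -⟩
      exact hE.elim b
  choose! f hf using fun (a : α) (h : ∃ b, P a b) => h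
  refine Finset.card_le_card_of_injOn f ?_ ?_
  · intro a ha
    have ha' : ∃ b, P a b := by simpa using ha
    simpa using ⟨a, hf a ha'⟩
  · intro a ha a' ha' h
    have ha1 : ∃ b, P a b := by simpa using ha
    have ha2 : ∃ b, P a' b := by simpa using ha'
    have := hf a ha1
    rw [h] at this
    exact h2 a a' _ this (hf a' ha2)

theorem pls_card_eq {α β : Type} [Fintype α] [Fintype β] (P : α → β → Prop)
    [DecidablePred fun a => ∃ b, P a b] [DecidablePred fun b => ∃ a, P a b]
    (h1 : ∀ a b b', P a b → P a b' → b = b') (h2 : ∀ a a' b, P a b → P a' b → a = a') :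
    (univ.filter fun a => ∃ b, P a b).card = (univ.filter fun b => ∃ a, P a b).card :=
  le_antisymm (pls_card_le P h2)
    (pls_card_le (fun b a => P a b) fun b b' a h h' => h1 a b b' h h')

theorem pls_compl {n : ℕ} (S : Finset (Fin n)) (P : Fin n → Prop) [DecidablePred P]
    (h : ∀ x, x ∈ S ↔ ¬ P x) : S.card + (univ.filter P).card = n := by
  classical
  have h1 : S = univ.filter fun x => ¬ P x := by
    ext x; simp [h x]
  have h2 := Finset.card_filter_add_card_filter_not (s := (univ : Finset (Fin n))) P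
  rw [h1, add_comm, h2]
  simp

/-! ### The graph of a partial Latin square -/

open Classical in
/-- The pairs which are not covered by `L`. -/
noncomputable def plsG {n : ℕ} (L : Fin n → Fin n → Option (Fin n)) : Finset (Arc (Fin n)) :=
  univ.filter fun e => (e.1 = 0 ∧ ¬ ∃ s, L e.2.1 e.2.2 = some s) ∨
    (e.1 = 1 ∧ ¬ ∃ r, L r e.2.1 = some e.2.2) ∨ (e.1 = 2 ∧ ¬ ∃ c, L e.2.2 c = some e.2.1)

theorem pls_mem0 {n : ℕ} {L : Fin n → Fin n → Option (Fin n)} {r c : Fin n} :
    ((0 : ZMod 3), r, c) ∈ plsG L ↔ ¬ ∃ s, L r c = some s := by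
  have k1 : (0 : ZMod 3) ≠ 1 := by decide
  have k2 : (0 : ZMod 3) ≠ 2 := by decide
  simp [plsG, k1, k2]

theorem pls_mem1 {n : ℕ} {L : Fin n → Fin n → Option (Fin n)} {c s : Fin n} :
    ((1 : ZMod 3), c, s) ∈ plsG L ↔ ¬ ∃ r, L r c = some s := by
  have k1 : (1 : ZMod 3) ≠ 0 := by decide
  have k2 : (1 : ZMod 3) ≠ 2 := by decide
  simp [plsG, k1, k2]

theorem pls_mem2 {n : ℕ} {L : Fin n → Fin n → Option (Fin n)} {s r : Fin n} :
    ((2 : ZMod 3), s, r) ∈ plsG L ↔ ¬ ∃ c, L r c = some s := by
  have k1 : (2 : ZMod 3) ≠ 0 := by decide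
  have k2 : (2 : ZMod 3) ≠ 1 := by decide
  simp [plsG, k1, k2]

theorem pls (h : MainStmt) : PlsStmt := by
  classical
  intro ε hε
  obtain ⟨n₀, hn₀⟩ := h ε hε
  refine ⟨n₀, fun n hn L h1 h2 hr hc hs => ?_⟩
  have fn : ∀ r c s s', L r c = some s → L r c = some s' → s = s' := by
    intro r c s s' h h'
    rw [h] at h'
    exact Option.some.inj h'
  have rowc : ∀ r, (univ.filter fun c => ∃ s, L r c = some s).card =
      (univ.filter fun s => ∃ c, L r c = some s).card := fun r =>
    pls_card_eq (fun c s => L r c = some s) (fun c s s' => fn r c s s')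
      (fun c c' s => h1 r c c' s)
  have colc : ∀ c, (univ.filter fun r => ∃ s, L r c = some s).card =
      (univ.filter fun s => ∃ r, L r c = some s).card := fun c =>
    pls_card_eq (fun r s => L r c = some s) (fun r s s' => fn r c s s')
      (fun r r' s => h2 r r' c s)
  have symc : ∀ s, (univ.filter fun r => ∃ c, L r c = some s).card =
      (univ.filter fun c => ∃ r, L r c = some s).card := fun s =>
    pls_card_eq (fun r c => L r c = some s) (fun r c c' => h1 r c c' s)
      (fun r r' c => h2 r r' c s)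
  have rowk : ∀ r, ((univ.filter fun c => ∃ s, L r c = some s).card : ℝ) ≤
      (1 / 5 - ε) * n := by
    intro r
    have := hr r
    simpa only [Option.isSome_iff_exists] using this
  have colk : ∀ c, ((univ.filter fun r => ∃ s, L r c = some s).card : ℝ) ≤
      (1 / 5 - ε) * n := by
    intro c
    have := hc c
    simpa only [Option.isSome_iff_exists] using this
  have symk : ∀ s, ((univ.filter fun r => ∃ c, L r c = some s).card : ℝ) ≤
      (1 / 5 - ε) * n := by
    intro s
    refine le_trans ?_ (hs s)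
    choose! f hf using fun (r : Fin n) (h : ∃ c, L r c = some s) => h
    have : (univ.filter fun r => ∃ c, L r c = some s).card ≤
        (univ.filter fun p : Fin n × Fin n => L p.1 p.2 = some s).card := by
      refine Finset.card_le_card_of_injOn (fun r => (r, f r)) ?_ ?_
      · intro r hr
        have hr' : ∃ c, L r c = some s := by simpa using hr
        simpa using hf r hr'
      · intro r _ r' _ h
        exact (Prod.mk.inj h).1
    exact_mod_cast this
  have e02 : (0 : ZMod 3) + 2 = 2 := by decide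
  have e12 : (1 : ZMod 3) + 2 = 0 := by decide
  have e22 : (2 : ZMod 3) + 2 = 1 := by decide
  -- the six degree formulas
  have o0 : ∀ r, (outN (plsG L) 0 r).card + (univ.filter fun c => ∃ s, L r c = some s).card = n :=
    fun r => pls_compl _ _ fun c => by rw [mem_outN, pls_mem0]
  have i0 : ∀ r, (inN (plsG L) 0 r).card + (univ.filter fun s => ∃ c, L r c = some s).card = n :=
    fun r => pls_compl _ _ fun c => by rw [mem_inN, e02, pls_mem2]
  have o1 : ∀ c, (outN (plsG L) 1 c).card + (univ.filter fun s => ∃ r, L r c = some s).card = n :=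
    fun r => pls_compl _ _ fun c => by rw [mem_outN, pls_mem1]
  have i1 : ∀ c, (inN (plsG L) 1 c).card + (univ.filter fun r => ∃ s, L r c = some s).card = n :=
    fun r => pls_compl _ _ fun c => by rw [mem_inN, e12, pls_mem0]
  have o2 : ∀ s, (outN (plsG L) 2 s).card + (univ.filter fun r => ∃ c, L r c = some s).card = n :=
    fun r => pls_compl _ _ fun c => by rw [mem_outN, pls_mem2]
  have i2 : ∀ s, (inN (plsG L) 2 s).card + (univ.filter fun c => ∃ r, L r c = some s).card = n :=
    fun r => pls_compl _ _ fun c => by rw [mem_inN, e22, pls_mem1]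
  have hcases : ∀ i : ZMod 3, i = 0 ∨ i = 1 ∨ i = 2 := by decide
  have hBal : Bal (plsG L) := by
    intro i x
    rcases hcases i with rfl | rfl | rfl
    · have a1 := o0 x
      have a2 := i0 x
      have a3 := rowc x
      omega
    · have a1 := o1 x
      have a2 := i1 x
      have a3 := colc x
      omega
    · have a1 := o2 x
      have a2 := i2 x
      have a3 := symc x
      omega
  have hdeg : ∀ i x, (4 / 5 + ε) * n ≤ ((outN (plsG L) i x).card : ℝ) := by
    intro i x
    rcases hcases i with rfl | rfl | rfl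
    · have a1 : ((outN (plsG L) 0 x).card : ℝ) +
          (univ.filter fun c => ∃ s, L x c = some s).card = n := by exact_mod_cast o0 x
      have a2 := rowk x
      linarith
    · have a1 : ((outN (plsG L) 1 x).card : ℝ) +
          (univ.filter fun s => ∃ r, L r x = some s).card = n := by exact_mod_cast o1 x
      have a2 := colk x
      rw [colc x] at a2
      linarith
    · have a1 : ((outN (plsG L) 2 x).card : ℝ) +
          (univ.filter fun r => ∃ c, L r c = some x).card = n := by exact_mod_cast o2 x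
      have a2 := symk x
      linarith
  obtain ⟨S, s1, s2, s3, s4, s5⟩ := pls_triples (hn₀ n hn (plsG L) hBal hdeg)
  have hM : ∀ r c, ∃ s, L r c = some s ∨ ((¬ ∃ s, L r c = some s) ∧ S r c s) := by
    intro r c
    by_cases h : ∃ s, L r c = some s
    · obtain ⟨s, hs⟩ := h
      exact ⟨s, Or.inl hs⟩
    · obtain ⟨s, hs⟩ := s2 r c (pls_mem0.2 h)
      exact ⟨s, Or.inr ⟨h, hs⟩⟩
  choose M hM using hM
  refine ⟨M, ?_, ?_, ?_⟩
  · intro r c c' e
    rcases hM r c with a | ⟨a, b⟩ <;> rcases hM r c' with a' | ⟨a', b'⟩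
    · rw [← e] at a'
      exact h1 r c c' _ a a'
    · rw [← e] at b'
      exact absurd ⟨c, a⟩ (pls_mem2.1 (s1 _ _ _ b').2.2)
    · rw [← e] at a'
      exact absurd ⟨c', a'⟩ (pls_mem2.1 (s1 _ _ _ b).2.2)
    · rw [← e] at b'
      exact s4 r c c' _ b b'
  · intro c r r' e
    have e' : M r c = M r' c := e
    rcases hM r c with a | ⟨a, b⟩ <;> rcases hM r' c with a' | ⟨a', b'⟩
    · rw [← e'] at a'
      exact h2 r r' c _ a a'
    · rw [← e'] at b'
      exact absurd ⟨r, a⟩ (pls_mem1.1 (s1 _ _ _ b').2.1)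
    · rw [← e'] at a'
      exact absurd ⟨r', a'⟩ (pls_mem1.1 (s1 _ _ _ b).2.1)
    · rw [← e'] at b'
      exact s5 r r' c _ b b'
  · intro r c s hs
    rcases hM r c with a | ⟨a, -⟩
    · exact fn r c _ _ a hs
    · exact absurd ⟨s, hs⟩ a

end Pool.Agent.Lib.MP_cb9986_co.S9
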