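import Pool.Agent.Lib.MP_cb9986_co.S9.Spec

/-!
From the output of the splitting step to the structural hypotheses of the cover-down step.
-/

set_option autoImplicit false
set_option linter.unusedSectionVars false
open Finset

namespace Pool.Agent.Lib.MP_cb9986_co.S9

variable {α : Type} [DecidableEq α] [Fintype α]

theorem mem_resv {U : ZMod 3 → Finset α} {P Q : ZMod 3 → α → ℕ} {G : Finset (Arc α)}
    {i : ZMod 3} {x y : α} :
    (i, x, y) ∈ resv U P Q G ↔ (i, x, y) ∈ G ∧ ((x ∉ U i ∧ y ∈ U (i + 1) ∧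
      P i x = P (i + 1) y) ∨ (x ∈ U i ∧ y ∉ U (i + 1) ∧ Q i x = Q (i + 1) y)) := by
  simp [resv]

theorem out_resv_out {U : ZMod 3 → Finset α} {P Q : ZMod 3 → α → ℕ} {G : Finset (Arc α)}
    {i : ZMod 3} {x : α} (hx : x ∉ U i) : outN (resv U P Q G) i x =
      (outN G i x).filter fun y => y ∈ U (i + 1) ∧ P (i + 1) y = P i x := by
  ext y
  simp only [mem_outN, mem_resv, Finset.mem_filter, hx]
  constructor
  · rintro ⟨h1, ⟨_, h2, h3⟩ | ⟨h2, _⟩⟩
    · exact ⟨h1, h2, h3.symm⟩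
    · exact absurd h2 (by simp)
  · rintro ⟨h1, h2, h3⟩
    exact ⟨h1, Or.inl ⟨by simp, h2, h3.symm⟩⟩

theorem out_resv_in {U : ZMod 3 → Finset α} {P Q : ZMod 3 → α → ℕ} {G : Finset (Arc α)}
    {i : ZMod 3} {x : α} (hx : x ∈ U i) : outN (resv U P Q G) i x =
      (outN G i x).filter fun y => y ∉ U (i + 1) ∧ Q (i + 1) y = Q i x := by
  ext y
  simp only [mem_outN, mem_resv, Finset.mem_filter, hx]
  constructor
  · rintro ⟨h1, ⟨h2, _⟩ | ⟨_, h2, h3⟩⟩
    · exact absurd h2 (by simp)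
    · exact ⟨h1, h2, h3.symm⟩
  · rintro ⟨h1, h2, h3⟩
    exact ⟨h1, Or.inr ⟨trivial, h2, h3.symm⟩⟩

theorem in_resv_out {U : ZMod 3 → Finset α} {P Q : ZMod 3 → α → ℕ} {G : Finset (Arc α)}
    {i : ZMod 3} {x : α} (hx : x ∉ U i) : inN (resv U P Q G) i x =
      (inN G i x).filter fun y => y ∈ U (i + 2) ∧ Q (i + 2) y = Q i x := by
  ext y
  simp only [mem_inN, mem_resv, Finset.mem_filter, (z3 i).2.2.1, hx]
  constructor
  · rintro ⟨h1, ⟨_, h2, _⟩ | ⟨h2, _, h3⟩⟩
    · exact absurd h2 (by simp)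
    · exact ⟨h1, h2, h3⟩
  · rintro ⟨h1, h2, h3⟩
    exact ⟨h1, Or.inr ⟨h2, by simp, h3⟩⟩

theorem in_resv_in {U : ZMod 3 → Finset α} {P Q : ZMod 3 → α → ℕ} {G : Finset (Arc α)}
    {i : ZMod 3} {x : α} (hx : x ∈ U i) : inN (resv U P Q G) i x =
      (inN G i x).filter fun y => y ∉ U (i + 2) ∧ P (i + 2) y = P i x := by
  ext y
  simp only [mem_inN, mem_resv, Finset.mem_filter, (z3 i).2.2.1, hx]
  constructor
  · rintro ⟨h1, ⟨h2, _, h3⟩ | ⟨_, h2, _⟩⟩
    · exact ⟨h1, h2, h3⟩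
    · exact absurd h2 (by simp)
  · rintro ⟨h1, h2, h3⟩
    exact ⟨h1, Or.inl ⟨h2, trivial, h3⟩⟩

theorem out_restr_in {U : ZMod 3 → Finset α} {G : Finset (Arc α)}
    {i : ZMod 3} {x : α} (hx : x ∈ U i) : outN (restr U G) i x =
      (outN G i x).filter fun y => y ∈ U (i + 1) := by
  ext y
  simp [hx]

theorem out_restr_out {U : ZMod 3 → Finset α} {G : Finset (Arc α)}
    {i : ZMod 3} {x : α} (hx : x ∉ U i) : outN (restr U G) i x = ∅ := by
  ext y
  simp [hx]

theorem in_restr_in {U : ZMod 3 → Finset α} {G : Finset (Arc α)}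
    {i : ZMod 3} {x : α} (hx : x ∈ U i) : inN (restr U G) i x =
      (inN G i x).filter fun y => y ∈ U (i + 2) := by
  ext y
  simp [(z3 i).2.2.1, hx]

theorem in_restr_out {U : ZMod 3 → Finset α} {G : Finset (Arc α)}
    {i : ZMod 3} {x : α} (hx : x ∉ U i) : inN (restr U G) i x = ∅ := by
  ext y
  simp [(z3 i).2.2.1, hx]

theorem disj_restr_resv (U : ZMod 3 → Finset α) (P Q : ZMod 3 → α → ℕ) (G : Finset (Arc α)) :
    Disjoint (restr U G) (resv U P Q G) := by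
  rw [Finset.disjoint_left]
  rintro ⟨i, x, y⟩ h1 h2
  rw [mem_restr] at h1
  rw [mem_resv] at h2
  rcases h2.2 with h | h
  · exact h.1 h1.2.1
  · exact h.2.1 h1.2.2

theorem Inside.out {V : ZMod 3 → Finset α} {G : Finset (Arc α)} (h : Inside V G) (i : ZMod 3)
    (x : α) : outN G i x ⊆ V (i + 1) := by
  intro y hy
  rw [mem_outN] at hy
  exact (h _ hy).2

theorem Inside.in' {V : ZMod 3 → Finset α} {G : Finset (Arc α)} (h : Inside V G) (i : ZMod 3)
    (x : α) : inN G i x ⊆ V (i + 2) := by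
  intro y hy
  rw [mem_inN] at hy
  exact (h _ hy).1

theorem Inside.out_empty {V : ZMod 3 → Finset α} {G : Finset (Arc α)} (h : Inside V G)
    {i : ZMod 3} {x : α} (hx : x ∉ V i) : outN G i x = ∅ := by
  rw [Finset.eq_empty_iff_forall_notMem]
  intro y hy
  rw [mem_outN] at hy
  exact hx (h _ hy).1

theorem Inside.in_empty {V : ZMod 3 → Finset α} {G : Finset (Arc α)} (h : Inside V G)
    {i : ZMod 3} {x : α} (hx : x ∉ V i) : inN G i x = ∅ := by
  rw [Finset.eq_empty_iff_forall_notMem]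
  intro y hy
  rw [mem_inN] at hy
  have := (h _ hy).2
  rw [(z3 i).2.2.1] at this
  exact hx this

/-- Output of the splitting step. -/
structure Spl (K m : ℕ) (δ : ℝ) (V U : ZMod 3 → Finset α) (P Q : ZMod 3 → α → ℕ) (n n' : ℕ)
    (T : Finset (Finset α)) : Prop where
  sub : ∀ i, U i ⊆ V i
  cardU : ∀ i, (U i).card = n'
  lt : ∀ i x, P i x < m ∧ Q i x < m
  colP : ∀ i a, (((U i).filter fun x => P i x = a).card : ℝ) ≤ n' / m
  colQ : ∀ i a, (((U i).filter fun x => Q i x = a).card : ℝ) ≤ n' / m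
  colPQ : ∀ i a b, (((V i).filter fun x => x ∉ U i ∧ P i x = a ∧ Q i x = b).card : ℝ) ≤
      2 * n / m ^ 2
  colVP : ∀ i a, (((V i).filter fun x => P i x = a).card : ℝ) ≤ 2 * n / m
  colVQ : ∀ i a, (((V i).filter fun x => Q i x = a).card : ℝ) ≤ 2 * n / m
  t1 : ∀ i, ∀ S ∈ T, S ⊆ V i → |((S.filter fun x => x ∈ U i).card : ℝ) - S.card / K| ≤ δ * n
  tP : ∀ i, ∀ S ∈ T, S ⊆ V i → ∀ a < m,
    |((S.filter fun x => x ∈ U i ∧ P i x = a).card : ℝ) - S.card / (K * m)| ≤ δ * n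
  tQ : ∀ i, ∀ S ∈ T, S ⊆ V i → ∀ a < m,
    |((S.filter fun x => x ∈ U i ∧ Q i x = a).card : ℝ) - S.card / (K * m)| ≤ δ * n
  tPQ : ∀ i, ∀ S ∈ T, S ⊆ V i → ∀ a < m, ∀ b < m,
    |((S.filter fun x => x ∈ U i ∧ P i x = a ∧ Q i x = b).card : ℝ) -
      S.card / (K * m ^ 2)| ≤ δ * n
  tP' : ∀ i, ∀ S ∈ T, S ⊆ V i → ∀ a < m,
    |((S.filter fun x => x ∉ U i ∧ P i x = a).card : ℝ) - S.card * (K - 1) / (K * m)| ≤ δ * n
  tQ' : ∀ i, ∀ S ∈ T, S ⊆ V i → ∀ a < m,
    |((S.filter fun x => x ∉ U i ∧ Q i x = a).card : ℝ) - S.card * (K - 1) / (K * m)| ≤ δ * n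

theorem spl_of {K m : ℕ} {δ : ℝ} {V U : ZMod 3 → Finset α} {P Q : ZMod 3 → α → ℕ} {n : ℕ}
    {T : Finset (Finset α)} (hm : 0 < m) (hK : 0 < K) (hn : K * m ^ 4 ≤ n)
    (h : (∀ i, U i ⊆ V i) ∧ (∀ i, (U i).card = m ^ 2 * (n / (K * m ^ 2))) ∧
      (∀ i x, P i x < m ∧ Q i x < m) ∧
      (∀ i a, ((U i).filter fun x => P i x = a).card ≤ m * (n / (K * m ^ 2)) ∧
        ((U i).filter fun x => Q i x = a).card ≤ m * (n / (K * m ^ 2))) ∧
      (∀ i a b, (((V i).filter fun x => x ∉ U i ∧ P i x = a ∧ Q i x = b).card : ℝ) ≤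
        n / m ^ 2 + K * m ^ 2) ∧
      (∀ i a, (((V i).filter fun x => P i x = a).card : ℝ) ≤ n / m + K * m ^ 2 ∧
        (((V i).filter fun x => Q i x = a).card : ℝ) ≤ n / m + K * m ^ 2) ∧
      ∀ i, ∀ S ∈ T, S ⊆ V i →
        |((S.filter fun x => x ∈ U i).card : ℝ) - S.card / K| ≤ δ * n ∧
        ∀ a < m, ∀ b < m,
          |((S.filter fun x => x ∈ U i ∧ P i x = a).card : ℝ) - S.card / (K * m)| ≤ δ * n ∧
          |((S.filter fun x => x ∈ U i ∧ Q i x = b).card : ℝ) - S.card / (K * m)| ≤ δ * n ∧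
          |((S.filter fun x => x ∈ U i ∧ P i x = a ∧ Q i x = b).card : ℝ) -
            S.card / (K * m ^ 2)| ≤ δ * n ∧
          |((S.filter fun x => x ∉ U i ∧ P i x = a).card : ℝ) -
            S.card * (K - 1) / (K * m)| ≤ δ * n ∧
          |((S.filter fun x => x ∉ U i ∧ Q i x = b).card : ℝ) -
            S.card * (K - 1) / (K * m)| ≤ δ * n) :
    Spl K m δ V U P Q n (m ^ 2 * (n / (K * m ^ 2))) T := by
  obtain ⟨h1, h2, h3, h4, h5, h6, h7⟩ := h
  have hmR : (0 : ℝ) < m := by exact_mod_cast hm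
  have hm1 : (1 : ℝ) ≤ m := by exact_mod_cast hm
  have hnR : (K : ℝ) * m ^ 4 ≤ n := by exact_mod_cast hn
  have hKR : (0 : ℝ) < K := by exact_mod_cast hK
  have e1 : (((m ^ 2 * (n / (K * m ^ 2)) : ℕ) : ℝ)) / m = ((m * (n / (K * m ^ 2)) : ℕ) : ℝ) := by
    push_cast
    field_simp
  have e2 : (K : ℝ) * m ^ 2 ≤ n / m ^ 2 := by
    rw [le_div_iff₀ (by positivity)]
    calc (K : ℝ) * (m : ℝ) ^ 2 * (m : ℝ) ^ 2 = K * (m : ℝ) ^ 4 := by ring
      _ ≤ (n : ℝ) := hnR
  have e3 : (n : ℝ) / m ^ 2 ≤ n / m := by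
    refine div_le_div_of_nonneg_left (Nat.cast_nonneg n) hmR ?_
    nlinarith
  refine ⟨h1, h2, h3, ?_, ?_, ?_, ?_, ?_, ?_, ?_, ?_, ?_, ?_, ?_⟩
  · intro i a; rw [e1]; exact_mod_cast (h4 i a).1
  · intro i a; rw [e1]; exact_mod_cast (h4 i a).2
  · intro i a b
    have := h5 i a b
    have e : 2 * (n : ℝ) / m ^ 2 = n / m ^ 2 + n / m ^ 2 := by ring
    rw [e]; linarith
  · intro i a
    have := (h6 i a).1
    have e : 2 * (n : ℝ) / m = n / m + n / m := by ring
    rw [e]; linarith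
  · intro i a
    have := (h6 i a).2
    have e : 2 * (n : ℝ) / m = n / m + n / m := by ring
    rw [e]; linarith
  · exact fun i S hS hV => (h7 i S hS hV).1
  · exact fun i S hS hV a ha => ((h7 i S hS hV).2 a ha a ha).1
  · exact fun i S hS hV a ha => ((h7 i S hS hV).2 a ha a ha).2.1
  · exact fun i S hS hV a ha b hb => ((h7 i S hS hV).2 a ha b hb).2.2.1
  · exact fun i S hS hV a ha => ((h7 i S hS hV).2 a ha a ha).2.2.2.1
  · exact fun i S hS hV a ha => ((h7 i S hS hV).2 a ha a ha).2.2.2.2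

theorem inter_card_ge {A B W : Finset α} {n : ℕ} {c : ℝ} (hA : A ⊆ W) (hB : B ⊆ W)
    (hW : W.card = n) (h1 : c * n ≤ A.card) (h2 : c * n ≤ B.card) :
    (2 * c - 1) * n ≤ (A ∩ B).card := by
  have h3 := Finset.card_union_add_card_inter A B
  have h4 : (A ∪ B).card ≤ n := by
    rw [← hW]; exact Finset.card_le_card (Finset.union_subset hA hB)
  have h5 : ((A ∪ B).card : ℝ) + (A ∩ B).card = A.card + B.card := by exact_mod_cast h3
  have h6 : ((A ∪ B).card : ℝ) ≤ n := by exact_mod_cast h4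
  linarith

/-- The cover-down hypotheses from the splitting. -/
theorem level_of_spl {K m n n' : ℕ} {ε ξ δ δ₀ β : ℝ} {V U : ZMod 3 → Finset α}
    {P Q : ZMod 3 → α → ℕ} {T : Finset (Finset α)} {G Z : Finset (Arc α)}
    (sp : Spl K m δ V U P Q n n' T) (hε : 0 < ε)
    (hK : 1000 ≤ K) (hm : 1000 ≤ m) (hle : K * n' ≤ n) (hge : n ≤ 2 * K * n')
    (hV : ∀ i, (V i).card = n) (hin : Inside V G)
    (hdeg : ∀ i, ∀ x ∈ V i, (4 / 5 + ε) * n ≤ (outN G i x).card ∧
      (4 / 5 + ε) * n ≤ (inN G i x).card)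
    (himb : ∀ i x, |((outN G i x).card : ℝ) - (inN G i x).card| ≤ β * n)
    (hβ : β + 4 * δ ≤ ξ) (hδ : 0 ≤ δ) (hδδ : δ ≤ δ₀) (hδ₀ : δ₀ * (1000 * K * m ^ 2) ≤ 1)
    (hZ : Z ⊆ restr U G)
    (hZo : ∀ i, ∀ x ∈ V i, x ∉ U i → ∀ u, ((outN Z (i + 1) u ∩ inN (resv U P Q G) i x).card : ℝ) ≤
      (1 / K + 1 / m) * (inN (resv U P Q G) i x).card + 2 * δ₀ * n')
    (hZi : ∀ i, ∀ x ∈ V i, x ∉ U i → ∀ v, ((inN Z (i + 2) v ∩ outN (resv U P Q G) i x).card : ℝ) ≤
      (1 / K + 1 / m) * (outN (resv U P Q G) i x).card + 2 * δ₀ * n')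
    (hT2 : ∀ i, ∀ x ∈ V i, ∀ y ∈ V (i + 1), outN G (i + 1) y ∩ inN G i x ∈ T)
    (hT1 : ∀ i, ∀ x ∈ V i, outN G i x ∈ T ∧ inN G i x ∈ T) :
    Level ε ξ K m n n' V U P Q G Z := by
  have hKR : (1000 : ℝ) ≤ K := by exact_mod_cast hK
  have hmR : (1000 : ℝ) ≤ m := by exact_mod_cast hm
  have hK0 : (0 : ℝ) < K := by linarith
  have hm0 : (0 : ℝ) < m := by linarith
  have hleR : (K : ℝ) * n' ≤ n := by exact_mod_cast hle
  have hgeR : (n : ℝ) ≤ 2 * K * n' := by exact_mod_cast hge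
  have hn'0 : (0 : ℝ) ≤ n' := Nat.cast_nonneg _
  have hn0 : (0 : ℝ) ≤ n := Nat.cast_nonneg _
  have hβn : ∀ i x, 0 ≤ β * n := fun i x => (abs_nonneg _).trans (himb i x)
  have hδn0 : 0 ≤ δ * n := by positivity
  have hδ₀0 : 0 ≤ δ₀ := hδ.trans hδδ
  have hξn : (β + 4 * δ) * n ≤ ξ * n := mul_le_mul_of_nonneg_right hβ hn0
  -- error terms
  have herr : δ * n ≤ 1 / (500 * m ^ 2) * n' := by
    have h1 : δ * n ≤ δ₀ * (2 * K * n') := mul_le_mul hδδ hgeR hn0 hδ₀0
    have h2 : δ₀ * (2 * K * n') = δ₀ * (1000 * K * m ^ 2) * (1 / (500 * m ^ 2) * n') := by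
      field_simp; ring
    rw [h2] at h1
    refine h1.trans ?_
    calc δ₀ * (1000 * K * m ^ 2) * (1 / (500 * m ^ 2) * n') ≤ 1 * (1 / (500 * m ^ 2) * n') :=
          mul_le_mul_of_nonneg_right hδ₀ (by positivity)
      _ = _ := one_mul _
  have herr2 : 2 * δ₀ * n' ≤ 1 / (500 * m ^ 2) * n' := by
    refine mul_le_mul_of_nonneg_right ?_ hn'0
    rw [le_div_iff₀ (by positivity)]
    have : 2 * δ₀ * (500 * m ^ 2) = δ₀ * (1000 * 1 * m ^ 2) := by ring
    rw [this]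
    refine le_trans ?_ hδ₀
    have h3 : (1 : ℝ) ≤ K := by linarith
    have h4 : (1000 : ℝ) * 1 * m ^ 2 ≤ 1000 * K * m ^ 2 := by
      have : (0 : ℝ) ≤ m ^ 2 := by positivity
      nlinarith
    exact mul_le_mul_of_nonneg_left h4 hδ₀0
  have hm2m : 1 / (500 * (m : ℝ) ^ 2) * n' ≤ 1 / 500000 * (n' / m) := by
    have e : 1 / 500000 * ((n' : ℝ) / m) = 1 / (500000 * m) * n' := by ring
    rw [e]
    refine mul_le_mul_of_nonneg_right ?_ hn'0
    refine one_div_le_one_div_of_le (by positivity) ?_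
    nlinarith
  have hcd : ∀ i x y, x ∈ V i → y ∈ V (i + 1) →
      (3 / 5 : ℝ) * n ≤ (outN G (i + 1) y ∩ inN G i x).card := by
    intro i x y hx hy
    have h1 := inter_card_ge (c := 4 / 5 + ε) (n := n) (W := V (i + 2))
      (A := outN G (i + 1) y) (B := inN G i x)
      (by have := hin.out (i + 1) y; rwa [(z3 i).1] at this) (hin.in' i x) (hV _)
      (hdeg (i + 1) y hy).1 (hdeg i x hx).2
    have h2 : (3 / 5 : ℝ) * n ≤ (2 * (4 / 5 + ε) - 1) * n :=
      mul_le_mul_of_nonneg_right (by linarith) hn0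
    exact h2.trans h1
  have hcdV : ∀ i x y, outN G (i + 1) y ∩ inN G i x ⊆ V (i + 2) := fun i x y =>
    Finset.inter_subset_right.trans (hin.in' i x)
  have hlink : ∀ (c : ℝ), (3 / 5 : ℝ) * n ≤ c → 3 / 5 * ((n' : ℝ) / m) ≤ c / (K * m) := by
    intro c hc
    rw [le_div_iff₀ (by positivity)]
    calc 3 / 5 * ((n' : ℝ) / m) * (K * m) = 3 / 5 * (K * n') := by field_simp
      _ ≤ 3 / 5 * n := mul_le_mul_of_nonneg_left hleR (by norm_num)
      _ ≤ c := hc
  have hsmall : (1 / K + 1 / m : ℝ) ≤ 1 / 500 := by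
    have h1 : (1 : ℝ) / K ≤ 1 / 1000 := one_div_le_one_div_of_le (by norm_num) hKR
    have h2 : (1 : ℝ) / m ≤ 1 / 1000 := one_div_le_one_div_of_le (by norm_num) hmR
    linarith
  have hnm : (0 : ℝ) ≤ n' / m := by positivity
  -- sizes of the reservoir at outside vertices
  have ho : ∀ i x, x ∉ U i → ((outN (resv U P Q G) i x).card : ℝ) ≤ n' / m := by
    intro i x hxU
    rw [out_resv_out hxU]
    refine le_trans ?_ (sp.colP (i + 1) (P i x))
    exact_mod_cast Finset.card_le_card (fun y hy => by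
      simp only [Finset.mem_filter] at hy ⊢
      exact hy.2)
  have hi : ∀ i x, x ∉ U i → ((inN (resv U P Q G) i x).card : ℝ) ≤ n' / m := by
    intro i x hxU
    rw [in_resv_out hxU]
    refine le_trans ?_ (sp.colQ (i + 2) (Q i x))
    exact_mod_cast Finset.card_le_card (fun y hy => by
      simp only [Finset.mem_filter] at hy ⊢
      exact hy.2)
  refine ⟨hV, sp.cardU, sp.sub, hle, hge, hin, hdeg, hZ, ?_, ?_, ?_, ?_, ?_, sp.colPQ, ?_⟩
  · -- near
    intro i x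
    by_cases hx : x ∈ V i
    · rw [out_card_union (disj_restr_resv U P Q G), in_card_union (disj_restr_resv U P Q G)]
      have im := abs_le.1 (himb i x)
      by_cases hxU : x ∈ U i
      · rw [out_restr_in hxU, in_restr_in hxU, out_resv_in hxU, in_resv_in hxU]
        have a1 := abs_le.1 (sp.t1 (i + 1) _ (hT1 i x hx).1 (hin.out i x))
        have a2 := abs_le.1 (sp.t1 (i + 2) _ (hT1 i x hx).2 (hin.in' i x))
        have a3 := abs_le.1 (sp.tQ' (i + 1) _ (hT1 i x hx).1 (hin.out i x) (Q i x) (sp.lt i x).2)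
        have a4 := abs_le.1 (sp.tP' (i + 2) _ (hT1 i x hx).2 (hin.in' i x) (P i x) (sp.lt i x).1)
        obtain ⟨a, ha⟩ : ∃ a : ℝ, a = (outN G i x).card := ⟨_, rfl⟩
        obtain ⟨b, hb⟩ : ∃ b : ℝ, b = (inN G i x).card := ⟨_, rfl⟩
        rw [← ha] at a1 a3 im
        rw [← hb] at a2 a4 im
        obtain ⟨c, hc⟩ : ∃ c : ℝ, c = 1 / K + (K - 1) / (K * m) := ⟨_, rfl⟩
        have hc0 : 0 ≤ c := by
          rw [hc]
          have : (0 : ℝ) ≤ K - 1 := by linarith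
          positivity
        have hc1 : c ≤ 1 := by
          have h1 : ((K : ℝ) - 1) / (K * m) ≤ 1 / m := by
            rw [div_le_div_iff₀ (by positivity) hm0]; nlinarith
          rw [hc]; linarith
        have hac : a * c = a / K + a * (K - 1) / (K * m) := by rw [hc]; ring
        have hbc : b * c = b / K + b * (K - 1) / (K * m) := by rw [hc]; ring
        have hab : |(a - b) * c| ≤ β * n := by
          rw [abs_mul, abs_of_nonneg hc0]
          calc |a - b| * c ≤ |a - b| * 1 := mul_le_mul_of_nonneg_left hc1 (abs_nonneg _)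
            _ ≤ β * n := by rw [mul_one]; exact abs_le.2 im
        have hab' := abs_le.1 hab
        have hexp : (a - b) * c = a * c - b * c := by ring
        rw [hexp, hac, hbc] at hab'
        push_cast
        rw [abs_le]
        constructor <;> linarith [a1.1, a1.2, a2.1, a2.2, a3.1, a3.2, a4.1, a4.2]
      · rw [out_restr_out hxU, in_restr_out hxU, out_resv_out hxU, in_resv_out hxU]
        have a1 := abs_le.1 (sp.tP (i + 1) _ (hT1 i x hx).1 (hin.out i x) (P i x) (sp.lt i x).1)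
        have a2 := abs_le.1 (sp.tQ (i + 2) _ (hT1 i x hx).2 (hin.in' i x) (Q i x) (sp.lt i x).2)
        obtain ⟨a, ha⟩ : ∃ a : ℝ, a = (outN G i x).card := ⟨_, rfl⟩
        obtain ⟨b, hb⟩ : ∃ b : ℝ, b = (inN G i x).card := ⟨_, rfl⟩
        rw [← ha] at a1 im
        rw [← hb] at a2 im
        have hKm : (1 : ℝ) ≤ K * m := by nlinarith
        have hab : |a / (K * m) - b / (K * m)| ≤ β * n := by
          rw [← sub_div, abs_div, abs_of_pos (by positivity : (0 : ℝ) < K * m)]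
          refine (div_le_self (abs_nonneg _) hKm).trans (abs_le.2 im)
        have hab' := abs_le.1 hab
        rw [Finset.card_empty]
        push_cast
        rw [abs_le]
        constructor <;> linarith [a1.1, a1.2, a2.1, a2.2]
    · have h1 : outN (restr U G ∪ resv U P Q G) i x = ∅ := by
        have : outN (restr U G ∪ resv U P Q G) i x ⊆ outN G i x :=
          outN_mono (Finset.union_subset (restr_subset U G) (Finset.filter_subset _ _)) i x
        rw [hin.out_empty hx] at this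
        exact Finset.subset_empty.1 this
      have h2 : inN (restr U G ∪ resv U P Q G) i x = ∅ := by
        have : inN (restr U G ∪ resv U P Q G) i x ⊆ inN G i x :=
          inN_mono (Finset.union_subset (restr_subset U G) (Finset.filter_subset _ _)) i x
        rw [hin.in_empty hx] at this
        exact Finset.subset_empty.1 this
      rw [h1, h2]
      have := hβn i x
      simp only [Finset.card_empty, Nat.cast_zero, sub_self, abs_zero]
      linarith
  · -- common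
    intro i x hx hxU y hy hyU
    have a1 := abs_le.1 (sp.tPQ (i + 2) _ (hT2 i x hx y hy) (hcdV i x y) (P (i + 1) y)
      (sp.lt _ _).1 (Q i x) (sp.lt _ _).2)
    have a2 := hcd i x y hx hy
    have a3 : 3 / 5 * ((n' : ℝ) / m ^ 2) ≤
        ((outN G (i + 1) y ∩ inN G i x).card : ℝ) / (K * m ^ 2) := by
      rw [le_div_iff₀ (by positivity)]
      calc 3 / 5 * ((n' : ℝ) / m ^ 2) * (K * m ^ 2) = 3 / 5 * (K * n') := by field_simp
        _ ≤ 3 / 5 * n := mul_le_mul_of_nonneg_left hleR (by norm_num)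
        _ ≤ _ := a2
    have a4 : (n' : ℝ) / (2 * m ^ 2) ≤ (((outN G (i + 1) y ∩ inN G i x).filter fun w =>
        w ∈ U (i + 2) ∧ P (i + 2) w = P (i + 1) y ∧ Q (i + 2) w = Q i x).card : ℝ) := by
      have e1 : (n' : ℝ) / (2 * m ^ 2) = 1 / 2 * (n' / m ^ 2) := by ring
      have e2 : 1 / (500 * (m : ℝ) ^ 2) * n' = 1 / 500 * (n' / m ^ 2) := by ring
      rw [e2] at herr
      have e3 : (0 : ℝ) ≤ n' / m ^ 2 := by positivity
      rw [e1]
      linarith [a1.1]
    refine a4.trans ?_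
    exact_mod_cast Finset.card_le_card (fun w hw => by
      simp only [Finset.mem_filter, Finset.mem_inter, mem_outN, mem_inN, Finset.mem_univ,
        true_and, mem_resv, (z3 i).1, (z3 i).2.2.1] at hw ⊢
      obtain ⟨⟨w1, w2⟩, w3, w4, w5⟩ := hw
      exact ⟨⟨w1, Or.inl ⟨hyU, w3, w4.symm⟩⟩, ⟨w2, Or.inr ⟨w3, hxU, w5⟩⟩⟩)
  · -- linkOut
    intro i x hx hxU u hu
    have huV : u ∈ V (i + 1) := sp.sub _ hu
    have a1 := abs_le.1 (sp.tQ (i + 2) _ (hT2 i x hx u huV) (hcdV i x u) (Q i x) (sp.lt _ _).2)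
    have a2 := hlink _ (hcd i x u hx huV)
    have a3 := hZo i x hx hxU u
    have a4 := hi i x hxU
    have a5 : (1 / K + 1 / m) * ((inN (resv U P Q G) i x).card : ℝ) ≤ 1 / 500 * (n' / m) :=
      mul_le_mul hsmall a4 (Nat.cast_nonneg _) (by norm_num)
    have hsub : ((outN G (i + 1) u ∩ inN G i x).filter fun w =>
        w ∈ U (i + 2) ∧ Q (i + 2) w = Q i x) \ (outN Z (i + 1) u ∩ inN (resv U P Q G) i x) ⊆
        univ.filter fun v => (i + 2, v, x) ∈ resv U P Q G ∧ (i + 1, u, v) ∈ restr U G \ Z := by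
      intro w hw
      simp only [Finset.mem_sdiff, Finset.mem_filter, Finset.mem_inter, mem_outN, mem_inN,
        Finset.mem_univ, true_and, mem_resv, mem_restr, (z3 i).1, (z3 i).2.2.1] at hw ⊢
      obtain ⟨⟨⟨w1, w2⟩, w3, w4⟩, w5⟩ := hw
      have hr : (i + 2, w, x) ∈ G ∧ (w ∉ U (i + 2) ∧ x ∈ U i ∧ P (i + 2) w = P i x ∨
          w ∈ U (i + 2) ∧ x ∉ U i ∧ Q (i + 2) w = Q i x) := ⟨w2, Or.inr ⟨w3, hxU, w4⟩⟩
      exact ⟨hr, ⟨w1, hu, w3⟩, fun hz => w5 ⟨hz, hr⟩⟩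
    have hcard := Finset.card_le_card hsub
    have hle2 := Finset.le_card_sdiff (outN Z (i + 1) u ∩ inN (resv U P Q G) i x)
      ((outN G (i + 1) u ∩ inN G i x).filter fun w => w ∈ U (i + 2) ∧ Q (i + 2) w = Q i x)
    have h7 : (((outN G (i + 1) u ∩ inN G i x).filter fun w =>
        w ∈ U (i + 2) ∧ Q (i + 2) w = Q i x).card : ℝ) ≤
        ((univ.filter fun v => (i + 2, v, x) ∈ resv U P Q G ∧
          (i + 1, u, v) ∈ restr U G \ Z).card : ℝ) +
        (outN Z (i + 1) u ∩ inN (resv U P Q G) i x).card := by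
      have h8 : ((outN G (i + 1) u ∩ inN G i x).filter fun w =>
          w ∈ U (i + 2) ∧ Q (i + 2) w = Q i x).card ≤
          (univ.filter fun v => (i + 2, v, x) ∈ resv U P Q G ∧
            (i + 1, u, v) ∈ restr U G \ Z).card +
          (outN Z (i + 1) u ∩ inN (resv U P Q G) i x).card := by omega
      exact_mod_cast h8
    linarith [a1.1]
  · -- linkIn
    intro i x hx hxU v hv
    have hvV : v ∈ V (i + 2) := sp.sub _ hv
    have e1 : i + 2 + 1 = i := (z3 i).2.2.1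
    have e2 : i + 2 + 2 = i + 1 := (z3 i).2.2.2
    have hxV' : x ∈ V (i + 2 + 1) := by rw [e1]; exact hx
    have hT := hT2 (i + 2) v hvV x hxV'
    have hsubV := hcdV (i + 2) v x
    have hcd' := hcd (i + 2) v x hvV hxV'
    rw [e1] at hT hsubV hcd'
    rw [e2] at hsubV
    have a1 := abs_le.1 (sp.tP (i + 1) _ hT hsubV (P i x) (sp.lt _ _).1)
    have a2 := hlink _ hcd'
    have a3 := hZi i x hx hxU v
    have a4 := ho i x hxU
    have a5 : (1 / K + 1 / m) * ((outN (resv U P Q G) i x).card : ℝ) ≤ 1 / 500 * (n' / m) :=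
      mul_le_mul hsmall a4 (Nat.cast_nonneg _) (by norm_num)
    have hsub : ((outN G i x ∩ inN G (i + 2) v).filter fun w =>
        w ∈ U (i + 1) ∧ P (i + 1) w = P i x) \ (inN Z (i + 2) v ∩ outN (resv U P Q G) i x) ⊆
        univ.filter fun u => (i, x, u) ∈ resv U P Q G ∧ (i + 1, u, v) ∈ restr U G \ Z := by
      intro w hw
      simp only [Finset.mem_sdiff, Finset.mem_filter, Finset.mem_inter, mem_outN, mem_inN,
        Finset.mem_univ, true_and, mem_resv, mem_restr, (z3 i).1, (z3 i).2.2.2] at hw ⊢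
      obtain ⟨⟨⟨w1, w2⟩, w3, w4⟩, w5⟩ := hw
      have hr : (i, x, w) ∈ G ∧ (x ∉ U i ∧ w ∈ U (i + 1) ∧ P i x = P (i + 1) w ∨
          x ∈ U i ∧ w ∉ U (i + 1) ∧ Q i x = Q (i + 1) w) := ⟨w1, Or.inl ⟨hxU, w3, w4.symm⟩⟩
      exact ⟨hr, ⟨w2, w3, hv⟩, fun hz => w5 ⟨hz, hr⟩⟩
    have hcard := Finset.card_le_card hsub
    have hle2 := Finset.le_card_sdiff (inN Z (i + 2) v ∩ outN (resv U P Q G) i x)
      ((outN G i x ∩ inN G (i + 2) v).filter fun w => w ∈ U (i + 1) ∧ P (i + 1) w = P i x)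
    have h7 : (((outN G i x ∩ inN G (i + 2) v).filter fun w =>
        w ∈ U (i + 1) ∧ P (i + 1) w = P i x).card : ℝ) ≤
        ((univ.filter fun u => (i, x, u) ∈ resv U P Q G ∧
          (i + 1, u, v) ∈ restr U G \ Z).card : ℝ) +
        (inN Z (i + 2) v ∩ outN (resv U P Q G) i x).card := by
      have h8 : ((outN G i x ∩ inN G (i + 2) v).filter fun w =>
          w ∈ U (i + 1) ∧ P (i + 1) w = P i x).card ≤
          (univ.filter fun u => (i, x, u) ∈ resv U P Q G ∧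
            (i + 1, u, v) ∈ restr U G \ Z).card +
          (inN Z (i + 2) v ∩ outN (resv U P Q G) i x).card := by omega
      exact_mod_cast h8
    linarith [a1.1]
  · -- outside
    intro i x _ hxU
    have h1 := ho i x hxU
    have h2 := hi i x hxU
    exact ⟨by linarith, by linarith⟩
  · -- load
    intro i u hu
    constructor
    · rw [out_resv_in hu]
      refine le_trans ?_ (sp.colVQ (i + 1) (Q i u))
      exact_mod_cast Finset.card_le_card (fun y hy => by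
        simp only [Finset.mem_filter] at hy ⊢
        exact ⟨hin.out i u hy.1, hy.2.2⟩)
    · rw [in_resv_in hu]
      refine le_trans ?_ (sp.colVP (i + 2) (P i u))
      exact_mod_cast Finset.card_le_card (fun y hy => by
        simp only [Finset.mem_filter] at hy ⊢
        exact ⟨hin.in' i u hy.1, hy.2.2⟩)

end Pool.Agent.Lib.MP_cb9986_co.S9
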